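import Pool.Agent.Work.MP_584b0c_al.Cst.C1

set_option autoImplicit false

namespace Pool.Agent.IntComm.Cst

open Matrix Polynomial

namespace C2

/-- Dual functionals for the block `t - 1` of a family. -/
noncomputable def psi {F : Type} [Field F] {N l k : ℕ} (u : Fin l → (Fin N → F)) (j : Fin k) :
    Fin N → F :=
  open Classical in
  if h : LinearIndependent F u ∧ l - k + j < l then
    (C1.exists_dual u ⟨l - k + j, h.2⟩ h.1).choose else 0

theorem psi_spec {F : Type} [Field F] {N l k : ℕ} (u : Fin l → (Fin N → F))
    (h : LinearIndependent F u) (hkl : k ≤ l) (j : Fin k) (a : Fin l) :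
    psi u j ⬝ᵥ u a = if a.val = l - k + j then 1 else 0 := by
  classical
  have hlt : l - k + j < l := by
    have := j.2
    omega
  have hs := (C1.exists_dual u ⟨l - k + j, hlt⟩ h).choose_spec
  have hpsi : psi u j = (C1.exists_dual u ⟨l - k + j, hlt⟩ h).choose := by
    unfold psi
    rw [dif_pos ⟨h, hlt⟩]
  rw [hpsi]
  split_ifs with ha
  · have : a = ⟨l - k + j, hlt⟩ := Fin.ext ha
    rw [this]
    exact hs.1
  · apply hs.2
    intro h'
    exact ha (congrArg Fin.val h')

/-- The change of the second block. -/
noncomputable def del {F : Type} [Field F] {N k : ℕ} (y : Fin k → Fin N → F)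
    (p : Fin k → Fin N → F) : Matrix (Fin N) (Fin N) F :=
  ∑ j, vecMulVec (y j) (p j)

theorem del_mulVec {F : Type} [Field F] {N k : ℕ} (y : Fin k → Fin N → F)
    (p : Fin k → Fin N → F) (v : Fin N → F) :
    (del y p).mulVec v = ∑ j, (p j ⬝ᵥ v) • y j := by
  unfold del
  rw [Matrix.sum_mulVec]
  apply Finset.sum_congr rfl
  intro j _
  rw [vecMulVec_mulVec]
  funext i
  simp [mul_comm]

/-- The transformation. -/
noncomputable def TT {F : Type} [Field F] {k N : ℕ} (l : ℕ) (y : Fin k → Fin N → F)
    (R : Matrix (Fin N) (Fin k ⊕ Fin N) F) : Matrix (Fin N) (Fin k ⊕ Fin N) F :=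
  R + fromCols 0 (del y (psi (fun a : Fin l => chain R a)))

theorem TT_toCols₂ {F : Type} [Field F] {k N : ℕ} (l : ℕ) (y : Fin k → Fin N → F)
    (R : Matrix (Fin N) (Fin k ⊕ Fin N) F) :
    (TT l y R).toCols₂ = R.toCols₂ + del y (psi (fun a : Fin l => chain R a)) := by
  ext i j
  simp [TT, Matrix.toCols₂]

theorem TT_low (hA0 : ClaimChain) {F : Type} [Field F] {k N : ℕ} (hk : 0 < k) (l : ℕ)
    (hkl : k ≤ l) (y : Fin k → Fin N → F) (R : Matrix (Fin N) (Fin k ⊕ Fin N) F)
    (hR : LinearIndependent F (fun a : Fin l => chain R a)) :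
    ∀ a, a < l → chain (TT l y R) a = chain R a := by
  obtain ⟨hA1, hA2, -⟩ := hA0
  intro a
  induction a using Nat.strong_induction_on with
  | _ a ih =>
    intro ha
    rcases lt_or_ge a k with hak | hak
    · have e1 := hA1 F k N (TT l y R) ⟨a, hak⟩
      have e2 := hA1 F k N R ⟨a, hak⟩
      simp only at e1 e2
      rw [e1, e2]
      funext i
      simp [TT]
    · obtain ⟨b, rfl⟩ := Nat.exists_eq_add_of_le' hak
      rw [hA2 F k N _ b hk, hA2 F k N _ b hk, ih b (by omega) (by omega), TT_toCols₂,
        Matrix.add_mulVec, del_mulVec]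
      rw [Finset.sum_eq_zero, add_zero]
      intro j _
      have := psi_spec (fun a : Fin l => chain R a) hR hkl j ⟨b, by omega⟩
      simp only at this
      rw [this, if_neg (by omega), zero_smul]

theorem TT_high (hA0 : ClaimChain) {F : Type} [Field F] {k N : ℕ} (hk : 0 < k) (l : ℕ)
    (hkl : k ≤ l) (y : Fin k → Fin N → F) (R : Matrix (Fin N) (Fin k ⊕ Fin N) F)
    (hR : LinearIndependent F (fun a : Fin l => chain R a)) (j : Fin k) :
    chain (TT l y R) (l + j) = chain R (l + j) + y j := by
  have hlow := TT_low hA0 hk l hkl y R hR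
  obtain ⟨hA1, hA2, -⟩ := hA0
  have hj := j.2
  obtain ⟨b, hb⟩ : ∃ b, b = l - k + (j : ℕ) := ⟨_, rfl⟩
  have e : l + (j : ℕ) = b + k := by omega
  have hbl : b < l := by omega
  rw [e, hA2 F k N _ b hk, hA2 F k N _ b hk, hlow b hbl, TT_toCols₂,
    Matrix.add_mulVec, del_mulVec]
  congr 1
  rw [Finset.sum_eq_single j]
  · have := psi_spec (fun a : Fin l => chain R a) hR hkl j ⟨b, hbl⟩
    simp only at this
    rw [this, if_pos hb, one_smul]
  · intro j' _ hj'
    have := psi_spec (fun a : Fin l => chain R a) hR hkl j' ⟨b, hbl⟩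
    simp only at this
    rw [this, if_neg, zero_smul]
    intro h
    apply hj'
    apply Fin.ext
    omega
  · intro h
    exact absurd (Finset.mem_univ _) h

theorem TT_neg (hA0 : ClaimChain) {F : Type} [Field F] {k N : ℕ} (hk : 0 < k) (l : ℕ)
    (hkl : k ≤ l) (y : Fin k → Fin N → F) (R : Matrix (Fin N) (Fin k ⊕ Fin N) F)
    (hR : LinearIndependent F (fun a : Fin l => chain R a)) :
    TT l (-y) (TT l y R) = R := by
  have hs := TT_low hA0 hk l hkl y R hR
  have h1 : (fun a : Fin l => chain (TT l y R) a) = (fun a : Fin l => chain R a) := by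
    funext a
    exact hs a a.2
  have h2 : TT l (-y) (TT l y R) =
      TT l y R + fromCols 0 (del (-y) (psi (fun a : Fin l => chain (TT l y R) a))) := rfl
  rw [h2, h1]
  have h3 : del (-y) (psi (fun a : Fin l => chain R a)) =
      - del y (psi (fun a : Fin l => chain R a)) := by
    unfold del
    rw [← Finset.sum_neg_distrib]
    apply Finset.sum_congr rfl
    intro j _
    rw [Pi.neg_apply, neg_vecMulVec]
  rw [h3]
  unfold TT
  ext i j
  rcases j with j | j
  · simp
  · simp

/-- The number of functionals vanishing on independent vectors. -/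
theorem card_ann {F : Type} [Field F] [Fintype F] {N l : ℕ} (u : Fin l → (Fin N → F))
    (hu : LinearIndependent F u) :
    Nat.card {g : Fin N → F // ∀ a, g ⬝ᵥ u a = 0} = Fintype.card F ^ (N - l) := by
  classical
  have h1 : (Matrix.of u).rank = l := by
    rw [LinearIndependent.rank_matrix (M := Matrix.of u) hu, Fintype.card_fin]
  have h2 := LinearMap.finrank_range_add_finrank_ker (Matrix.of u).mulVecLin
  rw [Module.finrank_fintype_fun_eq_card, Fintype.card_fin] at h2
  have h3 : Module.finrank F (LinearMap.ker (Matrix.of u).mulVecLin) = N - l := by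
    have : (Matrix.of u).rank = Module.finrank F (LinearMap.range (Matrix.of u).mulVecLin) := rfl
    omega
  have e : {g : Fin N → F // ∀ a, g ⬝ᵥ u a = 0} ≃ LinearMap.ker (Matrix.of u).mulVecLin := by
    refine Equiv.subtypeEquivRight ?_
    intro g
    rw [LinearMap.mem_ker, Matrix.mulVecLin_apply]
    constructor
    · intro h
      funext a
      have := h a
      rw [dotProduct_comm] at this
      exact this
    · intro h a
      have := congrFun h a
      rw [dotProduct_comm]
      exact this
  rw [Nat.card_congr e, Module.natCard_eq_pow_finrank (K := F), h3, Nat.card_eq_fintype_card]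

/-- The number of solutions of one affine equation. -/
theorem card_aff {F : Type} [Field F] [Fintype F] {N : ℕ} (g u : Fin N → F) (hg : g ≠ 0) :
    Nat.card {z : Fin N → F // g ⬝ᵥ (u + z) = 0} = Fintype.card F ^ (N - 1) := by
  classical
  have hker : Nat.card {z : Fin N → F // g ⬝ᵥ z = 0} = Fintype.card F ^ (N - 1) := by
    have hu : LinearIndependent F (fun _ : Fin 1 => g) := by
      rw [linearIndependent_unique_iff]
      exact hg
    have := card_ann (fun _ : Fin 1 => g) hu
    rw [← this]
    apply Nat.card_congr
    refine Equiv.subtypeEquivRight ?_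
    intro z
    constructor
    · intro h _
      rw [dotProduct_comm]
      exact h
    · intro h
      rw [dotProduct_comm]
      exact h 0
  rw [← hker]
  apply Nat.card_congr
  exact (Equiv.addLeft u).subtypeEquiv (fun z => Iff.rfl)

end C2

open Classical in
theorem claimC2 (hA0 : ClaimChain) (hB1 : ClaimDC) : ClaimC2 := by
  intro F _ _ k N t s hk ht hN
  have hkl : k ≤ t * k := Nat.le_mul_of_pos_left k (by omega)
  have hN1 : 1 ≤ N := by omega
  have hq : 0 < Fintype.card F := Fintype.card_pos
  set G : Matrix (Fin N) (Fin k ⊕ Fin N) F → Prop := fun R =>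
    LinearIndependent F (fun a : Fin (t * k) => chain R a) with hG
  set Bd : Matrix (Fin N) (Fin k ⊕ Fin N) F → Prop := fun R =>
    LinearIndependent F (fun a : Fin (t * k) => chain R a) ∧
      Submodule.span F (Set.range fun a : Fin ((t + 1) * k) => chain R a) ≠ ⊤ with hBd
  have hfam : ∀ y R, G R → (fun a : Fin (t * k) => chain (C2.TT (t * k) y R) a) =
      (fun a : Fin (t * k) => chain R a) := by
    intro y R hR
    funext a
    exact C2.TT_low hA0 hk (t * k) hkl y R hR a a.2
  have hDC := hB1 (Matrix (Fin N) (Fin k ⊕ Fin N) F) (Fin k → Fin N → F)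
    (Finset.univ.filter fun R => G R) (Finset.univ.filter fun R => Bd R)
    (by
      intro R hR
      rw [Finset.mem_filter] at hR ⊢
      exact ⟨hR.1, hR.2.1⟩)
    (C2.TT (t * k))
    (by
      intro y R hR
      rw [Finset.mem_filter] at hR ⊢
      refine ⟨Finset.mem_univ _, ?_⟩
      simp only [hG]
      rw [hfam y R hR.2]
      exact hR.2)
    (by
      intro y R hR R' hR' h
      rw [Finset.mem_coe, Finset.mem_filter] at hR hR'
      have e1 := C2.TT_neg hA0 hk (t * k) hkl y R hR.2
      have e2 := C2.TT_neg hA0 hk (t * k) hkl y R' hR'.2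
      rw [← e1, ← e2, h])
    (Fintype.card F ^ s * (Fintype.card F ^ (N - 1)) ^ k)
    (by
      intro R hR
      rw [Finset.mem_filter] at hR
      have hRG : LinearIndependent F (fun a : Fin (t * k) => chain R a) := hR.2
      -- the functionals
      have hcard : (Finset.univ.filter fun g : Fin N → F =>
          ∀ a : Fin (t * k), g ⬝ᵥ chain R a = 0).card = Fintype.card F ^ s := by
        have := C2.card_ann (fun a : Fin (t * k) => chain R a) hRG
        rw [Nat.card_eq_fintype_card, Fintype.card_subtype] at this
        rw [this]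
        congr 1
        omega
      have hsub : (Finset.univ.filter fun y => C2.TT (t * k) y R ∈
          (Finset.univ.filter fun R => Bd R)) ⊆
          (Finset.univ.filter fun g : Fin N → F => ∀ a : Fin (t * k), g ⬝ᵥ chain R a = 0).biUnion
            (fun g => if g = 0 then ∅ else Fintype.piFinset (fun j : Fin k =>
              Finset.univ.filter fun z : Fin N → F => g ⬝ᵥ (chain R (t * k + j) + z) = 0)) := by
        intro y hy
        rw [Finset.mem_filter, Finset.mem_filter] at hy
        have hspan := hy.2.2.2
        have hlow := C2.TT_low hA0 hk (t * k) hkl y R hRG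
        have hhigh := C2.TT_high hA0 hk (t * k) hkl y R hRG
        obtain ⟨f, hf, hker⟩ := Submodule.exists_le_ker_of_lt_top _ (lt_top_iff_ne_top.2 hspan)
        have hrep : ∀ v : Fin N → F, f v = (fun i => f (Pi.single i 1)) ⬝ᵥ v := by
          intro v
          have h2 : v = ∑ i, v i • (Pi.single i (1 : F) : Fin N → F) := by
            conv_lhs => rw [pi_eq_sum_univ' v]
          conv_lhs => rw [h2]
          rw [map_sum]
          simp only [dotProduct, map_smul, smul_eq_mul]
          exact Finset.sum_congr rfl fun i _ => mul_comm _ _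
        have hz : ∀ a, a < (t + 1) * k → f (chain (C2.TT (t * k) y R) a) = 0 := by
          intro a ha
          apply hker
          apply Submodule.subset_span
          exact ⟨⟨a, ha⟩, rfl⟩
        have ht1 : (t + 1) * k = t * k + k := by ring
        rw [Finset.mem_biUnion]
        refine ⟨fun i => f (Pi.single i 1), ?_, ?_⟩
        · rw [Finset.mem_filter]
          refine ⟨Finset.mem_univ _, ?_⟩
          intro a
          rw [← hrep, ← hlow a a.2]
          exact hz a (by have := a.2; omega)
        · have hg0 : (fun i => f (Pi.single i 1)) ≠ 0 := by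
            intro h0
            apply hf
            ext v
            rw [LinearMap.comp_apply, hrep, h0, zero_dotProduct]
            rfl
          rw [if_neg hg0, Fintype.mem_piFinset]
          intro j
          rw [Finset.mem_filter]
          refine ⟨Finset.mem_univ _, ?_⟩
          rw [← hrep, ← hhigh j]
          exact hz _ (by have := j.2; omega)
      refine (Finset.card_le_card hsub).trans (Finset.card_biUnion_le.trans ?_)
      rw [← hcard]
      refine le_trans (Finset.sum_le_card_nsmul _ _ ((Fintype.card F ^ (N - 1)) ^ k) ?_)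
        (le_of_eq (smul_eq_mul _ _))
      intro g _
      split_ifs with hg
      · simp
      · rw [Fintype.card_piFinset]
        have : ∀ j : Fin k, (Finset.univ.filter fun z : Fin N → F =>
            g ⬝ᵥ (chain R (t * k + j) + z) = 0).card = Fintype.card F ^ (N - 1) := by
          intro j
          have := C2.card_aff g (chain R (t * k + j)) hg
          rw [Nat.card_eq_fintype_card, Fintype.card_subtype] at this
          exact this
        refine le_of_eq ?_
        rw [Finset.prod_congr rfl (g := fun _ => Fintype.card F ^ (N - 1))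
          (fun j _ => by convert this j), Finset.prod_const, Finset.card_univ, Fintype.card_fin])
  have e1 : Fintype.card (Fin k → Fin N → F) =
      (Fintype.card F ^ (N - 1)) ^ k * Fintype.card F ^ k := by
    rw [Fintype.card_fun, Fintype.card_fun, Fintype.card_fin, Fintype.card_fin, ← mul_pow,
      ← pow_succ, Nat.sub_add_cancel hN1]
  rw [e1] at hDC
  have e2 : Nat.card {R : Matrix (Fin N) (Fin k ⊕ Fin N) F // Bd R} =
      (Finset.univ.filter fun R : Matrix (Fin N) (Fin k ⊕ Fin N) F => Bd R).card := by
    rw [Nat.card_eq_fintype_card, Fintype.card_subtype]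
  have hX : (Finset.univ.filter fun R : Matrix (Fin N) (Fin k ⊕ Fin N) F => G R).card ≤
      Nat.card (Matrix (Fin N) (Fin k ⊕ Fin N) F) := by
    rw [Nat.card_eq_fintype_card, ← Finset.card_univ]
    exact Finset.card_le_card (Finset.filter_subset _ _)
  change Nat.card {R : Matrix (Fin N) (Fin k ⊕ Fin N) F // Bd R} * Fintype.card F ^ k ≤
    Fintype.card F ^ s * Nat.card (Matrix (Fin N) (Fin k ⊕ Fin N) F)
  rw [e2]
  have hpos : 0 < (Fintype.card F ^ (N - 1)) ^ k := pow_pos (pow_pos hq _) _
  refine le_trans ?_ (Nat.mul_le_mul_left _ hX)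
  refine Nat.le_of_mul_le_mul_left ?_ hpos
  refine le_trans (le_of_eq ?_) (hDC.trans (le_of_eq ?_))
  · ring
  · ring

end Pool.Agent.IntComm.Cst
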