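import Pool.Agent.Work.MP_584b0c_al.Cst.Stmts

set_option autoImplicit false

namespace Pool.Agent.IntComm.Cst

open Matrix Polynomial

namespace C3

/-- First dependency. -/
theorem first_dep {F : Type} [Field F] {N : ℕ} (v : ℕ → Fin N → F) : ∀ l : ℕ,
    ¬ LinearIndependent F (fun a : Fin l => v a) →
    ∃ w, w < l ∧ LinearIndependent F (fun a : Fin w => v a) ∧
      v w ∈ Submodule.span F (Set.range fun a : Fin w => v a) := by
  intro l
  induction l with
  | zero =>
    intro h
    exact absurd linearIndependent_empty_type h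
  | succ l ih =>
    intro h
    by_cases hl : LinearIndependent F (fun a : Fin l => v a)
    · refine ⟨l, Nat.lt_succ_self l, hl, ?_⟩
      by_contra hv
      apply h
      rw [linearIndependent_finSucc']
      exact ⟨hl, hv⟩
    · obtain ⟨w, hw, h1, h2⟩ := ih hl
      exact ⟨w, by omega, h1, h2⟩

end C3

open Classical in
theorem claimC3 (hC1 : ClaimC1) (hC2 : ClaimC2) : ClaimC3 := by
  intro p hp m N t hm ht hN A hA
  have hp2 : 2 ≤ p := hp.out.two_le
  have hk : 0 < 2 * m := by omega
  have hq : Fintype.card (ZMod p) = p := ZMod.card p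
  obtain ⟨T, hT⟩ : ∃ T, T = Nat.card (Matrix (Fin N) (Fin (2 * m) ⊕ Fin N) (ZMod p)) := ⟨_, rfl⟩
  have hTpos : 0 < T := by rw [hT]; exact Nat.card_pos
  set B1 : ℕ → Finset (Matrix (Fin N) (Fin (2 * m) ⊕ Fin N) (ZMod p)) := fun w =>
    Finset.univ.filter fun R => LinearIndependent (ZMod p) (fun a : Fin w => chain R a) ∧
      chain R w ∈ Submodule.span (ZMod p) (Set.range fun a : Fin w => chain R a) with hB1
  set B2 : Finset (Matrix (Fin N) (Fin (2 * m) ⊕ Fin N) (ZMod p)) :=
    Finset.univ.filter fun R =>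
      LinearIndependent (ZMod p) (fun a : Fin (t * (2 * m)) => chain R a) ∧
      Submodule.span (ZMod p) (Set.range fun a : Fin ((t + 1) * (2 * m)) => chain R a) ≠ ⊤
    with hB2
  set Bad : Finset (Matrix (Fin N) (Fin (2 * m) ⊕ Fin N) (ZMod p)) :=
    Finset.univ.filter fun R => ¬ GoodF t R with hBad
  have c1 : ∀ w, w < t * (2 * m) → (B1 w).card * p ^ N ≤ p ^ w * T := by
    intro w hw
    have := hC1 (ZMod p) (2 * m) N w hk (by omega)
    rw [hq, ← hT, Nat.card_eq_fintype_card, Fintype.card_subtype] at this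
    exact this
  have c2 : B2.card * p ^ (2 * m) ≤ p ^ m * T := by
    have := hC2 (ZMod p) (2 * m) N t m hk ht hN
    rw [hq, ← hT, Nat.card_eq_fintype_card, Fintype.card_subtype] at this
    exact this
  have hsub : Bad ⊆ (Finset.range (t * (2 * m))).biUnion B1 ∪ B2 := by
    intro R hR
    rw [hBad, Finset.mem_filter] at hR
    rw [Finset.mem_union, Finset.mem_biUnion]
    by_cases hl : LinearIndependent (ZMod p) (fun a : Fin (t * (2 * m)) => chain R a)
    · right
      rw [hB2, Finset.mem_filter]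
      exact ⟨Finset.mem_univ _, hl, fun h => hR.2 ⟨hl, h⟩⟩
    · left
      obtain ⟨w, hw, h1, h2⟩ := C3.first_dep (fun a => chain R a) _ hl
      refine ⟨w, Finset.mem_range.2 hw, ?_⟩
      rw [hB1, Finset.mem_filter]
      exact ⟨Finset.mem_univ _, h1, h2⟩
  have hgeo : ∑ w ∈ Finset.range (t * (2 * m)), p ^ w ≤ p ^ (t * (2 * m)) := by
    have := Nat.geomSum_lt (m := p) (n := t * (2 * m)) (s := Finset.range (t * (2 * m))) hp2
      (fun k hk => Finset.mem_range.1 hk)
    exact this.le
  have hS1 : (∑ w ∈ Finset.range (t * (2 * m)), (B1 w).card) * p ^ m ≤ T := by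
    have h1 : (∑ w ∈ Finset.range (t * (2 * m)), (B1 w).card) * p ^ N ≤
        p ^ (t * (2 * m)) * T := by
      rw [Finset.sum_mul]
      calc ∑ w ∈ Finset.range (t * (2 * m)), (B1 w).card * p ^ N
          ≤ ∑ w ∈ Finset.range (t * (2 * m)), p ^ w * T :=
            Finset.sum_le_sum fun w hw => c1 w (Finset.mem_range.1 hw)
        _ = (∑ w ∈ Finset.range (t * (2 * m)), p ^ w) * T := by rw [Finset.sum_mul]
        _ ≤ p ^ (t * (2 * m)) * T := Nat.mul_le_mul_right _ hgeo
    have hpos : 0 < p ^ (t * (2 * m)) := pow_pos (by omega) _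
    refine Nat.le_of_mul_le_mul_left ?_ hpos
    refine le_trans (le_of_eq ?_) h1
    have e : p ^ N = p ^ (t * (2 * m)) * p ^ m := by rw [← pow_add, ← hN]
    rw [e]
    ring
  have hS2 : B2.card * p ^ m ≤ T := by
    have hpos : 0 < p ^ m := pow_pos (by omega) _
    refine Nat.le_of_mul_le_mul_left ?_ hpos
    refine le_trans (le_of_eq ?_) c2
    have e : p ^ (2 * m) = p ^ m * p ^ m := by rw [← pow_add, ← two_mul]
    rw [e]
    ring
  have hpm : 8 ≤ p ^ m := by
    calc 8 = 2 ^ 3 := by norm_num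
      _ ≤ p ^ 3 := Nat.pow_le_pow_left hp2 3
      _ ≤ p ^ m := Nat.pow_le_pow_right (by omega) hm
  have hBadcard : Bad.card * 4 ≤ T := by
    have h1 : Bad.card ≤ (∑ w ∈ Finset.range (t * (2 * m)), (B1 w).card) + B2.card :=
      (Finset.card_le_card hsub).trans ((Finset.card_union_le _ _).trans
        (Nat.add_le_add_right Finset.card_biUnion_le _))
    have h2 : Bad.card * 8 ≤ Bad.card * p ^ m := Nat.mul_le_mul_left _ hpm
    have h3 : Bad.card * p ^ m ≤
        ((∑ w ∈ Finset.range (t * (2 * m)), (B1 w).card) + B2.card) * p ^ m :=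
      Nat.mul_le_mul_right _ h1
    rw [add_mul] at h3
    omega
  -- the second set
  have hinj : Function.Injective
      (fun R : Matrix (Fin N) (Fin (2 * m) ⊕ Fin N) (ZMod p) => R * A) := by
    intro R R' h
    simp only at h
    have h1 : R * A * A⁻¹ = R' * A * A⁻¹ := by rw [h]
    rwa [Matrix.mul_assoc, Matrix.mul_assoc, Matrix.mul_nonsing_inv _ hA, Matrix.mul_one,
      Matrix.mul_one] at h1
  have hBad2 : (Finset.univ.filter fun R : Matrix (Fin N) (Fin (2 * m) ⊕ Fin N) (ZMod p) =>
      ¬ GoodF t (R * A)).card ≤ Bad.card := by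
    apply Finset.card_le_card_of_injOn (fun R => R * A)
    · intro R hR
      rw [Finset.mem_coe, Finset.mem_filter] at hR
      rw [Finset.mem_coe, hBad, Finset.mem_filter]
      exact ⟨Finset.mem_univ _, hR.2⟩
    · exact hinj.injOn
  have hTc : T = (Finset.univ : Finset (Matrix (Fin N) (Fin (2 * m) ⊕ Fin N) (ZMod p))).card := by
    rw [hT, Nat.card_eq_fintype_card, Finset.card_univ]
  by_contra hcon
  push Not at hcon
  have hcov : (Finset.univ : Finset (Matrix (Fin N) (Fin (2 * m) ⊕ Fin N) (ZMod p))) ⊆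
      Bad ∪ (Finset.univ.filter fun R : Matrix (Fin N) (Fin (2 * m) ⊕ Fin N) (ZMod p) =>
      ¬ GoodF t (R * A)) := by
    intro R _
    rw [Finset.mem_union]
    by_cases hR : GoodF t R
    · right
      rw [Finset.mem_filter]
      exact ⟨Finset.mem_univ _, hcon R hR⟩
    · left
      rw [hBad, Finset.mem_filter]
      exact ⟨Finset.mem_univ _, hR⟩
  have h1 := (Finset.card_le_card hcov).trans (Finset.card_union_le _ _)
  rw [← hTc] at h1
  omega

end Pool.Agent.IntComm.Cst
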