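import Pool.Agent.Work.MP_584b0c_al.Cst.Stmts

set_option autoImplicit false

namespace Pool.Agent.IntComm.Cst

open Matrix Polynomial

namespace Chain

variable {A : Type} [CommRing A] {k N : ℕ}

theorem chain_fin (R : Matrix (Fin N) (Fin k ⊕ Fin N) A) (a : Fin k) :
    chain R a = fun i => R i (Sum.inl a) := by
  have h1 : (a : ℕ) / k = 0 := Nat.div_eq_of_lt a.2
  have h2 : (a : ℕ) % k = a := Nat.mod_eq_of_lt a.2
  unfold chain
  rw [h1, pow_zero, Matrix.one_mulVec]
  funext i
  have h3 : (a : ℕ) % k < k := by rw [h2]; exact a.2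
  rw [dif_pos h3]
  congr 2
  exact Fin.ext h2

theorem chain_add (R : Matrix (Fin N) (Fin k ⊕ Fin N) A) (a : ℕ) (hk : 0 < k) :
    chain R (a + k) = R.toCols₂.mulVec (chain R a) := by
  unfold chain
  rw [Nat.add_div_right a hk, Nat.add_mod_right, pow_succ', ← Matrix.mulVec_mulVec]

theorem chain_map {B : Type} [CommRing B] (f : A →+* B) (R : Matrix (Fin N) (Fin k ⊕ Fin N) A)
    (a : ℕ) (i : Fin N) : chain (R.map f) a i = f (chain R a i) := by
  unfold chain
  have h1 : (R.map f).toCols₂ = R.toCols₂.map f := rfl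
  rw [h1]
  have h2 : (R.toCols₂.map f) ^ (a / k) = (R.toCols₂ ^ (a / k)).map f :=
    (map_pow f.mapMatrix R.toCols₂ (a / k)).symm
  rw [h2]
  unfold Matrix.mulVec dotProduct
  rw [map_sum]
  refine Finset.sum_congr rfl fun j _ => ?_
  rw [map_mul]
  congr 1
  split_ifs <;> simp

theorem move_toCols₂ (R : Matrix (Fin N) (Fin k ⊕ Fin N) A) (y ψ : Fin N → A) :
    (move R y ψ).toCols₂ = R.toCols₂ + vecMulVec y ψ := by
  ext i j
  simp [move, Matrix.toCols₂]

theorem moveCol_toCols₂ (R : Matrix (Fin N) (Fin k ⊕ Fin N) A) (y : Fin N → A) (w : ℕ) :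
    (moveCol R y w).toCols₂ = R.toCols₂ := by
  ext i j
  simp [moveCol, Matrix.toCols₂]

theorem chain_move (R : Matrix (Fin N) (Fin k ⊕ Fin N) A) (y ψ : Fin N → A) (w : ℕ) (hk : 0 < k)
    (h : ∀ a, a < w → ψ ⬝ᵥ chain R a = 0) :
    (∀ a, a < w + k → chain (move R y ψ) a = chain R a) ∧
      chain (move R y ψ) (w + k) = chain R (w + k) + (ψ ⬝ᵥ chain R w) • y := by
  have h1 : ∀ a, a < w + k → chain (move R y ψ) a = chain R a := by
    intro a
    induction a using Nat.strong_induction_on with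
    | _ a ih =>
      intro ha
      rcases lt_or_ge a k with hak | hak
      · have e1 := chain_fin (move R y ψ) ⟨a, hak⟩
        have e2 := chain_fin R ⟨a, hak⟩
        simp only at e1 e2
        rw [e1, e2]
        funext i
        simp [move]
      · obtain ⟨b, rfl⟩ := Nat.exists_eq_add_of_le' hak
        rw [chain_add _ _ hk, chain_add _ _ hk, ih b (by omega) (by omega), move_toCols₂,
          Matrix.add_mulVec, vecMulVec_mulVec, h b (by omega)]
        simp
  refine ⟨h1, ?_⟩
  rw [chain_add _ _ hk, chain_add _ _ hk, h1 w (by omega), move_toCols₂, Matrix.add_mulVec,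
    vecMulVec_mulVec]
  congr 1
  funext i
  simp [mul_comm]

theorem chain_moveCol (R : Matrix (Fin N) (Fin k ⊕ Fin N) A) (y : Fin N → A) (w : ℕ) (hw : w < k) :
    (∀ a, a < w → chain (moveCol R y w) a = chain R a) ∧
      chain (moveCol R y w) w = chain R w + y := by
  constructor
  · intro a ha
    have e1 := chain_fin (moveCol R y w) ⟨a, by omega⟩
    have e2 := chain_fin R ⟨a, by omega⟩
    simp only at e1 e2
    rw [e1, e2]
    funext i
    have h3 : a ≠ w := by omega
    simp [moveCol, h3]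
  · have e1 := chain_fin (moveCol R y w) ⟨w, hw⟩
    have e2 := chain_fin R ⟨w, hw⟩
    simp only at e1 e2
    rw [e1, e2]
    funext i
    simp [moveCol]

end Chain

theorem claimChain : ClaimChain :=
  ⟨fun _ _ _ _ R a => Chain.chain_fin R a, fun _ _ _ _ R a hk => Chain.chain_add R a hk,
    fun _ _ _ _ f _ _ R a i => Chain.chain_map f R a i,
    fun _ _ _ _ R y ψ w hk h => Chain.chain_move R y ψ w hk h,
    fun _ _ _ _ R y w hw => Chain.chain_moveCol R y w hw⟩

end Pool.Agent.IntComm.Cst
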