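import Pool.Agent.Work.MP_584b0c_al.Cst.Stmts

set_option autoImplicit false

/-!
Item B1 of the third part: double counting.
-/

namespace Pool.Agent.IntComm.Cst

open Matrix Polynomial

theorem claimDC : ClaimDC := by
  intro X Y _ _ _ X₀ B hB T hT hinj c hc
  have h1 : ∀ y : Y, B.card ≤ (X₀.filter fun x => T y x ∈ B).card := by
    intro y
    have hs : Set.SurjOn (T y) (X₀ : Set X) (X₀ : Set X) :=
      Finset.surjOn_of_injOn_of_card_le (T y) (fun x hx => hT y x hx) (hinj y) le_rfl
    have h2 : B ⊆ (X₀.filter fun x => T y x ∈ B).image (T y) := by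
      intro b hb
      obtain ⟨x, hx, hxb⟩ := hs (hB hb)
      rw [Finset.mem_image]
      refine ⟨x, ?_, hxb⟩
      rw [Finset.mem_filter]
      refine ⟨hx, ?_⟩
      rw [hxb]
      exact hb
    exact (Finset.card_le_card h2).trans Finset.card_image_le
  calc B.card * Fintype.card Y = ∑ _y : Y, B.card := by
        rw [Finset.sum_const, Finset.card_univ, smul_eq_mul, mul_comm]
    _ ≤ ∑ y : Y, (X₀.filter fun x => T y x ∈ B).card := Finset.sum_le_sum fun y _ => h1 y
    _ = ∑ y : Y, ∑ x ∈ X₀, if T y x ∈ B then 1 else 0 := by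
        refine Finset.sum_congr rfl fun y _ => ?_
        rw [Finset.card_filter]
    _ = ∑ x ∈ X₀, ∑ y : Y, if T y x ∈ B then 1 else 0 := Finset.sum_comm
    _ = ∑ x ∈ X₀, (Finset.univ.filter fun y => T y x ∈ B).card := by
        refine Finset.sum_congr rfl fun x _ => ?_
        rw [Finset.card_filter]
    _ ≤ ∑ _x ∈ X₀, c := Finset.sum_le_sum fun x hx => hc x hx
    _ = c * X₀.card := by rw [Finset.sum_const, smul_eq_mul, mul_comm]

end Pool.Agent.IntComm.Cst
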