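import Pool.Agent.Work.MP_584b0c_al.Cst.Stmts
import Pool.Agent.Work.MP_584b0c_al.Poly

set_option autoImplicit false

namespace Pool.Agent.IntComm.Cst

open Matrix Polynomial

namespace Final

theorem fam_facts {m : ℕ} {F : ℤ[X]} (h : Fam m F) :
    F.Monic ∧ F.natDegree = 2 * m ∧ IsUnit (F.coeff 0) := by
  obtain ⟨f, g, hf, hg, hfd, hgd, hf0, hg0, -, rfl⟩ := h
  refine ⟨hf.mul hg, ?_, ?_⟩
  · rw [hf.natDegree_mul hg, hfd, hgd]; ring
  · rw [mul_coeff_zero]; exact hf0.mul hg0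

/-- Rank bounds give kernel bounds. -/
theorem kb_of_rank (n r : ℕ) (C₁ : Matrix (Fin n) (Fin n) ℤ)
    (h : ∀ (p : ℕ) [Fact p.Prime] (μ : ZMod p),
      r ≤ (C₁.map (Int.castRingHom (ZMod p)) - Matrix.scalar (Fin n) μ).rank) :
    KB C₁ 2 (n - r) := by
  intro p _ a ha hd
  set M : Matrix (Fin n) (Fin n) (ZMod p) := C₁.map (Int.castRingHom (ZMod p)) with hM
  rcases Nat.lt_or_ge 0 a.natDegree with h1 | h1
  · -- degree one
    have h2 : a.natDegree = 1 := by omega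
    obtain ⟨c, d, hc, rfl⟩ : ∃ c d : ZMod p, c ≠ 0 ∧ a = C c * X + C d := by
      refine ⟨a.coeff 1, a.coeff 0, ?_, ?_⟩
      · rw [← h2]; exact leadingCoeff_ne_zero.2 ha
      · exact eq_X_add_C_of_natDegree_le_one (by omega)
    have h3 : aeval M (C c * X + C d : (ZMod p)[X]) =
        c • (M - Matrix.scalar (Fin n) (-(c⁻¹ * d))) := by
      rw [map_add, map_mul, aeval_C, aeval_C, aeval_X, smul_sub]
      rw [Algebra.algebraMap_eq_smul_one, Algebra.algebraMap_eq_smul_one, smul_mul_assoc, one_mul]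
      rw [show Matrix.scalar (Fin n) (-(c⁻¹ * d)) = (-(c⁻¹ * d)) • (1 : Matrix (Fin n) (Fin n) (ZMod p))
        from by rw [Matrix.smul_one_eq_diagonal]; rfl]
      rw [smul_smul, mul_neg, ← mul_assoc, mul_inv_cancel₀ hc, one_mul, neg_smul, sub_neg_eq_add]
    have h4 := h p (-(c⁻¹ * d))
    rw [← hM] at h4
    have h5 : LinearMap.ker (Matrix.toLin' (aeval M (C c * X + C d : (ZMod p)[X]))) =
        LinearMap.ker (Matrix.toLin' (M - Matrix.scalar (Fin n) (-(c⁻¹ * d)))) := by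
      rw [h3, map_smul, LinearMap.ker_smul _ _ hc]
    rw [h5]
    have h6 := LinearMap.finrank_range_add_finrank_ker
      (Matrix.toLin' (M - Matrix.scalar (Fin n) (-(c⁻¹ * d))))
    rw [Module.finrank_fintype_fun_eq_card, Fintype.card_fin] at h6
    have h7 : Module.finrank (ZMod p) (LinearMap.range
        (Matrix.toLin' (M - Matrix.scalar (Fin n) (-(c⁻¹ * d))))) =
        (M - Matrix.scalar (Fin n) (-(c⁻¹ * d))).rank := by
      rw [Matrix.rank, Matrix.toLin'_apply']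
    omega
  · have h2 : a.natDegree = 0 := by omega
    obtain ⟨c, rfl⟩ : ∃ c : ZMod p, a = C c := ⟨a.coeff 0, eq_C_of_natDegree_eq_zero h2⟩
    have hc : c ≠ 0 := by
      rintro rfl
      exact ha (by simp)
    have h5 : LinearMap.ker (Matrix.toLin' (aeval M (C c : (ZMod p)[X]))) = ⊥ := by
      rw [aeval_C, Algebra.algebraMap_eq_smul_one, map_smul, LinearMap.ker_smul _ _ hc,
        Matrix.toLin'_one, LinearMap.ker_id]
    rw [h5, finrank_bot]
    omega

end Final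

open Final in
theorem target3_of (hK3 : ClaimK3) (hV1 : ClaimV1) (hV2 : ClaimV2) (hV3 : ClaimV3)
    (hV4 : ClaimV4) (hV5 : ClaimV5) : Target3 := by
  obtain ⟨m₀, hm₀⟩ := claimPoly 93
  obtain ⟨m, hm⟩ : ∃ m, m = m₀ + 3 := ⟨_, rfl⟩
  obtain ⟨Fs, hFl, hF1, hF2, hF3⟩ := hm₀ m (by omega)
  obtain ⟨F₀, Fs', rfl⟩ : ∃ F₀ Fs', Fs = F₀ :: Fs' := by
    cases Fs with
    | nil => simp at hFl
    | cons a l => exact ⟨a, l, rfl⟩
  have hl' : Fs'.length = 92 := by simpa using hFl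
  obtain ⟨h0mon, h0deg, h0u⟩ := fam_facts (hF1 F₀ (by simp))
  have hX1 : (X - 1 : ℤ[X]).Monic := by simpa using monic_X_sub_C (1 : ℤ)
  have hprod : Fs'.prod.Monic := by
    have : ∀ l : List ℤ[X], (∀ F ∈ l, F.Monic) → l.prod.Monic := by
      intro l
      induction l with
      | nil => intro _; simp
      | cons a l ih =>
        intro h
        rw [List.prod_cons]
        exact (h a (by simp)).mul (ih fun F hF => h F (by simp [hF]))
    exact this Fs' fun F hF => (fam_facts (hF1 F (by simp [hF]))).1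
  rw [List.pairwise_cons] at hF2
  obtain ⟨P, hP⟩ : ∃ P : ℤ[X], P = F₀ * Fs'.prod * (X - 1) := ⟨_, rfl⟩
  have hPm : P.Monic := by rw [hP]; exact (h0mon.mul hprod).mul hX1
  obtain ⟨D₀, hD₀⟩ : ∃ D₀, D₀ = P.natDegree := ⟨_, rfl⟩
  refine ⟨10 * (D₀ + 200 * m + 10), fun n C hdet hrank => ?_⟩
  -- the rank is at most the size
  have hn : 10 * (D₀ + 200 * m + 10) ≤ n := by
    have : Fact (Nat.Prime 2) := ⟨Nat.prime_two⟩
    have h1 := hrank 2 0
    have h2 := Matrix.rank_le_card_width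
      (C.map (Int.castRingHom (ZMod 2)) - Matrix.scalar (Fin n) (0 : ZMod 2))
    rw [Fintype.card_fin] at h2
    omega
  have hKB := kb_of_rank n _ C hrank
  -- the parameters
  obtain ⟨x, hx⟩ : ∃ x, n = D₀ + 4 * m + m + 92 * (2 * m) + 1 + x :=
    ⟨n - (D₀ + 4 * m + m + 92 * (2 * m) + 1), by omega⟩
  obtain ⟨e, he⟩ : ∃ e, e = 1 + x % (2 * m) := ⟨_, rfl⟩
  obtain ⟨t, ht⟩ : ∃ t, t = x / (2 * m) := ⟨_, rfl⟩
  have hmod : x % (2 * m) < 2 * m := Nat.mod_lt _ (by omega)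
  have hdiv : 2 * m * (x / (2 * m)) + x % (2 * m) = x := Nat.div_add_mod x (2 * m)
  rw [← ht] at hdiv
  obtain ⟨N, hN⟩ : ∃ N, N = (t + Fs'.length) * (2 * m) + m := ⟨_, rfl⟩
  have hN' : N = t * (2 * m) + 92 * (2 * m) + m := by rw [hN, hl', add_mul]
  have hcomm : 2 * m * t = t * (2 * m) := by ring
  obtain ⟨n', hn'⟩ : ∃ n', n' = 2 * m + (2 * m + N) := ⟨_, rfl⟩
  obtain ⟨k₁, hk₁⟩ : ∃ k₁, k₁ = D₀ + e := ⟨_, rfl⟩
  have hnn : n = k₁ + n' := by omega
  subst hnn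
  -- the adjusting block
  obtain ⟨G₁, hG1, hG2, hG3, hG4⟩ := hV5 P hPm e (by omega)
  obtain ⟨X₁, hX₁⟩ := hV4 k₁ G₁ (by omega) hG1 (by rw [hG2, hk₁, hD₀]) hG3
  obtain ⟨S, hSdet, hSKB, hSL⟩ := hV3 n' k₁ _ C hKB (by omega)
  -- the second block
  obtain ⟨V, hV⟩ := hV1 n' (2 * m) _ S hSKB (by omega)
  obtain ⟨S₂, hS2det, hS2⟩ := hV2 n' (2 * m) N S V hn' hV
  obtain ⟨X₀, hX₀⟩ := hV4 (2 * m) F₀ (by omega) h0mon h0deg h0u
  obtain ⟨e', η, hLU⟩ := hK3 m N t Fs' (by omega) (by omega) hN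
    (fun F hF => hF1 F (by simp [hF])) hF2.2 (fun F hF => hF3 F (by simp [hF])) S₂
    (by rw [hS2det, hSdet, hdet])
  have hc0 : IsCoprime F₀ (Fs'.prod * (X - 1) ^ e') := by
    refine IsCoprime.mul_right ?_ (hF3 F₀ (by simp)).pow_right
    have : ∀ l : List ℤ[X], (∀ F ∈ l, IsCoprime F₀ F) → IsCoprime F₀ l.prod := by
      intro l
      induction l with
      | nil => intro _; simpa using isCoprime_one_right
      | cons a l ih =>
        intro h
        rw [List.prod_cons]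
        exact (h a (by simp)).mul_right (ih fun F hF => h F (by simp [hF]))
    exact this Fs' hF2.1
  have h1 := hS2 F₀ _ X₀ η hX₀ hc0 hLU
  rw [hP] at hG4
  have hc1 : IsCoprime G₁ (F₀ * (Fs'.prod * (X - 1) ^ e')) :=
    (hG4.of_mul_right_left.of_mul_right_left).mul_right
      ((hG4.of_mul_right_left.of_mul_right_right).mul_right hG4.of_mul_right_right.pow_right)
  exact (hSL G₁ _ X₁ hX₁ hc1 h1).isComm

end Pool.Agent.IntComm.Cst
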