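import Pool.Agent.Work.MP_584b0c_al.Cst.Stmts

set_option autoImplicit false

namespace Pool.Agent.IntComm.Cst

open Matrix Polynomial

namespace G1

section general

variable {A : Type} [CommRing A] {k N : ℕ}

/-- The determinant as a functional of its column `c`. -/
noncomputable def psi (D : Matrix (Fin N) (Fin N) A) (c : Fin N) : Fin N → A :=
  fun b => D.adjugate c b

theorem psi_dot (D : Matrix (Fin N) (Fin N) A) (c : Fin N) (x : Fin N → A) :
    psi D c ⬝ᵥ x = (D.updateCol c x).det := by
  rw [← Matrix.cramer_apply, Matrix.cramer_eq_adjugate_mulVec]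
  rfl

theorem psi_col (D : Matrix (Fin N) (Fin N) A) (c : Fin N) :
    psi D c ⬝ᵥ (fun i => D i c) = D.det := by
  rw [psi_dot]
  congr 1
  ext i j
  rw [Matrix.updateCol_apply]
  split_ifs with h
  · rw [h]
  · rfl

theorem psi_zero (D : Matrix (Fin N) (Fin N) A) (c c' : Fin N) (h : c' ≠ c) :
    psi D c ⬝ᵥ (fun i => D i c') = 0 := by
  rw [psi_dot]
  refine Matrix.det_zero_of_column_eq h fun i => ?_
  rw [Matrix.updateCol_apply, Matrix.updateCol_apply, if_neg h, if_pos rfl]

/-- The image of a determinant under a substitution moving one column. -/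
theorem det_move (M : Matrix (Fin N) (Fin N) A) (φ : A →+* A[X]) (j b : Fin N) (g : A)
    (h1 : ∀ c, c ≠ j → ∀ i, φ (M i c) = C (M i c))
    (h2 : ∀ i, φ (M i j) = C (M i j) + C g * X * (if i = b then 1 else 0)) :
    φ M.det = C M.det + C (g * (M.updateCol j (Pi.single b 1)).det) * X := by
  have e1 : φ.mapMatrix M = (C.mapMatrix M).updateCol j
      ((fun i => C (M i j)) + (C g * X) • (fun i => C ((Pi.single b (1 : A) : Fin N → A) i))) := by
    ext1 i c
    rw [Matrix.updateCol_apply]
    split_ifs with h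
    · subst h
      simp only [RingHom.mapMatrix_apply, Matrix.map_apply, Pi.add_apply, Pi.smul_apply,
        smul_eq_mul]
      rw [h2]
      congr 2
      rw [Pi.single_apply]
      split_ifs <;> simp
    · simp only [RingHom.mapMatrix_apply, Matrix.map_apply]
      exact h1 c h i
  have e2 : (C.mapMatrix M).updateCol j (fun i => C (M i j)) = C.mapMatrix M := by
    ext1 i c
    rw [Matrix.updateCol_apply]
    split_ifs with h
    · rw [h]; rfl
    · rfl
  have e3 : (C.mapMatrix M).updateCol j (fun i => C ((Pi.single b (1 : A) : Fin N → A) i)) =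
      C.mapMatrix (M.updateCol j (Pi.single b 1)) := by
    ext1 i c
    simp only [RingHom.mapMatrix_apply, Matrix.map_apply, Matrix.updateCol_apply]
    split_ifs <;> rfl
  rw [RingHom.map_det, e1, Matrix.det_updateCol_add, Matrix.det_updateCol_smul, e2, e3,
    ← RingHom.map_det, ← RingHom.map_det, C_mul]
  ring

end general

/-- Substitutions of the generic matrix. -/
theorem hom_exists (F : Type) [Field F] (k N : ℕ)
    (R' : Matrix (Fin N) (Fin k ⊕ Fin N) (MvPolynomial (Fin N × (Fin k ⊕ Fin N)) F)[X])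
    (h0 : ∀ i j, (R' i j).eval 0 = gen F k N i j) :
    ∃ φ : MvPolynomial (Fin N × (Fin k ⊕ Fin N)) F →+*
      (MvPolynomial (Fin N × (Fin k ⊕ Fin N)) F)[X],
      (∀ a, (φ a).eval 0 = a) ∧ (gen F k N).map φ = R' := by
  refine ⟨MvPolynomial.eval₂Hom (C.comp MvPolynomial.C) fun x => R' x.1 x.2, fun a => ?_, ?_⟩
  · have h : (evalRingHom (0 : MvPolynomial (Fin N × (Fin k ⊕ Fin N)) F)).comp
        (MvPolynomial.eval₂Hom (C.comp MvPolynomial.C) fun x => R' x.1 x.2) =
        RingHom.id _ := by
      refine MvPolynomial.ringHom_ext (fun r => ?_) fun x => ?_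
      · simp
      · simp [h0, gen]
    exact congrArg (fun f => f a) h
  · ext1 i j
    simp [gen]

/-- The substitution changing only `v_w`. -/
def Mv (F : Type) [Field F] (k N w : ℕ) (g : MvPolynomial (Fin N × (Fin k ⊕ Fin N)) F) : Prop :=
  ∀ b : Fin N, ∃ φ : MvPolynomial (Fin N × (Fin k ⊕ Fin N)) F →+*
      (MvPolynomial (Fin N × (Fin k ⊕ Fin N)) F)[X], (∀ a, (φ a).eval 0 = a) ∧
      (∀ a, a < w → ∀ i, φ (chain (gen F k N) a i) = C (chain (gen F k N) a i)) ∧
      ∀ i, φ (chain (gen F k N) w i) = C (chain (gen F k N) w i) +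
        C g * X * (if i = b then 1 else 0)

theorem mv_lt (hA0 : ClaimChain) (F : Type) [Field F] (k N w : ℕ) (hw : w < k) :
    Mv F k N w 1 := by
  obtain ⟨-, -, hmap, -, hcol⟩ := hA0
  intro b
  obtain ⟨φ, h1, h2⟩ := hom_exists F k N (moveCol ((gen F k N).map C)
    (fun i => if i = b then X else 0) w) (by
      intro i j
      rcases j with j | j
      · simp only [moveCol, Matrix.add_apply, Matrix.map_apply, Matrix.fromCols_apply_inl,
          Matrix.of_apply]
        split_ifs <;> simp
      · simp [moveCol])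
  obtain ⟨h3, h4⟩ := hcol _ k N ((gen F k N).map C) (fun i => if i = b then X else 0) w hw
  refine ⟨φ, h1, fun a ha i => ?_, fun i => ?_⟩
  · rw [← hmap, h2, h3 a ha, hmap]
  · rw [← hmap, h2, h4]
    simp only [Pi.add_apply]
    rw [hmap]
    congr 1
    split_ifs <;> simp

theorem mv_ge (hA0 : ClaimChain) (F : Type) [Field F] (k N w : ℕ) (hk : 0 < k) (hw : w < N)
    (I : Fin N → Fin N) : Mv F k N (w + k) (dmat (gen F k N) (w + 1) I).det := by
  obtain ⟨-, -, hmap, hmove, -⟩ := hA0
  intro b
  set D := dmat (gen F k N) (w + 1) I with hD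
  set ψ := psi D ⟨w, hw⟩ with hψ
  obtain ⟨φ, h1, h2⟩ := hom_exists F k N (move ((gen F k N).map C)
    (fun i => if i = b then X else 0) (fun i => C (ψ i))) (by
      intro i j
      rcases j with j | j
      · simp [move]
      · simp only [move, Matrix.add_apply, Matrix.map_apply, Matrix.fromCols_apply_inr,
          Matrix.vecMulVec_apply]
        split_ifs <;> simp)
  have hdot : ∀ a, (fun i => C (ψ i)) ⬝ᵥ chain ((gen F k N).map C) a =
      C (ψ ⬝ᵥ chain (gen F k N) a) := by
    intro a
    unfold dotProduct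
    rw [map_sum]
    refine Finset.sum_congr rfl fun i _ => ?_
    rw [hmap, C_mul]
  have hcolD : ∀ a (ha : a < N), a < w + 1 → (fun i => D i ⟨a, ha⟩) = chain (gen F k N) a := by
    intro a ha haw
    funext i
    simp only [hD, dmat, Matrix.of_apply]
    rw [if_pos haw]
  obtain ⟨h3, h4⟩ := hmove _ k N ((gen F k N).map C) (fun i => if i = b then X else 0)
    (fun i => C (ψ i)) w hk (by
      intro a ha
      rw [hdot, ← hcolD a (by omega) (by omega), hψ, psi_zero, C_0]
      intro hc
      have := congrArg Fin.val hc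
      simp only at this
      omega)
  refine ⟨φ, h1, fun a ha i => ?_, fun i => ?_⟩
  · rw [← hmap, h2, h3 a ha, hmap]
  · rw [← hmap, h2, h4, hdot, ← hcolD w hw (by omega), hψ, psi_col]
    simp only [Pi.add_apply, Pi.smul_apply, smul_eq_mul]
    rw [hmap, mul_assoc]
    congr 2
    split_ifs <;> simp

theorem step (hA0 : ClaimChain) (hG0 : ClaimMove) (F : Type) [Field F] (k N w : ℕ)
    (hw : w + 2 ≤ N) (h g : MvPolynomial (Fin N × (Fin k ⊕ Fin N)) F) (hh : Prime h)
    (hg : ¬ h ∣ g) (hM : Mv F k N w g) (I : Fin N → Fin N)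
    (hI : ¬ h ∣ (dmat (gen F k N) w I).det) :
    ∃ I' : Fin N → Fin N, ¬ h ∣ (dmat (gen F k N) (w + 1) I').det := by
  by_contra hcon
  push Not at hcon
  set R := gen F k N with hR
  set w0 : Fin N := ⟨w, by omega⟩ with hw0
  set w1 : Fin N := ⟨w + 1, by omega⟩ with hw1
  have hne : w1 ≠ w0 := by
    intro hc
    have := congrArg Fin.val hc
    simp only [hw0, hw1] at this
    omega
  set δ := (dmat R w I).det with hδ
  -- the effect of the substitutions
  have hcol : ∀ (J : Fin N → Fin N) (b : Fin N) (φ : MvPolynomial (Fin N × (Fin k ⊕ Fin N)) F →+*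
      (MvPolynomial (Fin N × (Fin k ⊕ Fin N)) F)[X]),
      (∀ a, a < w → ∀ i, φ (chain R a i) = C (chain R a i)) →
      (∀ i, φ (chain R w i) = C (chain R w i) + C g * X * (if i = b then 1 else 0)) →
      φ (dmat R (w + 1) J).det = C (dmat R (w + 1) J).det +
        C (g * ((dmat R (w + 1) J).updateCol w0 (Pi.single b 1)).det) * X := by
    intro J b φ h2 h3
    refine det_move _ φ w0 b g (fun c hc i => ?_) fun i => ?_
    · simp only [dmat, Matrix.of_apply]
      split_ifs with ha hb
      · refine h2 _ ?_ i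
        have : c.val ≠ w := fun hc' => hc (Fin.ext hc')
        omega
      · simp
      · simp
    · simp only [dmat, Matrix.of_apply, hw0]
      rw [if_pos (Nat.lt_succ_self w)]
      exact h3 i
  set I₂ : Fin N → Fin N := I ∘ (Equiv.swap w0 w1) with hI₂
  -- determinants after the substitution
  have hd1 : (dmat R (w + 1) I).updateCol w0 (Pi.single (I w0) 1) = dmat R w I := by
    ext1 i c
    rw [Matrix.updateCol_apply]
    split_ifs with hc
    · subst hc
      simp only [dmat, Matrix.of_apply, hw0, lt_irrefl, if_false, Pi.single_apply]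
    · have : c.val ≠ w := fun hc' => hc (Fin.ext hc')
      simp only [dmat, Matrix.of_apply]
      by_cases h1 : c.val < w
      · rw [if_pos h1, if_pos (by omega)]
      · rw [if_neg h1, if_neg (by omega)]
  have hd2 : ((dmat R (w + 1) I₂).updateCol w0 (Pi.single (I w0) 1)).det = 0 := by
    refine Matrix.det_zero_of_column_eq (Ne.symm hne) fun i => ?_
    rw [Matrix.updateCol_apply, Matrix.updateCol_apply, if_pos rfl, if_neg hne]
    simp only [dmat, Matrix.of_apply, hw1, lt_irrefl, if_false, Pi.single_apply, hI₂,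
      Function.comp_apply]
    rw [show (⟨w + 1, by omega⟩ : Fin N) = w1 from rfl, Equiv.swap_apply_right]
  have hd3 : ((dmat R (w + 1) I₂).updateCol w0 (Pi.single (I w1) 1)).det = -δ := by
    have e1 : (dmat R (w + 1) I₂).updateCol w0 (Pi.single (I w1) 1) =
        (dmat R w I).submatrix id (Equiv.swap w0 w1) := by
      ext1 i c
      rw [Matrix.updateCol_apply, Matrix.submatrix_apply, id]
      by_cases hc0 : c = w0
      · subst hc0
        rw [if_pos rfl, Equiv.swap_apply_left]
        have hlt : ¬ (w + 1 < w) := by omega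
        simp only [dmat, Matrix.of_apply, hw1, Pi.single_apply, hlt, if_false]
      · rw [if_neg hc0]
        by_cases hc1 : c = w1
        · subst hc1
          rw [Equiv.swap_apply_right]
          simp only [dmat, Matrix.of_apply, hI₂, Function.comp_apply]
          rw [Equiv.swap_apply_right, hw1, hw0]
          simp only [lt_irrefl, if_false]
        · rw [Equiv.swap_apply_of_ne_of_ne hc0 hc1]
          simp only [dmat, Matrix.of_apply, hI₂, Function.comp_apply]
          rw [Equiv.swap_apply_of_ne_of_ne hc0 hc1]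
          have : c.val ≠ w := fun hc' => hc0 (Fin.ext hc')
          by_cases h1 : c.val < w
          · rw [if_pos h1, if_pos (by omega)]
          · rw [if_neg h1, if_neg (by omega)]
    rw [e1, Matrix.det_permute', Equiv.Perm.sign_swap hne.symm]
    simp [hδ]
  have hg0 : g ≠ 0 := fun h0 => hg (h0 ▸ dvd_zero h)
  have hδ0 : δ ≠ 0 := fun h0 => hI (h0 ▸ dvd_zero h)
  -- the second determinant is not zero
  have hP' : (dmat R (w + 1) I₂).det ≠ 0 := by
    intro h0
    obtain ⟨φ, -, h2, h3⟩ := hM (I w1)
    have e := hcol I₂ (I w1) φ h2 h3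
    rw [hd3, h0, map_zero, C_0, zero_add] at e
    have e' := congrArg (fun q => q.coeff 1) e
    simp only [coeff_zero, coeff_C_mul, coeff_X_one, mul_one] at e'
    exact mul_ne_zero hg0 (neg_ne_zero.2 hδ0) e'.symm
  obtain ⟨φ, h1, h2, h3⟩ := hM (I w0)
  have e1 := hcol I (I w0) φ h2 h3
  have e2 := hcol I₂ (I w0) φ h2 h3
  rw [hd1, ← hδ] at e1
  rw [hd2, mul_zero, C_0, zero_mul, add_zero] at e2
  have e3 := hG0 _ φ h1 h _ _ _ hh hP' e2 e1 (hcon I) (hcon I₂)
  rcases hh.dvd_or_dvd e3 with h4 | h4
  · exact hg h4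
  · exact hI h4

end G1

theorem claimG1 (hA0 : ClaimChain) (hG0 : ClaimMove) : ClaimG1 := by
  intro F _ k N w hk
  induction w using Nat.strong_induction_on with
  | _ w ih =>
    intro hw h hh
    rcases Nat.eq_zero_or_pos w with rfl | hpos
    · refine ⟨id, fun hd => hh.not_unit ?_⟩
      have e1 : dmat (gen F k N) 0 id = 1 := by
        ext1 i j
        simp [dmat, Matrix.one_apply]
      rw [e1, Matrix.det_one] at hd
      exact isUnit_of_dvd_one hd
    · obtain ⟨v, rfl⟩ := Nat.exists_eq_add_of_le' hpos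
      obtain ⟨I, hI⟩ := ih v (by omega) (by omega) h hh
      rcases lt_or_ge v k with hvk | hvk
      · exact G1.step hA0 hG0 F k N v (by omega) h 1 hh
          (fun hd => hh.not_unit (isUnit_of_dvd_one hd)) (G1.mv_lt hA0 F k N v hvk) I hI
      · obtain ⟨u, rfl⟩ := Nat.exists_eq_add_of_le' hvk
        obtain ⟨I', hI'⟩ := ih (u + 1) (by omega) (by omega) h hh
        exact G1.step hA0 hG0 F k N (u + k) (by omega) h _ hh hI'
          (G1.mv_ge hA0 F k N u hk (by omega) I') I hI

end Pool.Agent.IntComm.Cst
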