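import Pool.Agent.Work.MP_584b0c_al.Cst.G1

set_option autoImplicit false

namespace Pool.Agent.IntComm.Cst

open Matrix Polynomial

theorem claimG2 (hA0 : ClaimChain) (hG0 : ClaimMove) (hG1 : ClaimG1) : ClaimG2 := by
  intro F _ k N hk2 hkN h hh
  by_contra hcon
  push Not at hcon
  set R := gen F k N with hR
  have hk : 0 < k := by omega
  set L : Fin N := ⟨N - 1, by omega⟩ with hL
  obtain ⟨I, hI⟩ := hG1 F k N (N - 1) hk (by omega) h hh
  set δ := (dmat R (N - 1) I).det with hδ
  have hδ0 : δ ≠ 0 := fun h0 => hI (h0 ▸ dvd_zero h)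
  set M : ℕ → Matrix (Fin N) (Fin N) (MvPolynomial (Fin N × (Fin k ⊕ Fin N)) F) :=
    fun b => kmat R fun a => if a.val + 1 = N then b else a.val with hM
  have hlast : ∀ c : Fin N, c ≠ L → c.val + 1 ≠ N := by
    intro c hc hc'
    refine hc (Fin.ext ?_)
    simp only [hL]
    omega
  have hLN : L.val + 1 = N := by
    simp only [hL]
    omega
  have hupd : ∀ b, (M b).updateCol L (Pi.single (I L) 1) = dmat R (N - 1) I := by
    intro b
    ext1 i c
    rw [Matrix.updateCol_apply]
    split_ifs with hc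
    · subst hc
      have h1 : ¬ (L.val < N - 1) := by omega
      simp only [dmat, Matrix.of_apply, h1, if_false, Pi.single_apply]
    · have h1 := hlast c hc
      have h2 : c.val < N - 1 := by
        have := c.2
        omega
      simp only [hM, kmat, dmat, Matrix.of_apply, h1, h2, if_false, if_true]
  -- the effect of a substitution changing only `v_b`
  have hmv : ∀ (w b : ℕ) (g : MvPolynomial (Fin N × (Fin k ⊕ Fin N)) F)
      (φ : MvPolynomial (Fin N × (Fin k ⊕ Fin N)) F →+*
        (MvPolynomial (Fin N × (Fin k ⊕ Fin N)) F)[X]), b = w → N - 1 ≤ w →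
      (∀ a, a < w → ∀ i, φ (chain R a i) = C (chain R a i)) →
      (∀ i, φ (chain R w i) = C (chain R w i) + C g * X * (if i = I L then 1 else 0)) →
      φ (M b).det = C (M b).det + C (g * δ) * X := by
    intro w b g φ hbw hNw h1 h2
    subst hbw
    rw [hδ, ← hupd b]
    refine G1.det_move (M b) φ L (I L) g (fun c hc i => ?_) fun i => ?_
    · have h3 := hlast c hc
      simp only [hM, kmat, Matrix.of_apply, h3, if_false]
      refine h1 _ ?_ i
      have := c.2
      omega
    · simp only [hM, kmat, Matrix.of_apply, hLN, if_true]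
      exact h2 i
  -- the first determinant is not zero
  have hQ1 : (M (N - 1)).det ≠ 0 := by
    obtain ⟨g, hg, hm⟩ : ∃ g, ¬ h ∣ g ∧ G1.Mv F k N (N - 1) g := by
      rcases Nat.lt_or_ge (N - 1) k with h1 | h1
      · exact ⟨1, fun hd => hh.not_unit (isUnit_of_dvd_one hd), G1.mv_lt hA0 F k N (N - 1) h1⟩
      · obtain ⟨I', hI'⟩ := hG1 F k N (N - k) hk (by omega) h hh
        refine ⟨_, hI', ?_⟩
        have h2 := G1.mv_ge hA0 F k N (N - 1 - k) hk (by omega) I'
        rw [show N - 1 - k + k = N - 1 by omega, show N - 1 - k + 1 = N - k by omega] at h2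
        exact h2
    intro h0
    obtain ⟨φ, -, h2, h3⟩ := hm (I L)
    have e := hmv (N - 1) (N - 1) g φ rfl le_rfl h2 h3
    rw [h0, map_zero, C_0, zero_add] at e
    have e' := congrArg (fun q => q.coeff 1) e
    simp only [coeff_zero, coeff_C_mul, coeff_X_one, mul_one] at e'
    have hg0 : g ≠ 0 := fun hg0 => hg (hg0 ▸ dvd_zero h)
    exact mul_ne_zero hg0 hδ0 e'.symm
  obtain ⟨I', hI'⟩ := hG1 F k N (N - k + 1) hk (by omega) h hh
  have hm := G1.mv_ge hA0 F k N (N - k) hk (by omega) I'
  rw [show N - k + k = N by omega] at hm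
  obtain ⟨φ, h1, h2, h3⟩ := hm (I L)
  have e1 := hmv N N _ φ rfl (by omega) h2 h3
  have e2 : φ (M (N - 1)).det = C (M (N - 1)).det := by
    have e3 : φ.mapMatrix (M (N - 1)) = C.mapMatrix (M (N - 1)) := by
      ext1 i c
      simp only [RingHom.mapMatrix_apply, Matrix.map_apply]
      simp only [hM, kmat, Matrix.of_apply]
      refine h2 _ ?_ i
      have := c.2
      split_ifs <;> omega
    rw [RingHom.map_det, e3, ← RingHom.map_det]
  have e3 := hG0 _ φ h1 h _ _ _ hh hQ1 e2 e1 (hcon N (Or.inr rfl))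
    (hcon (N - 1) (Or.inl (by omega)))
  rcases hh.dvd_or_dvd e3 with h4 | h4
  · exact hI' h4
  · exact hI h4

end Pool.Agent.IntComm.Cst
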