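import Pool.Agent.Work.MP_584b0c_al.Cst.Stmts

set_option autoImplicit false

/-!
K1: two matrices with the same last rows that agree on the kernel of these rows.
-/

namespace Pool.Agent.IntComm.Cst

open Matrix Polynomial

theorem claimK1 : ClaimK1 := by
  intro κ ρ _ _ _ _ X W Z h2 hZ hker
  set Wm : Matrix (κ ⊕ ρ) (κ ⊕ ρ) ℤ := (W : Matrix (κ ⊕ ρ) (κ ⊕ ρ) ℤ) with hWm
  set Wi : Matrix (κ ⊕ ρ) (κ ⊕ ρ) ℤ :=
    ((W⁻¹ : (Matrix (κ ⊕ ρ) (κ ⊕ ρ) ℤ)ˣ) : Matrix (κ ⊕ ρ) (κ ⊕ ρ) ℤ) with hWi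
  have h1 : Wm * Wi = 1 := W.mul_inv
  have h1' : Wi * Wm = 1 := W.inv_mul
  have hX : X = (X * Wi) * Wm := by rw [Matrix.mul_assoc, h1', Matrix.mul_one]
  have hrow : ∀ (i : ρ) (j : κ ⊕ ρ), (X * Wi) (Sum.inr i) j =
      (1 : Matrix (κ ⊕ ρ) (κ ⊕ ρ) ℤ) (Sum.inr i) j := by
    intro i j
    rw [← h1, Matrix.mul_apply, Matrix.mul_apply]
    refine Finset.sum_congr rfl fun l _ => ?_
    have : X.toRows₂ i l = Wm.toRows₂ i l := by rw [h2]
    rw [show X (Sum.inr i) l = Wm (Sum.inr i) l from this]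
  have hcol : ∀ (i j : κ), (X * Wi) (Sum.inl i) (Sum.inl j) =
      (1 : Matrix κ κ ℤ) i j := by
    intro i j
    have hx : Wm.toRows₂.mulVec (fun l => Wi l (Sum.inl j)) = 0 := by
      funext l
      have : (Wm * Wi) (Sum.inr l) (Sum.inl j) = 0 := by rw [h1]; simp
      exact this
    obtain ⟨y, hy⟩ := hker _ hx
    have h3 : X.mulVec (fun l => Wi l (Sum.inl j)) = Wm.mulVec (fun l => Wi l (Sum.inl j)) := by
      rw [hy, Matrix.mulVec_mulVec, Matrix.mulVec_mulVec, hZ]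
    have h4 : (X * Wi) (Sum.inl i) (Sum.inl j) = (Wm * Wi) (Sum.inl i) (Sum.inl j) :=
      congrFun h3 (Sum.inl i)
    rw [h4, h1]
    by_cases hij : i = j
    · subst hij; simp
    · rw [Matrix.one_apply_ne hij, Matrix.one_apply_ne (fun h => hij (Sum.inl_injective h))]
  refine ⟨(X * Wi).toBlocks₁₂, ?_⟩
  have hY : X * Wi = fromBlocks 1 (X * Wi).toBlocks₁₂ 0 1 := by
    ext i j
    rcases i with i | i <;> rcases j with j | j
    · rw [fromBlocks_apply₁₁, hcol]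
    · rw [fromBlocks_apply₁₂]; rfl
    · rw [fromBlocks_apply₂₁, hrow]; simp
    · rw [fromBlocks_apply₂₂, hrow]
      by_cases hij : i = j
      · subst hij; simp
      · rw [Matrix.one_apply_ne hij, Matrix.one_apply_ne (fun h => hij (Sum.inr_injective h))]
  rw [← hY]
  exact hX

end Pool.Agent.IntComm.Cst
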