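import Pool.Agent.Work.MP_584b0c_al.Cst.Stmts

set_option autoImplicit false

namespace Pool.Agent.IntComm.Cst

open Matrix Polynomial

namespace K2

section

variable {κ ρ : Type} [Fintype κ] [DecidableEq κ] [Fintype ρ] [DecidableEq ρ]

/-- Block upper triangular unit. -/
def tri (T₁ : (Matrix κ κ ℤ)ˣ) (T₁₂ : Matrix κ ρ ℤ) (T₂ : (Matrix ρ ρ ℤ)ˣ) :
    (Matrix (κ ⊕ ρ) (κ ⊕ ρ) ℤ)ˣ where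
  val := fromBlocks (T₁ : Matrix κ κ ℤ) T₁₂ 0 (T₂ : Matrix ρ ρ ℤ)
  inv := fromBlocks ((T₁⁻¹ : (Matrix κ κ ℤ)ˣ) : Matrix κ κ ℤ)
    (-(((T₁⁻¹ : (Matrix κ κ ℤ)ˣ) : Matrix κ κ ℤ) * T₁₂ *
      ((T₂⁻¹ : (Matrix ρ ρ ℤ)ˣ) : Matrix ρ ρ ℤ))) 0 ((T₂⁻¹ : (Matrix ρ ρ ℤ)ˣ) : Matrix ρ ρ ℤ)
  val_inv := by
    rw [fromBlocks_multiply]
    simp only [Matrix.mul_zero, Matrix.zero_mul, add_zero, zero_add, Units.mul_inv]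
    have : (T₁ : Matrix κ κ ℤ) * -(((T₁⁻¹ : (Matrix κ κ ℤ)ˣ) : Matrix κ κ ℤ) * T₁₂ *
      ((T₂⁻¹ : (Matrix ρ ρ ℤ)ˣ) : Matrix ρ ρ ℤ)) +
      T₁₂ * ((T₂⁻¹ : (Matrix ρ ρ ℤ)ˣ) : Matrix ρ ρ ℤ) = 0 := by
      rw [Matrix.mul_neg, ← Matrix.mul_assoc, ← Matrix.mul_assoc, Units.mul_inv, Matrix.one_mul]
      simp
    rw [this, fromBlocks_one]
  inv_val := by
    rw [fromBlocks_multiply]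
    simp only [Matrix.mul_zero, Matrix.zero_mul, add_zero, zero_add, Units.inv_mul]
    have : ((T₁⁻¹ : (Matrix κ κ ℤ)ˣ) : Matrix κ κ ℤ) * T₁₂ +
      -(((T₁⁻¹ : (Matrix κ κ ℤ)ˣ) : Matrix κ κ ℤ) * T₁₂ *
      ((T₂⁻¹ : (Matrix ρ ρ ℤ)ˣ) : Matrix ρ ρ ℤ)) * (T₂ : Matrix ρ ρ ℤ) = 0 := by
      rw [Matrix.neg_mul, Matrix.mul_assoc (_ * T₁₂), Units.inv_mul, Matrix.mul_one]
      simp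
    rw [this, fromBlocks_one]

theorem tri_val (T₁ : (Matrix κ κ ℤ)ˣ) (T₁₂ : Matrix κ ρ ℤ) (T₂ : (Matrix ρ ρ ℤ)ˣ) :
    (tri T₁ T₁₂ T₂ : Matrix (κ ⊕ ρ) (κ ⊕ ρ) ℤ) =
      fromBlocks (T₁ : Matrix κ κ ℤ) T₁₂ 0 (T₂ : Matrix ρ ρ ℤ) := rfl

/-- The projection to the last coordinates. -/
def pr (κ ρ : Type) [DecidableEq ρ] : Matrix ρ (κ ⊕ ρ) ℤ := fromCols 0 1

theorem pr_mul (M : Matrix (κ ⊕ ρ) (κ ⊕ ρ) ℤ) : pr κ ρ * M = M.toRows₂ := by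
  have h : pr κ ρ * fromRows M.toRows₁ M.toRows₂ = M.toRows₂ := by
    unfold pr
    rw [fromCols_mul_fromRows, Matrix.zero_mul, zero_add, Matrix.one_mul]
  rw [fromRows_toRows] at h
  exact h

theorem pr_tri (T₁ : (Matrix κ κ ℤ)ˣ) (T₁₂ : Matrix κ ρ ℤ) (T₂ : (Matrix ρ ρ ℤ)ˣ) :
    pr κ ρ * (tri T₁ T₁₂ T₂ : Matrix (κ ⊕ ρ) (κ ⊕ ρ) ℤ) = (T₂ : Matrix ρ ρ ℤ) * pr κ ρ := by
  rw [tri_val]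
  unfold pr
  rw [fromCols_mul_fromBlocks, mul_fromCols]
  simp

theorem pr_rows (r₀ : Matrix ρ (κ ⊕ ρ) ℤ) (Θ : Matrix κ (κ ⊕ ρ) ℤ) :
    pr κ ρ * (fromRows Θ r₀ : Matrix (κ ⊕ ρ) (κ ⊕ ρ) ℤ) = r₀ := by
  rw [pr_mul, toRows₂_fromRows]

theorem comp_eq (r₀ : Matrix ρ (κ ⊕ ρ) ℤ) (z₀ : Matrix (κ ⊕ ρ) κ ℤ) (Y : Matrix κ (κ ⊕ ρ) ℤ)
    (L : Matrix (κ ⊕ ρ) ρ ℤ) (h5 : z₀ * Y + L * r₀ = 1) (Ψ : Matrix κ (κ ⊕ ρ) ℤ) :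
    fromRows Ψ r₀ = fromBlocks (Ψ * z₀) (Ψ * L) 0 1 * fromRows Y r₀ := by
  rw [fromBlocks_mul_fromRows]
  rw [Matrix.zero_mul, zero_add, Matrix.one_mul, Matrix.mul_assoc, Matrix.mul_assoc,
    ← Matrix.mul_add, h5, Matrix.mul_one]

theorem det_comp (r₀ : Matrix ρ (κ ⊕ ρ) ℤ) (z₀ : Matrix (κ ⊕ ρ) κ ℤ) (Y : Matrix κ (κ ⊕ ρ) ℤ)
    (L : Matrix (κ ⊕ ρ) ρ ℤ) (h5 : z₀ * Y + L * r₀ = 1) (Ψ : Matrix κ (κ ⊕ ρ) ℤ) :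
    (fromRows Ψ r₀ : Matrix (κ ⊕ ρ) (κ ⊕ ρ) ℤ).det =
      (Ψ * z₀).det * (fromRows Y r₀ : Matrix (κ ⊕ ρ) (κ ⊕ ρ) ℤ).det := by
  rw [comp_eq r₀ z₀ Y L h5 Ψ, Matrix.det_mul, Matrix.det_fromBlocks_zero₂₁, Matrix.det_one,
    mul_one]

theorem det_Y (r₀ : Matrix ρ (κ ⊕ ρ) ℤ) (z₀ : Matrix (κ ⊕ ρ) κ ℤ) (Y : Matrix κ (κ ⊕ ρ) ℤ)
    (L : Matrix (κ ⊕ ρ) ρ ℤ) (h5 : z₀ * Y + L * r₀ = 1) :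
    IsUnit (fromRows Y r₀ : Matrix (κ ⊕ ρ) (κ ⊕ ρ) ℤ).det := by
  have h : (fromCols z₀ L : Matrix (κ ⊕ ρ) (κ ⊕ ρ) ℤ) * fromRows Y r₀ = 1 := by
    rw [fromCols_mul_fromRows, h5]
  have h' := congrArg Matrix.det h
  rw [Matrix.det_mul, Matrix.det_one] at h'
  exact IsUnit.of_mul_eq_one _ (by rw [mul_comm]; exact h')

theorem abs (hK1 : ClaimK1) (r₀ : Matrix ρ (κ ⊕ ρ) ℤ) (z₀ : Matrix (κ ⊕ ρ) κ ℤ)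
    (Y : Matrix κ (κ ⊕ ρ) ℤ) (L : Matrix (κ ⊕ ρ) ρ ℤ) (h1 : r₀ * z₀ = 0) (h2 : Y * z₀ = 1)
    (h5 : z₀ * Y + L * r₀ = 1) (S : (Matrix (κ ⊕ ρ) (κ ⊕ ρ) ℤ)ˣ)
    (hS : (S : Matrix (κ ⊕ ρ) (κ ⊕ ρ) ℤ).det = 1) (R : Matrix ρ (κ ⊕ ρ) ℤ)
    (T₁ T₁' : (Matrix κ κ ℤ)ˣ) (T₁₂ T₁₂' : Matrix κ ρ ℤ) (T₂ T₂' : (Matrix ρ ρ ℤ)ˣ)
    (hR : R * (tri T₁ T₁₂ T₂ : Matrix (κ ⊕ ρ) (κ ⊕ ρ) ℤ) = (T₂ : Matrix ρ ρ ℤ) * r₀)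
    (hR' : (R * ((S⁻¹ : (Matrix (κ ⊕ ρ) (κ ⊕ ρ) ℤ)ˣ) : Matrix (κ ⊕ ρ) (κ ⊕ ρ) ℤ)) *
      (tri T₁' T₁₂' T₂' : Matrix (κ ⊕ ρ) (κ ⊕ ρ) ℤ) = (T₂' : Matrix ρ ρ ℤ) * r₀) :
    ∃ h g : (Matrix κ κ ℤ)ˣ, (h : Matrix κ κ ℤ).det * (g : Matrix κ κ ℤ).det = 1 ∧
      ∀ Φ Ψ : Matrix κ (κ ⊕ ρ) ℤ, IsUnit (Ψ * z₀).det →
        Φ * z₀ = (h : Matrix κ κ ℤ) * (Ψ * z₀) * (g : Matrix κ κ ℤ) →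
        ∃ (η : Matrix κ ρ ℤ) (X₁ Y₁ : (Matrix (κ ⊕ ρ) (κ ⊕ ρ) ℤ)ˣ),
          (X₁ : Matrix (κ ⊕ ρ) (κ ⊕ ρ) ℤ) = (tri T₁ T₁₂ T₂ : Matrix (κ ⊕ ρ) (κ ⊕ ρ) ℤ) *
            fromRows Φ r₀ * (((tri T₁ T₁₂ T₂)⁻¹ : (Matrix (κ ⊕ ρ) (κ ⊕ ρ) ℤ)ˣ) :
              Matrix (κ ⊕ ρ) (κ ⊕ ρ) ℤ) ∧
          (Y₁ : Matrix (κ ⊕ ρ) (κ ⊕ ρ) ℤ) = (tri T₁' T₁₂' T₂' : Matrix (κ ⊕ ρ) (κ ⊕ ρ) ℤ) *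
            fromRows Ψ r₀ * (((tri T₁' T₁₂' T₂')⁻¹ : (Matrix (κ ⊕ ρ) (κ ⊕ ρ) ℤ)ˣ) :
              Matrix (κ ⊕ ρ) (κ ⊕ ρ) ℤ) ∧
          (X₁ : Matrix (κ ⊕ ρ) (κ ⊕ ρ) ℤ) = fromBlocks 1 η 0 1 *
            ((Y₁ * S : (Matrix (κ ⊕ ρ) (κ ⊕ ρ) ℤ)ˣ) : Matrix (κ ⊕ ρ) (κ ⊕ ρ) ℤ) := by
  set TT := tri T₁ T₁₂ T₂ with hTT
  set TT' := tri T₁' T₁₂' T₂' with hTT'
  -- abbreviations
  have kerP : ∀ {μ : Type} [Fintype μ] (x : Matrix (κ ⊕ ρ) μ ℤ), r₀ * x = 0 → x = z₀ * (Y * x) := by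
    intro μ _ x hx
    calc x = (z₀ * Y + L * r₀) * x := by rw [h5, Matrix.one_mul]
      _ = z₀ * (Y * x) := by
        rw [Matrix.add_mul, Matrix.mul_assoc, Matrix.mul_assoc, hx, Matrix.mul_zero, add_zero]
  -- rows of R through TT
  have hRr : ∀ {μ : Type} [Fintype μ] (x : Matrix (κ ⊕ ρ) μ ℤ),
      R * ((TT : Matrix (κ ⊕ ρ) (κ ⊕ ρ) ℤ) * x) = (T₂ : Matrix ρ ρ ℤ) * (r₀ * x) := by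
    intro μ _ x
    rw [← Matrix.mul_assoc, hR, Matrix.mul_assoc]
  have hr₀ : ∀ {μ : Type} [Fintype μ] (x : Matrix (κ ⊕ ρ) μ ℤ), R * x = 0 →
      r₀ * (((TT⁻¹ : (Matrix (κ ⊕ ρ) (κ ⊕ ρ) ℤ)ˣ) : Matrix (κ ⊕ ρ) (κ ⊕ ρ) ℤ) * x) = 0 := by
    intro μ _ x hx
    have e1 := hRr (((TT⁻¹ : (Matrix (κ ⊕ ρ) (κ ⊕ ρ) ℤ)ˣ) : Matrix (κ ⊕ ρ) (κ ⊕ ρ) ℤ) * x)
    rw [← Matrix.mul_assoc (TT : Matrix (κ ⊕ ρ) (κ ⊕ ρ) ℤ), Units.mul_inv, Matrix.one_mul, hx] at e1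
    have e2 := congrArg (fun M => ((T₂⁻¹ : (Matrix ρ ρ ℤ)ˣ) : Matrix ρ ρ ℤ) * M) e1
    simp only [Matrix.mul_zero] at e2
    rw [← Matrix.mul_assoc, Units.inv_mul, Matrix.one_mul] at e2
    exact e2.symm
  have hr₀' : ∀ {μ : Type} [Fintype μ] (x : Matrix (κ ⊕ ρ) μ ℤ),
      (R * ((S⁻¹ : (Matrix (κ ⊕ ρ) (κ ⊕ ρ) ℤ)ˣ) : Matrix (κ ⊕ ρ) (κ ⊕ ρ) ℤ)) * x = 0 →
      r₀ * (((TT'⁻¹ : (Matrix (κ ⊕ ρ) (κ ⊕ ρ) ℤ)ˣ) : Matrix (κ ⊕ ρ) (κ ⊕ ρ) ℤ) * x) = 0 := by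
    intro μ _ x hx
    have e1 : (R * ((S⁻¹ : (Matrix (κ ⊕ ρ) (κ ⊕ ρ) ℤ)ˣ) : Matrix (κ ⊕ ρ) (κ ⊕ ρ) ℤ)) *
        ((TT' : Matrix (κ ⊕ ρ) (κ ⊕ ρ) ℤ) *
          (((TT'⁻¹ : (Matrix (κ ⊕ ρ) (κ ⊕ ρ) ℤ)ˣ) : Matrix (κ ⊕ ρ) (κ ⊕ ρ) ℤ) * x)) =
        (T₂' : Matrix ρ ρ ℤ) * (r₀ *
          (((TT'⁻¹ : (Matrix (κ ⊕ ρ) (κ ⊕ ρ) ℤ)ˣ) : Matrix (κ ⊕ ρ) (κ ⊕ ρ) ℤ) * x)) := by
      rw [← Matrix.mul_assoc (R * _), hR', Matrix.mul_assoc]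
    rw [← Matrix.mul_assoc (TT' : Matrix (κ ⊕ ρ) (κ ⊕ ρ) ℤ), Units.mul_inv, Matrix.one_mul, hx] at e1
    have e2 := congrArg (fun M => ((T₂'⁻¹ : (Matrix ρ ρ ℤ)ˣ) : Matrix ρ ρ ℤ) * M) e1
    simp only [Matrix.mul_zero] at e2
    rw [← Matrix.mul_assoc, Units.inv_mul, Matrix.one_mul] at e2
    exact e2.symm
  -- g
  set x₁ : Matrix (κ ⊕ ρ) κ ℤ := ((TT'⁻¹ : (Matrix (κ ⊕ ρ) (κ ⊕ ρ) ℤ)ˣ) :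
    Matrix (κ ⊕ ρ) (κ ⊕ ρ) ℤ) * ((S : Matrix (κ ⊕ ρ) (κ ⊕ ρ) ℤ) *
      ((TT : Matrix (κ ⊕ ρ) (κ ⊕ ρ) ℤ) * z₀)) with hx₁
  set x₂ : Matrix (κ ⊕ ρ) κ ℤ := ((TT⁻¹ : (Matrix (κ ⊕ ρ) (κ ⊕ ρ) ℤ)ˣ) :
    Matrix (κ ⊕ ρ) (κ ⊕ ρ) ℤ) * (((S⁻¹ : (Matrix (κ ⊕ ρ) (κ ⊕ ρ) ℤ)ˣ) :
      Matrix (κ ⊕ ρ) (κ ⊕ ρ) ℤ) * ((TT' : Matrix (κ ⊕ ρ) (κ ⊕ ρ) ℤ) * z₀)) with hx₂
  have hz1 : x₁ = z₀ * (Y * x₁) := by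
    refine kerP x₁ (hr₀' _ ?_)
    rw [Matrix.mul_assoc R, ← Matrix.mul_assoc _ (S : Matrix (κ ⊕ ρ) (κ ⊕ ρ) ℤ), Units.inv_mul,
      Matrix.one_mul, hRr, h1, Matrix.mul_zero]
  have hz2 : x₂ = z₀ * (Y * x₂) := by
    refine kerP x₂ (hr₀ _ ?_)
    rw [← Matrix.mul_assoc, ← Matrix.mul_assoc, hR', Matrix.mul_assoc, h1, Matrix.mul_zero]
  have hg1 : (Y * x₁) * (Y * x₂) = 1 := by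
    have e : x₁ * (Y * x₂) = z₀ := by
      calc x₁ * (Y * x₂) = ((TT'⁻¹ : (Matrix (κ ⊕ ρ) (κ ⊕ ρ) ℤ)ˣ) :
            Matrix (κ ⊕ ρ) (κ ⊕ ρ) ℤ) * ((S : Matrix (κ ⊕ ρ) (κ ⊕ ρ) ℤ) *
            ((TT : Matrix (κ ⊕ ρ) (κ ⊕ ρ) ℤ) * (z₀ * (Y * x₂)))) := by
            rw [hx₁]; simp only [Matrix.mul_assoc]
        _ = z₀ := by
            rw [← hz2, hx₂]
            simp only [← Matrix.mul_assoc]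
            simp only [Units.mul_inv, Matrix.mul_assoc, Units.mul_inv_cancel_left,
              Units.inv_mul_cancel_left]
            simp only [← Matrix.mul_assoc, Units.mul_inv, Units.inv_mul, Matrix.one_mul,
              Matrix.mul_one]
    rw [Matrix.mul_assoc, e, h2]
  have hg2 : (Y * x₂) * (Y * x₁) = 1 := mul_eq_one_comm.1 hg1
  let g : (Matrix κ κ ℤ)ˣ := ⟨Y * x₁, Y * x₂, hg1, hg2⟩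
  have hgv : (g : Matrix κ κ ℤ) = Y * x₁ := rfl
  -- the main construction
  have main : ∀ Φ Ψ : Matrix κ (κ ⊕ ρ) ℤ, IsUnit (Ψ * z₀).det →
        Φ * z₀ = ((T₁⁻¹ * T₁' : (Matrix κ κ ℤ)ˣ) : Matrix κ κ ℤ) * (Ψ * z₀) * (g : Matrix κ κ ℤ) →
        ∃ (η : Matrix κ ρ ℤ) (Y₁ : (Matrix (κ ⊕ ρ) (κ ⊕ ρ) ℤ)ˣ),
          (Y₁ : Matrix (κ ⊕ ρ) (κ ⊕ ρ) ℤ) = (TT' : Matrix (κ ⊕ ρ) (κ ⊕ ρ) ℤ) *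
            fromRows Ψ r₀ * ((TT'⁻¹ : (Matrix (κ ⊕ ρ) (κ ⊕ ρ) ℤ)ˣ) :
              Matrix (κ ⊕ ρ) (κ ⊕ ρ) ℤ) ∧
          (TT : Matrix (κ ⊕ ρ) (κ ⊕ ρ) ℤ) * fromRows Φ r₀ *
            ((TT⁻¹ : (Matrix (κ ⊕ ρ) (κ ⊕ ρ) ℤ)ˣ) : Matrix (κ ⊕ ρ) (κ ⊕ ρ) ℤ) =
            fromBlocks 1 η 0 1 *
            ((Y₁ * S : (Matrix (κ ⊕ ρ) (κ ⊕ ρ) ℤ)ˣ) : Matrix (κ ⊕ ρ) (κ ⊕ ρ) ℤ) := by
    intro Φ Ψ hΨ hΦ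
    have hu : IsUnit (fromRows Ψ r₀ : Matrix (κ ⊕ ρ) (κ ⊕ ρ) ℤ) := by
      rw [Matrix.isUnit_iff_isUnit_det, det_comp r₀ z₀ Y L h5 Ψ]
      exact hΨ.mul (det_Y r₀ z₀ Y L h5)
    obtain ⟨ψ, hψ⟩ := hu
    set Y₁ : (Matrix (κ ⊕ ρ) (κ ⊕ ρ) ℤ)ˣ := TT' * ψ * TT'⁻¹ with hY₁
    have hY₁v : (Y₁ : Matrix (κ ⊕ ρ) (κ ⊕ ρ) ℤ) = (TT' : Matrix (κ ⊕ ρ) (κ ⊕ ρ) ℤ) *
            fromRows Ψ r₀ * ((TT'⁻¹ : (Matrix (κ ⊕ ρ) (κ ⊕ ρ) ℤ)ˣ) :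
              Matrix (κ ⊕ ρ) (κ ⊕ ρ) ℤ) := by
      rw [hY₁, Units.val_mul, Units.val_mul, hψ]
    -- lower rows
    have low : ∀ M : Matrix (κ ⊕ ρ) (κ ⊕ ρ) ℤ, M.toRows₂ = pr κ ρ * M := fun M => (pr_mul M).symm
    have l1 : pr κ ρ * (TT : Matrix (κ ⊕ ρ) (κ ⊕ ρ) ℤ) = (T₂ : Matrix ρ ρ ℤ) * pr κ ρ :=
      pr_tri T₁ T₁₂ T₂
    have l2 : pr κ ρ * (TT' : Matrix (κ ⊕ ρ) (κ ⊕ ρ) ℤ) = (T₂' : Matrix ρ ρ ℤ) * pr κ ρ :=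
      pr_tri T₁' T₁₂' T₂'
    have l3 : ∀ Θ : Matrix κ (κ ⊕ ρ) ℤ,
        pr κ ρ * (fromRows Θ r₀ : Matrix (κ ⊕ ρ) (κ ⊕ ρ) ℤ) = r₀ := pr_rows r₀
    have lowX : ((TT : Matrix (κ ⊕ ρ) (κ ⊕ ρ) ℤ) * fromRows Φ r₀ *
            ((TT⁻¹ : (Matrix (κ ⊕ ρ) (κ ⊕ ρ) ℤ)ˣ) : Matrix (κ ⊕ ρ) (κ ⊕ ρ) ℤ)).toRows₂ = R := by
      rw [low, ← Matrix.mul_assoc, ← Matrix.mul_assoc, l1, Matrix.mul_assoc (T₂ : Matrix ρ ρ ℤ), l3,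
        ← hR, Matrix.mul_assoc, Units.mul_inv, Matrix.mul_one]
    have lowW : ((Y₁ * S : (Matrix (κ ⊕ ρ) (κ ⊕ ρ) ℤ)ˣ) :
        Matrix (κ ⊕ ρ) (κ ⊕ ρ) ℤ).toRows₂ = R := by
      rw [Units.val_mul, hY₁v, low, ← Matrix.mul_assoc, ← Matrix.mul_assoc, ← Matrix.mul_assoc, l2,
        Matrix.mul_assoc (T₂' : Matrix ρ ρ ℤ), l3, ← hR', Matrix.mul_assoc (R * _), Units.mul_inv,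
        Matrix.mul_one, Matrix.mul_assoc, Units.inv_mul, Matrix.mul_one]
    -- equality on the kernel
    have e1 : ∀ Θ : Matrix κ (κ ⊕ ρ) ℤ, (fromRows Θ r₀ : Matrix (κ ⊕ ρ) (κ ⊕ ρ) ℤ) * z₀ =
        fromRows (Θ * z₀) 0 := by
      intro Θ
      rw [fromRows_mul, h1]
    have e2 : ∀ Θ : Matrix κ κ ℤ, (TT : Matrix (κ ⊕ ρ) (κ ⊕ ρ) ℤ) *
        fromRows Θ (0 : Matrix ρ κ ℤ) = fromRows ((T₁ : Matrix κ κ ℤ) * Θ) 0 := by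
      intro Θ
      rw [hTT, tri_val, fromBlocks_mul_fromRows]
      simp
    have e3 : ∀ Θ : Matrix κ κ ℤ, (TT' : Matrix (κ ⊕ ρ) (κ ⊕ ρ) ℤ) *
        fromRows Θ (0 : Matrix ρ κ ℤ) = fromRows ((T₁' : Matrix κ κ ℤ) * Θ) 0 := by
      intro Θ
      rw [hTT', tri_val, fromBlocks_mul_fromRows]
      simp
    have eX : ((TT : Matrix (κ ⊕ ρ) (κ ⊕ ρ) ℤ) * fromRows Φ r₀ *
            ((TT⁻¹ : (Matrix (κ ⊕ ρ) (κ ⊕ ρ) ℤ)ˣ) : Matrix (κ ⊕ ρ) (κ ⊕ ρ) ℤ)) *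
          ((TT : Matrix (κ ⊕ ρ) (κ ⊕ ρ) ℤ) * z₀) = fromRows ((T₁ : Matrix κ κ ℤ) * (Φ * z₀)) 0 := by
      rw [Matrix.mul_assoc, ← Matrix.mul_assoc _ (TT : Matrix (κ ⊕ ρ) (κ ⊕ ρ) ℤ), Units.inv_mul,
        Matrix.one_mul, Matrix.mul_assoc, e1, e2]
    have eW : ((Y₁ * S : (Matrix (κ ⊕ ρ) (κ ⊕ ρ) ℤ)ˣ) : Matrix (κ ⊕ ρ) (κ ⊕ ρ) ℤ) *
          ((TT : Matrix (κ ⊕ ρ) (κ ⊕ ρ) ℤ) * z₀) =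
        fromRows ((T₁' : Matrix κ κ ℤ) * (Ψ * z₀ * (g : Matrix κ κ ℤ))) 0 := by
      have : ((Y₁ * S : (Matrix (κ ⊕ ρ) (κ ⊕ ρ) ℤ)ˣ) : Matrix (κ ⊕ ρ) (κ ⊕ ρ) ℤ) *
          ((TT : Matrix (κ ⊕ ρ) (κ ⊕ ρ) ℤ) * z₀) = (TT' : Matrix (κ ⊕ ρ) (κ ⊕ ρ) ℤ) *
            (fromRows Ψ r₀ * x₁) := by
        rw [Units.val_mul, hY₁v, hx₁]
        simp only [Matrix.mul_assoc]
      rw [this, hz1, ← hgv, ← Matrix.mul_assoc (fromRows Ψ r₀), e1, fromRows_mul, Matrix.zero_mul,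
        e3]
    obtain ⟨η, hη⟩ := hK1 κ ρ _ (Y₁ * S) ((TT : Matrix (κ ⊕ ρ) (κ ⊕ ρ) ℤ) * z₀)
      (lowX.trans lowW.symm) (by
        rw [eX, eW, hΦ, Units.val_mul]
        congr 1
        simp only [← Matrix.mul_assoc]
        rw [Units.mul_inv, Matrix.one_mul]) (by
        intro x hx
        rw [lowW] at hx
        -- x as a matrix with one column
        have h6 : R * (Matrix.of fun i (_ : Unit) => x i) = 0 := by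
          ext i j
          have := congrFun hx i
          simpa [Matrix.mulVec, Matrix.mul_apply, dotProduct] using this
        have h7 := kerP _ (hr₀ _ h6)
        refine ⟨fun a => (Y * (((TT⁻¹ : (Matrix (κ ⊕ ρ) (κ ⊕ ρ) ℤ)ˣ) :
          Matrix (κ ⊕ ρ) (κ ⊕ ρ) ℤ) * (Matrix.of fun i (_ : Unit) => x i))) a (), ?_⟩
        have h8 : (Matrix.of fun i (_ : Unit) => x i) = ((TT : Matrix (κ ⊕ ρ) (κ ⊕ ρ) ℤ) * z₀) *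
            (Y * (((TT⁻¹ : (Matrix (κ ⊕ ρ) (κ ⊕ ρ) ℤ)ˣ) :
          Matrix (κ ⊕ ρ) (κ ⊕ ρ) ℤ) * (Matrix.of fun i (_ : Unit) => x i))) := by
          rw [Matrix.mul_assoc, ← h7, ← Matrix.mul_assoc, Units.mul_inv, Matrix.one_mul]
        funext i
        have h9 := congrFun (congrFun h8 i) ()
        simpa [Matrix.mulVec, Matrix.mul_apply, dotProduct] using h9)
    exact ⟨η, Y₁, hY₁v, hη⟩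
  -- the determinant
  have hdet : ((T₁⁻¹ * T₁' : (Matrix κ κ ℤ)ˣ) : Matrix κ κ ℤ).det * (g : Matrix κ κ ℤ).det = 1 := by
    obtain ⟨η, Y₁, hY₁, he⟩ := main (((T₁⁻¹ * T₁' : (Matrix κ κ ℤ)ˣ) : Matrix κ κ ℤ) *
      (g : Matrix κ κ ℤ) * Y) Y (by rw [h2]; simp) (by rw [Matrix.mul_assoc, h2]; simp)
    have hd := congrArg Matrix.det he
    have hc : ∀ M : Matrix (κ ⊕ ρ) (κ ⊕ ρ) ℤ, ∀ u : (Matrix (κ ⊕ ρ) (κ ⊕ ρ) ℤ)ˣ,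
        ((u : Matrix (κ ⊕ ρ) (κ ⊕ ρ) ℤ) * M *
          ((u⁻¹ : (Matrix (κ ⊕ ρ) (κ ⊕ ρ) ℤ)ˣ) : Matrix (κ ⊕ ρ) (κ ⊕ ρ) ℤ)).det = M.det := by
      intro M u
      rw [Matrix.det_mul, Matrix.det_mul, mul_comm, ← mul_assoc, ← Matrix.det_mul, Units.inv_mul,
        Matrix.det_one, one_mul]
    rw [hc, Matrix.det_mul, Units.val_mul Y₁ S, Matrix.det_mul, hY₁, hc, hS, mul_one,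
      Matrix.det_fromBlocks_zero₂₁, Matrix.det_one, Matrix.det_one, mul_one, one_mul,
      det_comp r₀ z₀ Y L h5, Matrix.mul_assoc, h2, Matrix.mul_one, Matrix.det_mul] at hd
    have hu := det_Y r₀ z₀ Y L h5
    have : ((T₁⁻¹ * T₁' : (Matrix κ κ ℤ)ˣ) : Matrix κ κ ℤ).det * (g : Matrix κ κ ℤ).det *
      (fromRows Y r₀ : Matrix (κ ⊕ ρ) (κ ⊕ ρ) ℤ).det =
      1 * (fromRows Y r₀ : Matrix (κ ⊕ ρ) (κ ⊕ ρ) ℤ).det := by rw [hd, one_mul]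
    exact hu.mul_right_cancel this
  refine ⟨T₁⁻¹ * T₁', g, hdet, fun Φ Ψ hΨ hΦ => ?_⟩
  obtain ⟨η, Y₁, hY₁, he⟩ := main Φ Ψ hΨ hΦ
  have hΦu : IsUnit (Φ * z₀).det := by
    rw [hΦ, Matrix.det_mul, Matrix.det_mul]
    refine (IsUnit.mul ?_ hΨ).mul ?_
    · exact (Matrix.isUnit_iff_isUnit_det _).1 (Units.isUnit _)
    · exact (Matrix.isUnit_iff_isUnit_det _).1 (Units.isUnit _)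
  have hu : IsUnit (fromRows Φ r₀ : Matrix (κ ⊕ ρ) (κ ⊕ ρ) ℤ) := by
    rw [Matrix.isUnit_iff_isUnit_det, det_comp r₀ z₀ Y L h5 Φ]
    exact hΦu.mul (det_Y r₀ z₀ Y L h5)
  obtain ⟨φ, hφ⟩ := hu
  have hX₁ : ((TT * φ * TT⁻¹ : (Matrix (κ ⊕ ρ) (κ ⊕ ρ) ℤ)ˣ) : Matrix (κ ⊕ ρ) (κ ⊕ ρ) ℤ) =
      (TT : Matrix (κ ⊕ ρ) (κ ⊕ ρ) ℤ) * fromRows Φ r₀ *
            ((TT⁻¹ : (Matrix (κ ⊕ ρ) (κ ⊕ ρ) ℤ)ˣ) : Matrix (κ ⊕ ρ) (κ ⊕ ρ) ℤ) := by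
    rw [Units.val_mul, Units.val_mul, hφ]
  exact ⟨η, TT * φ * TT⁻¹, Y₁, hX₁, hY₁, hX₁.trans he⟩

end

theorem pairProd_unit {κ : Type} [Fintype κ] [DecidableEq κ] : ∀ (Fs : List ℤ[X])
    (A B : Matrix κ κ ℤ), PairProd Fs A B → IsUnit A ∧ IsUnit B
  | [], A, B, h => by
      obtain ⟨rfl, rfl⟩ := h
      exact ⟨isUnit_one, isUnit_one⟩
  | F :: Fs, A, B, h => by
      obtain ⟨G, g, -, A', B', h', rfl, rfl⟩ := h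
      obtain ⟨h1, h2⟩ := pairProd_unit Fs A' B' h'
      exact ⟨G.isUnit.mul h1, (Units.isUnit _).mul h2⟩

end K2

open K2 in
theorem claimK2 (hP0 : ClaimP0) (_hP2 : ClaimP2) (hP3 : ClaimP3) (hP4 : ClaimP4) (hK1 : ClaimK1) :
    ClaimK2 := by
  intro τ σ _ _ _ _ t Fs hFp hF1 hfact S R hSdet hR hR'
  obtain ⟨h1, Y, L, h2, h3, h4, h5⟩ := hP0 τ σ (t + Fs.length)
  obtain ⟨T₁, T₁₂, T₂, hT⟩ := hR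
  obtain ⟨T₁', T₁₂', T₂', hT'⟩ := hR'
  obtain ⟨h, g, hdet, hmain⟩ := abs hK1 (R0 (t + Fs.length)) (Z0 (t + Fs.length)) Y L h1 h2 h5 S
    hSdet R T₁ T₁' T₁₂ T₁₂' T₂ T₂' hT hT'
  obtain ⟨A₀, e, hA₀⟩ := hP4 τ σ t
  set g' : (Matrix (τ ⊕ σ) (τ ⊕ σ) ℤ)ˣ := A₀ * g * A₀⁻¹ with hg'
  have hg'det : (g' : Matrix (τ ⊕ σ) (τ ⊕ σ) ℤ).det = (g : Matrix (τ ⊕ σ) (τ ⊕ σ) ℤ).det := by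
    rw [hg', Units.val_mul, Units.val_mul, Matrix.det_mul, Matrix.det_mul, mul_comm, ← mul_assoc,
      ← Matrix.det_mul, Units.inv_mul, Matrix.det_one, one_mul]
  set D : Matrix (τ ⊕ σ) (τ ⊕ σ) ℤ := ((h * g' : (Matrix (τ ⊕ σ) (τ ⊕ σ) ℤ)ˣ) :
    Matrix (τ ⊕ σ) (τ ⊕ σ) ℤ) with hD
  have hDdet : D.det = 1 := by rw [hD, Units.val_mul, Matrix.det_mul, hg'det, hdet]
  obtain ⟨A, B, hAB, hADB⟩ := hP3 (τ ⊕ σ) Fs D (hfact D hDdet) g'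
  obtain ⟨hAu, hBu⟩ := pairProd_unit Fs _ _ hAB
  obtain ⟨Φ, Ψ, hsim, hann, hΦ, hΨ⟩ := hA₀ Fs hFp hF1 _ _ hAB
  have hΨu : IsUnit (Ψ * (Z0 (t + Fs.length) :
      Matrix ((τ ⊕ σ) ⊕ Idx τ σ (t + Fs.length)) (τ ⊕ σ) ℤ)).det := by
    rw [hΨ, Matrix.det_smul]
    refine IsUnit.mul ?_ ?_
    · exact (((isUnit_one.neg).pow _).pow _)
    · rw [← Matrix.isUnit_iff_isUnit_det]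
      exact hBu.mul A₀.isUnit
  obtain ⟨η, X₁, Y₁, hX₁, hY₁, he⟩ := hmain Φ Ψ hΨu (by
    rw [hΦ, hΨ, hADB, hD, Matrix.mul_smul, Matrix.smul_mul]
    congr 1
    have e1 : ((g'⁻¹ : (Matrix (τ ⊕ σ) (τ ⊕ σ) ℤ)ˣ) : Matrix (τ ⊕ σ) (τ ⊕ σ) ℤ) *
        ((A₀ : Matrix (τ ⊕ σ) (τ ⊕ σ) ℤ) * (g : Matrix (τ ⊕ σ) (τ ⊕ σ) ℤ)) =
        (A₀ : Matrix (τ ⊕ σ) (τ ⊕ σ) ℤ) := by
      have : g'⁻¹ * (A₀ * g) = A₀ := by rw [hg']; group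
      have := congrArg (fun u : (Matrix (τ ⊕ σ) (τ ⊕ σ) ℤ)ˣ => (u : Matrix (τ ⊕ σ) (τ ⊕ σ) ℤ)) this
      simpa using this
    rw [Units.val_mul]
    simp only [Matrix.mul_assoc]
    rw [e1])
  refine ⟨e, η, X₁, (S⁻¹ * Y₁ * S)⁻¹, ?_, ?_, ?_⟩
  · have : fromBlocks 1 η 0 1 * (S : Matrix ((τ ⊕ σ) ⊕ Idx τ σ (t + Fs.length))
        ((τ ⊕ σ) ⊕ Idx τ σ (t + Fs.length)) ℤ) = ((X₁ * (S⁻¹ * Y₁ * S)⁻¹ :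
        (Matrix ((τ ⊕ σ) ⊕ Idx τ σ (t + Fs.length))
        ((τ ⊕ σ) ⊕ Idx τ σ (t + Fs.length)) ℤ)ˣ) : Matrix ((τ ⊕ σ) ⊕ Idx τ σ (t + Fs.length))
        ((τ ⊕ σ) ⊕ Idx τ σ (t + Fs.length)) ℤ) := by
      have e1 : (S⁻¹ * Y₁ * S)⁻¹ = (Y₁ * S)⁻¹ * S := by group
      rw [e1, Units.val_mul, Units.val_mul, he, Matrix.mul_assoc, ← Matrix.mul_assoc _ _
        (S : Matrix ((τ ⊕ σ) ⊕ Idx τ σ (t + Fs.length)) ((τ ⊕ σ) ⊕ Idx τ σ (t + Fs.length)) ℤ),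
        Units.mul_inv, Matrix.one_mul]
    rw [this]
    exact Sim.refl _
  · rw [inv_inv]
    have s1 : Sim (X₁ : Matrix ((τ ⊕ σ) ⊕ Idx τ σ (t + Fs.length))
        ((τ ⊕ σ) ⊕ Idx τ σ (t + Fs.length)) ℤ) (fromRows Φ (R0 (t + Fs.length))) := by
      rw [hX₁]; exact (Sim.of_unit _ _).symm
    have s2 : Sim (fromRows Ψ (R0 (t + Fs.length))) (Y₁ : Matrix ((τ ⊕ σ) ⊕ Idx τ σ (t + Fs.length))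
        ((τ ⊕ σ) ⊕ Idx τ σ (t + Fs.length)) ℤ) := by
      rw [hY₁]; exact Sim.of_unit _ _
    have s3 : Sim (Y₁ : Matrix ((τ ⊕ σ) ⊕ Idx τ σ (t + Fs.length))
        ((τ ⊕ σ) ⊕ Idx τ σ (t + Fs.length)) ℤ) ((S⁻¹ * Y₁ * S :
        (Matrix ((τ ⊕ σ) ⊕ Idx τ σ (t + Fs.length)) ((τ ⊕ σ) ⊕ Idx τ σ (t + Fs.length)) ℤ)ˣ) :
        Matrix ((τ ⊕ σ) ⊕ Idx τ σ (t + Fs.length)) ((τ ⊕ σ) ⊕ Idx τ σ (t + Fs.length)) ℤ) := by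
      have := Sim.of_unit S⁻¹ (Y₁ : Matrix ((τ ⊕ σ) ⊕ Idx τ σ (t + Fs.length))
        ((τ ⊕ σ) ⊕ Idx τ σ (t + Fs.length)) ℤ)
      rw [inv_inv] at this
      simpa [Units.val_mul] using this
    exact ((s1.trans hsim).trans s2).trans s3
  · have s1 : Sim (X₁ : Matrix ((τ ⊕ σ) ⊕ Idx τ σ (t + Fs.length))
        ((τ ⊕ σ) ⊕ Idx τ σ (t + Fs.length)) ℤ) (fromRows Φ (R0 (t + Fs.length))) := by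
      rw [hX₁]; exact (Sim.of_unit _ _).symm
    exact s1.symm.aeval_eq_zero hann

end Pool.Agent.IntComm.Cst
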