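import Pool.Agent.Work.MP_584b0c_al.Cst.Stmts
import Pool.Agent.Work.MP_584b0c_al.All

set_option autoImplicit false

/-!
# K3: the key proposition, from the filtration form to the original indices
-/

namespace Pool.Agent.IntComm.Cst

open Matrix Polynomial

namespace K3

theorem card_idx (m : ℕ) : ∀ T : ℕ,
    Fintype.card (Idx (Fin m) (Fin m) T) = T * (2 * m) + m
  | 0 => by
      show Fintype.card (Fin m) = _
      simp
  | T + 1 => by
      have ih := card_idx m T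
      have h : Fintype.card (Idx (Fin m) (Fin m) (T + 1)) =
          Fintype.card ((Fin m ⊕ Fin m) ⊕ Idx (Fin m) (Fin m) T) := rfl
      rw [h, Fintype.card_sum, Fintype.card_sum, ih, Fintype.card_fin]
      ring

section

variable {n m : Type} [Fintype n] [DecidableEq n] [Fintype m] [DecidableEq m]

/-- reindexing along an equivalence preserves the criterion -/
theorem lufSubmatrix {F : ℤ[X]} {C : Matrix n n ℤ} (E : m ≃ n) (h : LUF F (C.submatrix E E)) :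
    LUF F C := by
  set P : Matrix n m ℤ := (1 : Matrix n n ℤ).submatrix id E with hP
  set P' : Matrix m n ℤ := (1 : Matrix n n ℤ).submatrix E id with hP'
  have h1 : P' * P = 1 := by
    rw [hP, hP', ← Matrix.submatrix_mul _ _ _ id _ Function.bijective_id, Matrix.one_mul,
      Matrix.submatrix_one_equiv]
  have h2 : P * P' = 1 := by
    rw [hP, hP']
    have := Matrix.submatrix_mul_equiv (1 : Matrix n n ℤ) (1 : Matrix n n ℤ) (id : n → n) E
      (id : n → n)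
    rw [this, Matrix.one_mul]
    rfl
  refine LUF.of_rect P P' h1 h2 ?_
  have h3 : P' * C * P = C.submatrix E E := by
    rw [hP, hP']
    have e1 : (1 : Matrix n n ℤ).submatrix E id * C = C.submatrix E id := by
      have := Matrix.submatrix_mul (1 : Matrix n n ℤ) C (E : m → n) (id : n → n) (id : n → n)
        Function.bijective_id
      rw [Matrix.one_mul, Matrix.submatrix_id_id] at this
      exact this.symm
    rw [e1]
    have := Matrix.submatrix_mul C (1 : Matrix n n ℤ) (E : m → n) (id : n → n) (E : m → n)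
      Function.bijective_id
    rw [Matrix.mul_one] at this
    exact this.symm
  rw [h3]
  exact h

/-- a unit reindexed along an equivalence -/
def subUnit (E : m ≃ n) (u : (Matrix n n ℤ)ˣ) : (Matrix m m ℤ)ˣ where
  val := (u : Matrix n n ℤ).submatrix E E
  inv := ((u⁻¹ : (Matrix n n ℤ)ˣ) : Matrix n n ℤ).submatrix E E
  val_inv := by
    rw [Matrix.submatrix_mul_equiv, Units.mul_inv, Matrix.submatrix_one_equiv]
  inv_val := by
    rw [Matrix.submatrix_mul_equiv, Units.inv_mul, Matrix.submatrix_one_equiv]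

end

theorem main (hFact : ClaimFact) (hR3 : ClaimR3) (hN0 : ClaimN0) (hN3 : ClaimN3)
    (hK2 : ClaimK2) : ClaimK3 := by
  intro m N t Fs hm hlen hN hFam hpw hcop S hS
  set T := t + Fs.length with hT
  have hT1 : 1 ≤ T := by omega
  let e₁ : Fin m ⊕ Fin m ≃ Fin (2 * m) := finSumFinEquiv.trans (finCongr (two_mul m).symm)
  let e₂ : Idx (Fin m) (Fin m) T ≃ Fin N :=
    Fintype.equivFinOfCardEq (by rw [card_idx, hN])
  let E : (Fin m ⊕ Fin m) ⊕ Idx (Fin m) (Fin m) T ≃ Fin (2 * m) ⊕ Fin N := Equiv.sumCongr e₁ e₂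
  have hSu : IsUnit S := (Matrix.isUnit_iff_isUnit_det S).2 (by rw [hS]; exact isUnit_one)
  let Su := hSu.unit
  have hSuv : (Su : Matrix _ _ ℤ) = S := hSu.unit_spec
  obtain ⟨R, hR⟩ := hR3 m N T hm hT1 hN Su⁻¹
  have hm0 : 0 < 2 * m := by omega
  have g1 := hN0 (Fin m ⊕ Fin m) (Idx (Fin m) (Fin m) T) (2 * m) N T e₁ e₂ R hm0
    (fun p _ => (hR p).1)
  have g2 := hN0 (Fin m ⊕ Fin m) (Idx (Fin m) (Fin m) T) (2 * m) N T e₁ e₂
    (R * ((Su⁻¹ : (Matrix (Fin (2 * m) ⊕ Fin N) (Fin (2 * m) ⊕ Fin N) ℤ)ˣ) :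
      Matrix (Fin (2 * m) ⊕ Fin N) (Fin (2 * m) ⊕ Fin N) ℤ)) hm0 (fun p _ => (hR p).2)
  have n1 := hN3 (Fin m) (Fin m) T _ g1
  have n2 := hN3 (Fin m) (Fin m) T _ g2
  have hmul : (R * ((Su⁻¹ : (Matrix (Fin (2 * m) ⊕ Fin N) (Fin (2 * m) ⊕ Fin N) ℤ)ˣ) :
      Matrix (Fin (2 * m) ⊕ Fin N) (Fin (2 * m) ⊕ Fin N) ℤ)).submatrix e₂ (Sum.map e₁ e₂) =
      R.submatrix e₂ (Sum.map e₁ e₂) * (((subUnit E Su)⁻¹ :
        (Matrix ((Fin m ⊕ Fin m) ⊕ Idx (Fin m) (Fin m) T)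
          ((Fin m ⊕ Fin m) ⊕ Idx (Fin m) (Fin m) T) ℤ)ˣ) :
        Matrix ((Fin m ⊕ Fin m) ⊕ Idx (Fin m) (Fin m) T)
          ((Fin m ⊕ Fin m) ⊕ Idx (Fin m) (Fin m) T) ℤ) :=
    (Matrix.submatrix_mul_equiv R
      ((Su⁻¹ : (Matrix (Fin (2 * m) ⊕ Fin N) (Fin (2 * m) ⊕ Fin N) ℤ)ˣ) :
      Matrix (Fin (2 * m) ⊕ Fin N) (Fin (2 * m) ⊕ Fin N) ℤ) e₂ E E).symm
  rw [hmul] at n2
  have hdet : (subUnit E Su : Matrix ((Fin m ⊕ Fin m) ⊕ Idx (Fin m) (Fin m) T)
          ((Fin m ⊕ Fin m) ⊕ Idx (Fin m) (Fin m) T) ℤ).det = 1 := by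
    show ((Su : Matrix _ _ ℤ).submatrix E E).det = 1
    rw [Matrix.det_submatrix_equiv_self, hSuv, hS]
  obtain ⟨e, η', hη⟩ := hK2 (Fin m) (Fin m) t Fs hpw hcop
    (fun D hD => hFact m (by omega) (Fin m ⊕ Fin m)
      (by rw [Fintype.card_sum, Fintype.card_fin]; ring) Fs hFam hlen D hD)
    (subUnit E Su) _ hdet n1 n2
  refine ⟨e, η'.submatrix e₁.symm e₂.symm, lufSubmatrix E ?_⟩
  have hb : (fromBlocks 1 (η'.submatrix e₁.symm e₂.symm) 0 1 * S).submatrix E E =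
      fromBlocks 1 η' 0 1 * (subUnit E Su : Matrix ((Fin m ⊕ Fin m) ⊕ Idx (Fin m) (Fin m) T)
          ((Fin m ⊕ Fin m) ⊕ Idx (Fin m) (Fin m) T) ℤ) := by
    rw [← Matrix.submatrix_mul_equiv _ _ E E E]
    have h1 : (subUnit E Su : Matrix ((Fin m ⊕ Fin m) ⊕ Idx (Fin m) (Fin m) T)
          ((Fin m ⊕ Fin m) ⊕ Idx (Fin m) (Fin m) T) ℤ) = S.submatrix E E := by
      show (Su : Matrix _ _ ℤ).submatrix E E = _
      rw [hSuv]
    rw [h1]
    congr 1
    ext i j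
    rcases i with i | i <;> rcases j with j | j
    · simp [E, Matrix.one_apply]
    · simp [E]
    · simp [E]
    · simp [E, Matrix.one_apply]
  rw [hb]
  exact hη

end K3

theorem claimK3 (hR3 : ClaimR3) (hN0 : ClaimN0) (hN3 : ClaimN3) (hK2 : ClaimK2) : ClaimK3 :=
  K3.main fact_all hR3 hN0 hN3 hK2

end Pool.Agent.IntComm.Cst
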