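import Pool.Agent.Work.MP_584b0c_al.Cst.Stmts

set_option autoImplicit false

/-! Item L2: Bezout over the fraction field. -/

namespace Pool.Agent.IntComm.Cst

open Polynomial

namespace L2

section

variable {R : Type} [CommRing R] [IsDomain R] [UniqueFactorizationMonoid R]

attribute [local instance] Polynomial.algebra Polynomial.isLocalization

/-- Bezout for a finite family of polynomials without common prime factor. -/
theorem bezout {ι : Type} [Fintype ι] (F : ι → R[X]) (hF : ∀ h : R[X], Prime h → ∃ i, ¬ h ∣ F i) :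
    ∃ (b : ι → R[X]) (e : R), e ≠ 0 ∧ ∑ i, b i * F i = C e := by
  classical
  let K := FractionRing R
  let S : Submonoid R[X] := (nonZeroDivisors R).map (C : R →+* R[X])
  haveI : IsLocalization S K[X] := Polynomial.isLocalization (nonZeroDivisors R) K
  let I : Ideal R[X] := Ideal.span (Set.range F)
  have hS0 : ∀ s ∈ S, s ≠ 0 := by
    rintro s ⟨e, he, rfl⟩ h0
    have : e = 0 := by
      have h1 : (C e : R[X]) = 0 := h0
      exact C_eq_zero.mp h1
    exact nonZeroDivisors.ne_zero he this
  by_cases hdis : Disjoint (S : Set R[X]) (I : Set R[X])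
  · exfalso
    have hne : I.map (algebraMap R[X] K[X]) ≠ ⊤ :=
      (IsLocalization.map_algebraMap_ne_top_iff_disjoint S K[X] I).mpr hdis
    obtain ⟨M, hM, hIM⟩ := Ideal.exists_le_maximal _ hne
    have hMp : M.IsPrime := hM.isPrime
    have hM0 : M ≠ ⊥ := Ring.ne_bot_of_isMaximal_of_not_isField hM (Polynomial.not_isField K)
    let P : Ideal R[X] := M.comap (algebraMap R[X] K[X])
    have hPp : P.IsPrime := Ideal.IsPrime.comap _
    have hPmap : P.map (algebraMap R[X] K[X]) = M := IsLocalization.map_under S K[X] M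
    have hP0 : P ≠ ⊥ := by
      intro h
      apply hM0
      rw [← hPmap, h, Ideal.map_bot]
    obtain ⟨h, hhP, hh⟩ := hPp.exists_mem_prime_of_ne_bot hP0
    have hhS : Disjoint (S : Set R[X]) (P : Set R[X]) := by
      have := (IsLocalization.isPrime_iff_isPrime_disjoint S K[X] M).mp hMp
      exact this.2
    have hQ : (Ideal.span {h} : Ideal R[X]).IsPrime := (Ideal.span_singleton_prime hh.ne_zero).mpr hh
    have hle : (Ideal.span {h} : Ideal R[X]) ≤ P := (Ideal.span_singleton_le_iff_mem P).mpr hhP
    have hQS : Disjoint (S : Set R[X]) ((Ideal.span {h} : Ideal R[X]) : Set R[X]) :=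
      hhS.mono_right hle
    have hQ' := IsLocalization.isPrime_of_isPrime_disjoint S K[X] _ hQ hQS
    have hinj : Function.Injective (algebraMap R[X] K[X]) :=
      IsLocalization.injective K[X] (fun s hs => mem_nonZeroDivisors_of_ne_zero (hS0 s hs))
    have hQ0 : (Ideal.span {h} : Ideal R[X]).map (algebraMap R[X] K[X]) ≠ ⊥ := by
      intro h0
      have h1 := (Ideal.map_eq_bot_iff_of_injective hinj).mp h0
      exact hh.ne_zero (Ideal.span_singleton_eq_bot.mp h1)
    have hQm : ((Ideal.span {h} : Ideal R[X]).map (algebraMap R[X] K[X])).IsMaximal :=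
      hQ'.isMaximal hQ0
    have hQM : (Ideal.span {h} : Ideal R[X]).map (algebraMap R[X] K[X]) = M :=
      hQm.eq_of_le hM.ne_top ((Ideal.map_mono hle).trans hPmap.le)
    obtain ⟨i, hi⟩ := hF h hh
    apply hi
    have h1 : algebraMap R[X] K[X] (F i) ∈ M :=
      hIM (Ideal.mem_map_of_mem _ (Ideal.subset_span ⟨i, rfl⟩))
    rw [← hQM] at h1
    have h2 : F i ∈ ((Ideal.span {h} : Ideal R[X]).map (algebraMap R[X] K[X])).under R[X] := h1
    rw [IsLocalization.under_map_of_isPrime_disjoint S K[X] hQ hQS] at h2
    exact Ideal.mem_span_singleton.mp h2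
  · rw [Set.not_disjoint_iff] at hdis
    obtain ⟨s, hs, hsI⟩ := hdis
    obtain ⟨e, he, rfl⟩ := hs
    obtain ⟨b, hb⟩ := (Ideal.mem_span_range_iff_exists_fun).mp hsI
    exact ⟨b, e, nonZeroDivisors.ne_zero he, hb⟩

end

section

attribute [local instance] Polynomial.algebra Polynomial.isLocalization

/-- clearing denominators -/
theorem clear {A R : Type} [CommRing A] [IsDomain A] [CommRing R] [IsDomain R] [Algebra A R]
    (T : Submonoid A) [IsLocalization T R] (hT : ∀ s ∈ T, s ≠ 0) {ι : Type} [Fintype ι]
    (F : ι → A[X]) (b : ι → R[X]) (e : R) (he : e ≠ 0)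
    (h : ∑ i, b i * (F i).map (algebraMap A R) = C e) :
    ∃ (a : ι → A[X]) (d : A), d ≠ 0 ∧ ∑ i, a i * F i = C d := by
  classical
  have hloc : IsLocalization (T.map (C : A →+* A[X])) R[X] := Polynomial.isLocalization T R
  have hinj : Function.Injective (algebraMap A R) :=
    IsLocalization.injective R (fun s hs => mem_nonZeroDivisors_of_ne_zero (hT s hs))
  obtain ⟨⟨s, hs⟩, hint⟩ := IsLocalization.exist_integer_multiples_of_finite
    (T.map (C : A →+* A[X])) (S := R[X]) (fun i : Option ι => i.elim (C e) b)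
  obtain ⟨m, hm, rfl⟩ := hs
  have hm0 : m ≠ 0 := hT m hm
  choose a ha using hint
  have key : ∀ q : A[X], algebraMap A[X] R[X] q = q.map (algebraMap A R) := fun q => rfl
  have hsm : ∀ q : R[X], ((C m : A[X]) • q) = C (algebraMap A R m) * q := by
    intro q
    rw [Algebra.smul_def, key, Polynomial.map_C]
  have ha0 : (a none).map (algebraMap A R) = C (algebraMap A R m * e) := by
    have h1 := ha none
    rw [key] at h1
    rw [h1]
    change (C m : A[X]) • (C e : R[X]) = _
    rw [hsm, C_mul]
  have hai : ∀ i, (a (some i)).map (algebraMap A R) = C (algebraMap A R m) * b i := by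
    intro i
    have h1 := ha (some i)
    rw [key] at h1
    rw [h1]
    change (C m : A[X]) • (b i) = _
    rw [hsm]
  have hsum : ∑ i, a (some i) * F i = a none := by
    apply Polynomial.map_injective _ hinj
    rw [Polynomial.map_sum, ha0]
    simp only [Polynomial.map_mul, hai]
    calc ∑ i, C (algebraMap A R m) * b i * (F i).map (algebraMap A R)
        = C (algebraMap A R m) * ∑ i, b i * (F i).map (algebraMap A R) := by
          rw [Finset.mul_sum]
          exact Finset.sum_congr rfl fun i _ => by ring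
      _ = C (algebraMap A R m * e) := by rw [h, C_mul]
  have hCd : a none = C ((a none).coeff 0) := by
    ext j
    rcases Nat.eq_zero_or_pos j with rfl | hj
    · simp
    · have h1 : ((a none).map (algebraMap A R)).coeff j = 0 := by
        rw [ha0, coeff_C, if_neg hj.ne']
      rw [coeff_map] at h1
      have h2 : (a none).coeff j = 0 := hinj (by rw [h1, map_zero])
      rw [h2, coeff_C, if_neg hj.ne']
  refine ⟨fun i => a (some i), (a none).coeff 0, ?_, hsum.trans hCd⟩
  intro h0
  rw [h0, C_0] at hCd
  rw [hCd, Polynomial.map_zero] at ha0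
  have h1 : algebraMap A R m * e = 0 := C_eq_zero.mp ha0.symm
  rcases mul_eq_zero.mp h1 with h2 | h2
  · exact hm0 (hinj (by rw [h2, map_zero]))
  · exact he h2

end

end L2

open L2 in
theorem claimL2 : ClaimL2 := by
  intro n ι _ F hF
  obtain ⟨b, e, he, hb⟩ := bezout (fun i => (F i).map (MvPolynomial.map (Int.castRingHom ℚ))) hF
  letI : Algebra (MvPolynomial (Fin n) ℤ) (MvPolynomial (Fin n) ℚ) :=
    MvPolynomial.algebraMvPolynomial
  haveI : IsLocalization ((nonZeroDivisors ℤ).map (MvPolynomial.C (σ := Fin n)))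
      (MvPolynomial (Fin n) ℚ) := MvPolynomial.isLocalization (nonZeroDivisors ℤ) ℚ
  refine clear ((nonZeroDivisors ℤ).map (MvPolynomial.C (σ := Fin n))) ?_ F b e he ?_
  · rintro s ⟨z, hz, rfl⟩ h0
    have : z = 0 := (MvPolynomial.C_eq_zero (σ := Fin n)).mp h0
    exact nonZeroDivisors.ne_zero hz this
  · exact hb

end Pool.Agent.IntComm.Cst
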