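import Pool.Agent.Work.MP_584b0c_al.Cst.Stmts

set_option autoImplicit false

namespace Pool.Agent.IntComm.Cst

namespace L3

open MvPolynomial

/-- `finSuccEquiv` commutes with `map`. -/
theorem fse_map {A B : Type} [CommRing A] [CommRing B] (φ : A →+* B) (n : ℕ)
    (f : MvPolynomial (Fin (n + 1)) A) :
    finSuccEquiv B n (map φ f) = (finSuccEquiv A n f).map (map φ) := by
  induction f using MvPolynomial.induction_on with
  | C a =>
    rw [map_C]
    have h1 : ∀ (R : Type) [CommRing R] (r : R), finSuccEquiv R n (C r) =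
        Polynomial.C (C r) := by
      intro R _ r
      have h2 : (finSuccEquiv R n).symm (Polynomial.C (C r)) = C r :=
        RingHom.congr_fun (finSuccEquiv_comp_C_eq_C (R := R) n) r
      rw [← h2, AlgEquiv.apply_symm_apply]
    rw [h1, h1, Polynomial.map_C, map_C]
  | add p q hp hq => simp only [_root_.map_add, Polynomial.map_add, hp, hq]
  | mul_X p i hp =>
    simp only [_root_.map_mul, Polynomial.map_mul, hp, map_X]
    congr 1
    refine Fin.cases ?_ (fun j => ?_) i
    · rw [finSuccEquiv_X_zero, finSuccEquiv_X_zero, Polynomial.map_X]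
    · rw [finSuccEquiv_X_succ, finSuccEquiv_X_succ, Polynomial.map_C, map_X]

/-- Values modulo `p` only depend on the point modulo `p`. -/
theorem eval_cast {n : ℕ} (p : ℕ) (f : MvPolynomial (Fin n) ℤ) (s : Fin n → ℤ) :
    ((eval s f : ℤ) : ZMod p) = eval₂ (Int.castRingHom (ZMod p)) (fun k => ((s k : ℤ) : ZMod p)) f := by
  induction f using MvPolynomial.induction_on with
  | C a =>
    rw [eval_C, eval₂_C]
    rfl
  | add p q hp hq => simp [hp, hq]
  | mul_X q i hq => simp [hq]

theorem dvd_eval_congr {n : ℕ} (p : ℕ) (f : MvPolynomial (Fin n) ℤ) (s s' : Fin n → ℤ)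
    (h : ∀ k, (p : ℤ) ∣ s k - s' k) (hd : (p : ℤ) ∣ eval s f) : (p : ℤ) ∣ eval s' f := by
  rw [← ZMod.intCast_zmod_eq_zero_iff_dvd] at hd ⊢
  rw [eval_cast] at hd ⊢
  rw [← hd]
  congr 1
  funext k
  have := h k
  rw [← ZMod.intCast_zmod_eq_zero_iff_dvd, Int.cast_sub, sub_eq_zero] at this
  exact this.symm

/-- The affine substitution. -/
noncomputable def aff {A : Type} [CommRing A] {n : ℕ} (a : Fin n → A) (P : A) :
    MvPolynomial (Fin n) A →ₐ[A] MvPolynomial (Fin n) A :=
  aeval fun k => C (a k) + C P * X k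

theorem eval_aff {A : Type} [CommRing A] {n : ℕ} (a : Fin n → A) (P : A) (z : Fin n → A)
    (f : MvPolynomial (Fin n) A) : eval z (aff a P f) = eval (fun k => a k + P * z k) f := by
  induction f using MvPolynomial.induction_on with
  | C c => simp [aff]
  | add p q hp hq => simp [hp, hq]
  | mul_X q i hq => rw [map_mul, map_mul, map_mul, hq]; simp [aff]

theorem map_aff {n : ℕ} (a : Fin n → ℤ) (P : ℤ) (f : MvPolynomial (Fin n) ℤ) :
    map (Int.castRingHom ℚ) (aff a P f) =
      aff (fun k => (a k : ℚ)) (P : ℚ) (map (Int.castRingHom ℚ) f) := by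
  induction f using MvPolynomial.induction_on with
  | C c => simp [aff]
  | add p q hp hq => simp [hp, hq]
  | mul_X q i hq =>
    rw [_root_.map_mul, _root_.map_mul, _root_.map_mul, _root_.map_mul, hq]
    simp [aff]

/-- The inverse substitution over the rationals. -/
noncomputable def affInv {n : ℕ} (a : Fin n → ℚ) (P : ℚ) :
    MvPolynomial (Fin n) ℚ →ₐ[ℚ] MvPolynomial (Fin n) ℚ :=
  aeval fun k => C P⁻¹ * (X k - C (a k))

/-- The affine substitution as an equivalence. -/
noncomputable def affEquiv {n : ℕ} (a : Fin n → ℚ) (P : ℚ) (hP : P ≠ 0) :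
    MvPolynomial (Fin n) ℚ ≃ₐ[ℚ] MvPolynomial (Fin n) ℚ :=
  AlgEquiv.ofAlgHom (aff a P) (affInv a P)
    (by
      apply MvPolynomial.algHom_ext
      intro k
      simp only [AlgHom.comp_apply, affInv, aff, aeval_X, map_mul, map_sub, AlgHom.coe_id, id]
      rw [show (aeval fun k => C (a k) + C P * X k : MvPolynomial (Fin n) ℚ →ₐ[ℚ] _) (C P⁻¹) =
        C P⁻¹ from by simp, show (aeval fun k => C (a k) + C P * X k :
          MvPolynomial (Fin n) ℚ →ₐ[ℚ] _) (C (a k)) = C (a k) from by simp]
      rw [add_sub_cancel_left, ← mul_assoc, ← C_mul, inv_mul_cancel₀ hP, C_1, one_mul])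
    (by
      apply MvPolynomial.algHom_ext
      intro k
      simp only [AlgHom.comp_apply, affInv, aff, aeval_X, map_mul, map_add, AlgHom.coe_id, id]
      rw [show (aeval fun k => C P⁻¹ * (X k - C (a k)) : MvPolynomial (Fin n) ℚ →ₐ[ℚ] _) (C P) =
        C P from by simp, show (aeval fun k => C P⁻¹ * (X k - C (a k)) :
          MvPolynomial (Fin n) ℚ →ₐ[ℚ] _) (C (a k)) = C (a k) from by simp]
      rw [← mul_assoc, ← C_mul, mul_inv_cancel₀ hP, C_1, one_mul, add_sub_cancel])

theorem affEquiv_apply {n : ℕ} (a : Fin n → ℚ) (P : ℚ) (hP : P ≠ 0) (f : MvPolynomial (Fin n) ℚ) :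
    affEquiv a P hP f = aff a P f := rfl

theorem aff_ne_zero {n : ℕ} (a : Fin n → ℤ) (P : ℤ) (hP : P ≠ 0) (f : MvPolynomial (Fin n) ℤ)
    (hf : f ≠ 0) : aff a P f ≠ 0 := by
  intro h0
  apply hf
  apply MvPolynomial.map_injective (Int.castRingHom ℚ) Int.cast_injective
  have hP' : (P : ℚ) ≠ 0 := Int.cast_ne_zero.2 hP
  apply (affEquiv (fun k => (a k : ℚ)) (P : ℚ) hP').injective
  rw [affEquiv_apply, ← map_aff, h0]
  simp

/-- Chinese remainder theorem for a finite set of primes. -/
theorem crt (S : Finset ℕ) (hS : ∀ p ∈ S, p.Prime) (x : ℕ → ℤ) :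
    ∃ a : ℤ, ∀ p ∈ S, (p : ℤ) ∣ a - x p := by
  induction S using Finset.induction_on with
  | empty => exact ⟨0, fun p hp => absurd hp (Finset.notMem_empty p)⟩
  | insert q S hq ih =>
    obtain ⟨a, ha⟩ := ih fun p hp => hS p (Finset.mem_insert_of_mem hp)
    have hcop : IsCoprime ((∏ p ∈ S, (p : ℤ))) (q : ℤ) := by
      apply IsCoprime.prod_left
      intro p hp
      rw [Nat.isCoprime_iff_coprime]
      exact (Nat.coprime_primes (hS p (Finset.mem_insert_of_mem hp))
        (hS q (Finset.mem_insert_self q S))).2 (fun h => hq (h ▸ hp))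
    obtain ⟨u, v, huv⟩ := hcop
    refine ⟨a + u * (∏ p ∈ S, (p : ℤ)) * (x q - a), fun p hp => ?_⟩
    rcases Finset.mem_insert.1 hp with rfl | hp'
    · refine ⟨-(v * (x p - a)), ?_⟩
      linear_combination (x p - a) * huv
    · obtain ⟨c, hc⟩ := ha p hp'
      obtain ⟨d, hd⟩ := Finset.dvd_prod_of_mem (fun p : ℕ => (p : ℤ)) hp'
      refine ⟨c + u * d * (x q - a), ?_⟩
      rw [hd]
      linear_combination hc

end L3

open MvPolynomial L3 in
theorem claimL3 (hL1 : ClaimL1) (hL2 : ClaimL2) : ClaimL3 := by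
  intro n
  induction n with
  | zero =>
    intro ι _ F g hg h1 _
    refine ⟨fun k => k.elim0, ?_, ?_⟩
    · rw [MvPolynomial.eq_C_of_isEmpty g, eval_C]
      intro h0
      apply hg
      rw [MvPolynomial.eq_C_of_isEmpty g, h0, C_0]
    · intro p hp
      obtain ⟨x, i, hi⟩ := h1 p hp
      refine ⟨i, ?_⟩
      rwa [show (fun k : Fin 0 => (k.elim0 : ℤ)) = x from Subsingleton.elim _ _]
  | succ n ih =>
    intro ι _ F g hg h1 h2
    classical
    -- polynomials in the variable 0
    obtain ⟨a₁, d, hd, had⟩ := hL2 n ι (fun i => finSuccEquiv ℤ n (F i)) (by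
      intro h hh
      have hE : Prime ((finSuccEquiv ℚ n).symm h) :=
        (MulEquiv.prime_iff (finSuccEquiv ℚ n).symm.toMulEquiv).2 hh
      obtain ⟨i, hi⟩ := h2 _ hE
      refine ⟨i, fun hdv => hi ?_⟩
      rw [← fse_map] at hdv
      have h3 := map_dvd (finSuccEquiv ℚ n).symm hdv
      rwa [AlgEquiv.symm_apply_apply] at h3)
    set D : ℕ := Finset.univ.sup fun i : ι => (finSuccEquiv ℤ n (F i)).natDegree with hD
    have hDi : ∀ i, (finSuccEquiv ℤ n (F i)).natDegree ≤ D := fun i =>
      Finset.le_sup (f := fun i : ι => (finSuccEquiv ℤ n (F i)).natDegree) (Finset.mem_univ i)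
    set S : Finset ℕ := (Finset.range (D + 1)).filter Nat.Prime with hS
    have hSp : ∀ p ∈ S, p.Prime := fun p hp => (Finset.mem_filter.1 hp).2
    have hSD : ∀ p : ℕ, p.Prime → p ≤ D → p ∈ S := fun p hp hpD =>
      Finset.mem_filter.2 ⟨Finset.mem_range.2 (by omega), hp⟩
    set P : ℤ := ∏ p ∈ S, (p : ℤ) with hP
    have hP0 : P ≠ 0 := by
      rw [hP, Finset.prod_ne_zero_iff]
      intro p hp
      exact_mod_cast (hSp p hp).ne_zero
    -- the local points
    have h1' : ∀ p : ℕ, ∃ x : Fin (n + 1) → ℤ, p.Prime → ∃ i : ι, ¬ (p : ℤ) ∣ eval x (F i) := by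
      intro p
      by_cases hp : p.Prime
      · obtain ⟨x, i, hi⟩ := h1 p hp
        exact ⟨x, fun _ => ⟨i, hi⟩⟩
      · exact ⟨0, fun h => absurd h hp⟩
    choose x hx using h1'
    choose a ha using fun k : Fin n => crt S hSp fun p => x p k.succ
    have hcons : ∀ (s : Fin n → ℤ) (y : ℤ) (i : ι), eval (Fin.cons y s : Fin (n + 1) → ℤ) (F i) =
        ((finSuccEquiv ℤ n (F i)).map (eval s)).eval y := fun s y i =>
      eval_eq_eval_mv_eval' s y (F i)
    have hxc : ∀ p : ℕ, x p = (Fin.cons (x p 0) (fun k : Fin n => x p k.succ) :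
        Fin (n + 1) → ℤ) := by
      intro p
      funext k
      refine Fin.cases ?_ (fun j => ?_) k
      · rw [Fin.cons_zero]
      · rw [Fin.cons_succ]
    -- some coefficient is nonzero modulo p
    have hcoef : ∀ (p : ℕ) (s : Fin n → ℤ) (y : ℤ) (i : ι),
        ¬ (p : ℤ) ∣ eval (Fin.cons y s : Fin (n + 1) → ℤ) (F i) →
        ∃ j : Fin (D + 1), ¬ (p : ℤ) ∣ eval s ((finSuccEquiv ℤ n (F i)).coeff j) := by
      intro p s y i hi
      by_contra hcon
      push Not at hcon
      apply hi
      rw [hcons, Polynomial.eval_eq_sum_range]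
      apply Finset.dvd_sum
      intro j hj
      apply Dvd.dvd.mul_right
      rw [Polynomial.coeff_map]
      have hj' : j < D + 1 := by
        have h5 := Finset.mem_range.1 hj
        have h6 := Polynomial.natDegree_map_le (f := eval s) (p := finSuccEquiv ℤ n (F i))
        have h7 := hDi i
        omega
      exact hcon ⟨j, hj'⟩
    -- leading coefficient of g
    have hg' : finSuccEquiv ℤ n g ≠ 0 := by
      intro h0
      exact hg ((finSuccEquiv ℤ n).map_eq_zero_iff.1 h0)
    set c : MvPolynomial (Fin n) ℤ := (finSuccEquiv ℤ n g).leadingCoeff with hc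
    have hc0 : c ≠ 0 := Polynomial.leadingCoeff_ne_zero.2 hg'
    obtain ⟨z, hz1, hz2⟩ := ih (ι × Fin (D + 1))
      (fun ij => aff a P ((finSuccEquiv ℤ n (F ij.1)).coeff ij.2)) (aff a P (c * d))
      (aff_ne_zero a P hP0 _ (mul_ne_zero hc0 hd))
      (by
        intro p hp
        obtain ⟨i, hi⟩ := hx p hp
        rw [hxc p] at hi
        obtain ⟨j, hj⟩ := hcoef p _ _ i hi
        -- a point z with a + P z congruent to the local point
        have hzex : ∃ z : Fin n → ℤ, ∀ k, (p : ℤ) ∣ (a k + P * z k) - x p k.succ := by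
          by_cases hpD : p ≤ D
          · exact ⟨0, fun k => by simpa using ha k p (hSD p hp hpD)⟩
          · have hcop : IsCoprime P (p : ℤ) := by
              rw [hP]
              apply IsCoprime.prod_left
              intro q hq
              rw [Nat.isCoprime_iff_coprime]
              refine (Nat.coprime_primes (hSp q hq) hp).2 ?_
              intro h
              have := Finset.mem_range.1 (Finset.mem_filter.1 hq).1
              omega
            obtain ⟨u, v, huv⟩ := hcop
            refine ⟨fun k => u * (x p k.succ - a k), fun k => ⟨-(v * (x p k.succ - a k)), ?_⟩⟩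
            linear_combination (x p k.succ - a k) * huv
        obtain ⟨z, hz⟩ := hzex
        refine ⟨z, (i, j), fun hdv => hj ?_⟩
        rw [eval_aff] at hdv
        exact dvd_eval_congr p _ _ _ hz hdv)
      (by
        intro h hh
        by_contra hcon
        push Not at hcon
        have hP' : (P : ℚ) ≠ 0 := Int.cast_ne_zero.2 hP0
        set E := affEquiv (fun k => (a k : ℚ)) (P : ℚ) hP' with hE
        have hh' : Prime (E.symm h) := (MulEquiv.prime_iff E.symm.toMulEquiv).2 hh
        have hh'' : Prime ((finSuccEquiv ℚ n).symm (Polynomial.C (E.symm h))) :=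
          (MulEquiv.prime_iff (finSuccEquiv ℚ n).symm.toMulEquiv).2
            (Polynomial.prime_C_iff.2 hh')
        obtain ⟨i, hi⟩ := h2 _ hh''
        apply hi
        have h3 : Polynomial.C (E.symm h) ∣
            finSuccEquiv ℚ n (map (Int.castRingHom ℚ) (F i)) := by
          rw [Polynomial.C_dvd_iff_dvd_coeff]
          intro j
          rw [fse_map, Polynomial.coeff_map]
          by_cases hj : j < D + 1
          · have h4 := hcon (i, ⟨j, hj⟩)
            rw [map_aff, ← affEquiv_apply _ _ hP'] at h4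
            have h5 := map_dvd E.symm h4
            rwa [← hE, AlgEquiv.symm_apply_apply] at h5
          · rw [Polynomial.coeff_eq_zero_of_natDegree_lt (lt_of_le_of_lt (hDi i) (by omega)),
              _root_.map_zero]
            exact dvd_zero _
        have h6 := map_dvd (finSuccEquiv ℚ n).symm h3
        rwa [AlgEquiv.symm_apply_apply] at h6)
    set s : Fin n → ℤ := fun k => a k + P * z k with hs
    rw [eval_aff, _root_.map_mul] at hz1
    have hcs : eval s c ≠ 0 := left_ne_zero_of_mul hz1
    have hds : eval s d ≠ 0 := right_ne_zero_of_mul hz1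
    have hg'' : (finSuccEquiv ℤ n g).map (eval s) ≠ 0 := by
      intro h0
      apply hcs
      have := congrArg (fun q => Polynomial.coeff q (finSuccEquiv ℤ n g).natDegree) h0
      simp only [Polynomial.coeff_map, Polynomial.coeff_zero] at this
      exact this
    obtain ⟨y, hy1, hy2⟩ := hL1 ι (fun i => (finSuccEquiv ℤ n (F i)).map (eval s))
      ((finSuccEquiv ℤ n g).map (eval s)) D hg''
      (fun i => le_trans Polynomial.natDegree_map_le (hDi i))
      (by
        intro p hp
        obtain ⟨⟨i, j⟩, hij⟩ := hz2 p hp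
        refine ⟨i, fun h0 => hij ?_⟩
        rw [eval_aff]
        have := congrArg (fun q => Polynomial.coeff q (j : ℕ)) h0
        simp only [Polynomial.coeff_map, Polynomial.coeff_zero] at this
        rw [← ZMod.intCast_zmod_eq_zero_iff_dvd]
        simpa using this)
      (by
        intro p hp hpD
        obtain ⟨i, hi⟩ := hx p hp
        refine ⟨x p 0, i, fun hdv => hi ?_⟩
        rw [← hcons] at hdv
        refine dvd_eval_congr p _ _ _ ?_ hdv
        intro k
        refine Fin.cases ?_ (fun j => ?_) k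
        · rw [Fin.cons_zero, sub_self]
          exact dvd_zero _
        · rw [Fin.cons_succ, hs]
          obtain ⟨u, hu⟩ := ha j p (hSD p hp hpD)
          obtain ⟨v, hv⟩ := Finset.dvd_prod_of_mem (fun p : ℕ => (p : ℤ)) (hSD p hp hpD)
          refine ⟨u + v * z j, ?_⟩
          simp only
          rw [hP, hv]
          linear_combination hu)
      ⟨fun i => (a₁ i).map (eval s), eval s d, hds, by
        have := congrArg (Polynomial.map (eval s)) had
        rw [Polynomial.map_sum, Polynomial.map_C] at this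
        rw [← this]
        exact Finset.sum_congr rfl fun i _ => (Polynomial.map_mul _).symm⟩
    refine ⟨Fin.cons y s, ?_, ?_⟩
    · rw [eval_eq_eval_mv_eval']
      exact hy1
    · intro p hp
      obtain ⟨i, hi⟩ := hy2 p hp
      refine ⟨i, ?_⟩
      rw [hcons]
      exact hi

end Pool.Agent.IntComm.Cst
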