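import Pool.Agent.Work.MP_584b0c_al.Cst.Stmts

set_option autoImplicit false

namespace Pool.Agent.IntComm.Cst

open MvPolynomial in
theorem claimL4 (hL3 : ClaimL3) : ClaimL4 := by
  intro V _ ι _ F h1 h2
  classical
  let e : V ≃ Fin (Fintype.card V) := Fintype.equivFin V
  have h1' : ∀ p : ℕ, p.Prime → ∃ (x : Fin (Fintype.card V) → ℤ) (i : ι),
      ¬ (p : ℤ) ∣ MvPolynomial.eval x (MvPolynomial.rename e (F i)) := by
    intro p hp
    obtain ⟨x, i, hi⟩ := h1 p hp
    refine ⟨fun j => x (e.symm j), i, ?_⟩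
    rw [MvPolynomial.eval_rename]
    have : (fun j => x (e.symm j)) ∘ e = x := by
      funext v
      simp
    rwa [this]
  have h2' : ∀ h : MvPolynomial (Fin (Fintype.card V)) ℚ, Prime h →
      ∃ i, ¬ h ∣ MvPolynomial.map (Int.castRingHom ℚ) (MvPolynomial.rename e (F i)) := by
    intro h hh
    let E := MvPolynomial.renameEquiv ℚ e
    have hE : Prime (E.symm h) := (MulEquiv.prime_iff E.symm.toMulEquiv).2 hh
    obtain ⟨i, hi⟩ := h2 (E.symm h) hE
    refine ⟨i, fun hd => hi ?_⟩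
    rw [MvPolynomial.map_rename] at hd
    have h3 := map_dvd E.symm hd
    have h4 : E.symm (MvPolynomial.rename e (MvPolynomial.map (Int.castRingHom ℚ) (F i))) =
        MvPolynomial.map (Int.castRingHom ℚ) (F i) := by
      rw [AlgEquiv.symm_apply_eq]
      rfl
    rwa [h4] at h3
  obtain ⟨x, -, hx⟩ := hL3 (Fintype.card V) ι (fun i => MvPolynomial.rename e (F i)) 1
    one_ne_zero h1' h2'
  refine ⟨fun v => x (e v), fun p hp => ?_⟩
  obtain ⟨i, hi⟩ := hx p hp
  refine ⟨i, ?_⟩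
  rwa [MvPolynomial.eval_rename] at hi

end Pool.Agent.IntComm.Cst
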