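import Pool.Agent.Work.MP_584b0c_al.Cst.Stmts

set_option autoImplicit false

/-!
Item G0 of the third part: the move lemma.
-/

namespace Pool.Agent.IntComm.Cst

open Matrix Polynomial

theorem claimMove : ClaimMove := by
  intro A _ _ φ hφ h P P' c _ hP' h1 h2 hdP hdP'
  obtain ⟨q, rfl⟩ := hdP'
  obtain ⟨r, rfl⟩ := hdP
  have hmul : φ h * φ q = C (h * q) := by rw [← map_mul, h1]
  have hC : (C (h * q) : A[X]) ≠ 0 := by
    rw [Ne, C_eq_zero]
    exact hP'
  have hh : φ h ≠ 0 := by
    intro h0
    rw [h0, zero_mul] at hmul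
    exact hC hmul.symm
  have hq : φ q ≠ 0 := by
    intro h0
    rw [h0, mul_zero] at hmul
    exact hC hmul.symm
  have hdeg : (φ h).natDegree = 0 := by
    have h3 := natDegree_mul hh hq
    rw [hmul, natDegree_C] at h3
    omega
  have hφh : φ h = C h := by
    have h3 := eq_C_of_natDegree_eq_zero hdeg
    have h4 := hφ h
    rw [h3, eval_C] at h4
    rw [h3, h4]
  have h5 : C h * φ r = C (h * r) + C c * X := by rw [← hφh, ← map_mul, h2]
  have h6 := congrArg (fun p : A[X] => p.coeff 1) h5
  simp only [coeff_C_mul, coeff_add, coeff_X_one, mul_one] at h6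
  rw [coeff_C, if_neg one_ne_zero, zero_add] at h6
  exact ⟨_, h6.symm⟩

end Pool.Agent.IntComm.Cst
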