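import Pool.Agent.Work.MP_584b0c_al.Cst.Stmts

set_option autoImplicit false

/-!
MP_584b0c_al, part 3, item N0: from chains to the filtration, with reindexing.
-/

namespace Pool.Agent.IntComm.Cst

open Matrix Polynomial

namespace N0

variable {K : Type} [Field K] {k N : ℕ}

/-- The span of the first vectors of the chain. -/
def sp (S : Matrix (Fin N) (Fin k ⊕ Fin N) K) (M : ℕ) : Submodule K (Fin N → K) :=
  Submodule.span K (chain S '' {a | a < M})

theorem sp_eq (S : Matrix (Fin N) (Fin k ⊕ Fin N) K) (M : ℕ) :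
    Submodule.span K (Set.range fun a : Fin M => chain S a) = sp S M := by
  unfold sp
  congr 1
  ext v
  constructor
  · rintro ⟨a, rfl⟩
    exact ⟨a, a.2, rfl⟩
  · rintro ⟨a, ha, rfl⟩
    exact ⟨⟨a, ha⟩, rfl⟩

theorem sp_Wf (hA0 : ClaimChain) (hk : 0 < k) (S : Matrix (Fin N) (Fin k ⊕ Fin N) K) (i : ℕ) :
    sp S (i * k) = Wf S i := by
  induction i with
  | zero =>
    simp [sp, Wf]
  | succ i ih =>
    have hset : {a : ℕ | a < (i + 1) * k} = {a | a < k} ∪ (fun a => a + k) '' {a | a < i * k} := by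
      ext a
      simp only [Set.mem_setOf_eq, Set.mem_union, Set.mem_image]
      constructor
      · intro h
        rcases lt_or_ge a k with h1 | h1
        · exact Or.inl h1
        · refine Or.inr ⟨a - k, ?_, by omega⟩
          rw [add_mul, one_mul] at h
          omega
      · rintro (h | ⟨b, hb, rfl⟩)
        · rw [add_mul, one_mul]
          omega
        · rw [add_mul, one_mul]
          omega
    unfold sp
    rw [hset, Set.image_union, Submodule.span_union]
    simp only [Wf]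
    congr 1
    · rw [Matrix.range_mulVecLin]
      congr 1
      ext v
      constructor
      · rintro ⟨a, ha, rfl⟩
        refine ⟨⟨a, ha⟩, ?_⟩
        have := hA0.1 K k N S ⟨a, ha⟩
        simp only at this
        rw [this]
        rfl
      · rintro ⟨a, rfl⟩
        refine ⟨a, a.2, ?_⟩
        rw [hA0.1 K k N S a]
        rfl
    · rw [← ih]
      unfold sp
      rw [Submodule.map_span]
      congr 1
      ext v
      constructor
      · rintro ⟨_, ⟨a, ha, rfl⟩, rfl⟩
        refine ⟨chain S a, ⟨a, ha, rfl⟩, ?_⟩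
        simp only
        rw [hA0.2.1 K k N S a hk]
        rfl
      · rintro ⟨_, ⟨a, ha, rfl⟩, rfl⟩
        refine ⟨a + k, ⟨a, ha, rfl⟩, ?_⟩
        rw [hA0.2.1 K k N S a hk]
        rfl

theorem Wf_submatrix {κ ρ κ' ρ' : Type} [Fintype κ] [Fintype ρ] [Fintype κ'] [Fintype ρ']
    (e₁ : κ ≃ κ') (e₂ : ρ ≃ ρ') (S : Matrix ρ' (κ' ⊕ ρ') K) (i : ℕ) :
    Wf (S.submatrix e₂ (Sum.map e₁ e₂)) i =
      (Wf S i).map (LinearEquiv.funCongrLeft K K e₂ : (ρ' → K) →ₗ[K] (ρ → K)) := by
  have h1 : ∀ x : κ → K, (S.submatrix e₂ (Sum.map e₁ e₂)).toCols₁.mulVec x =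
      fun a => S.toCols₁.mulVec (fun b => x (e₁.symm b)) (e₂ a) := by
    intro x
    funext a
    simp only [Matrix.mulVec, dotProduct]
    rw [← e₁.sum_comp]
    refine Finset.sum_congr rfl (fun b _ => ?_)
    simp [Matrix.toCols₁]
  have h2 : ∀ x : ρ → K, (S.submatrix e₂ (Sum.map e₁ e₂)).toCols₂.mulVec x =
      fun a => S.toCols₂.mulVec (fun b => x (e₂.symm b)) (e₂ a) := by
    intro x
    funext a
    simp only [Matrix.mulVec, dotProduct]
    rw [← e₂.sum_comp]
    refine Finset.sum_congr rfl (fun b _ => ?_)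
    simp [Matrix.toCols₂]
  induction i with
  | zero => simp [Wf]
  | succ i ih =>
    simp only [Wf]
    rw [ih, Submodule.map_sup]
    congr 1
    · ext v
      constructor
      · rintro ⟨x, rfl⟩
        refine ⟨S.toCols₁.mulVec (fun b => x (e₁.symm b)), ⟨_, rfl⟩, ?_⟩
        rw [Matrix.mulVecLin_apply, h1]
        rfl
      · rintro ⟨_, ⟨x, rfl⟩, rfl⟩
        refine ⟨fun a => x (e₁ a), ?_⟩
        rw [Matrix.mulVecLin_apply, h1]
        simp only [Equiv.apply_symm_apply]
        rfl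
    · ext v
      constructor
      · rintro ⟨_, ⟨x, hx, rfl⟩, rfl⟩
        refine ⟨S.toCols₂.mulVec x, ⟨x, hx, rfl⟩, ?_⟩
        rw [Matrix.mulVecLin_apply, h2]
        funext a
        simp [LinearEquiv.funCongrLeft_apply, LinearMap.funLeft_apply]
      · rintro ⟨_, ⟨x, hx, rfl⟩, rfl⟩
        refine ⟨_, ⟨x, hx, rfl⟩, ?_⟩
        rw [Matrix.mulVecLin_apply, h2]
        funext a
        simp [LinearEquiv.funCongrLeft_apply, LinearMap.funLeft_apply]

end N0

open N0 in
theorem claimN0 (hA0 : ClaimChain) : ClaimN0 := by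
  intro κ ρ _ _ k N t e₁ e₂ R hk hR p _
  have hmap : (R.submatrix e₂ (Sum.map e₁ e₂)).map (Int.castRingHom (ZMod p)) =
      (R.map (Int.castRingHom (ZMod p))).submatrix e₂ (Sum.map e₁ e₂) := rfl
  obtain ⟨h1, h2⟩ := hR p
  rw [hmap, Wf_submatrix, Wf_submatrix]
  constructor
  · rw [LinearEquiv.finrank_map_eq, ← sp_Wf hA0 hk, ← sp_eq]
    have h3 := finrank_span_eq_card h1
    rw [h3, Fintype.card_fin]
    congr 1
    rw [Fintype.card_congr e₁, Fintype.card_fin]
  · rw [← sp_Wf hA0 hk, ← sp_eq, h2]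
    simp

end Pool.Agent.IntComm.Cst
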