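import Pool.Agent.Work.MP_584b0c_al.Cst.Stmts
import Pool.Agent.Work.MP_584b0c_al.Complete
import Pool.Agent.Work.MP_584b0c_al.Split

set_option autoImplicit false

/-!
MP_584b0c_al, part 3, item N1: start of the normal form.
-/

namespace Pool.Agent.IntComm.Cst

open Matrix Polynomial

namespace N1

variable {κ σ : Type} [Fintype κ] [DecidableEq κ] [Fintype σ] [DecidableEq σ]

theorem pind (m : Matrix σ κ ℤ)
    (h : ∀ (p : ℕ) [Fact p.Prime],
      LinearMap.range (m.map (Int.castRingHom (ZMod p))).mulVecLin = ⊤) : PInd mᵀ := by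
  intro p hp x hx
  have : Fact p.Prime := ⟨hp⟩
  funext i
  have h1 : (Pi.single i 1 : σ → ZMod p) ∈
      LinearMap.range (m.map (Int.castRingHom (ZMod p))).mulVecLin := by
    rw [h p]
    exact Submodule.mem_top
  obtain ⟨y, hy⟩ := h1
  have h2 : x ⬝ᵥ (m.map (Int.castRingHom (ZMod p))).mulVec y = x i := by
    rw [← Matrix.mulVecLin_apply, hy]
    simp
  have h3 : Matrix.vecMul x (m.map (Int.castRingHom (ZMod p))) = 0 := by
    rw [← Matrix.mulVec_transpose]
    exact hx
  rw [Matrix.dotProduct_mulVec, h3, zero_dotProduct] at h2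
  exact h2.symm

end N1

theorem claimN1 : ClaimN1 := by
  intro τ σ _ _ _ _ R hR
  set m : Matrix σ (τ ⊕ σ) ℤ := R.toCols₁ with hm
  set M : Matrix σ σ ℤ := R.toCols₂ with hM
  have hP : PInd mᵀ := N1.pind m (fun p _ => by
    have h := (hR p).2
    simp only [Wf, Submodule.map_bot, sup_bot_eq] at h
    exact h)
  obtain ⟨-, K, -, hK, -⟩ := claimComplete (τ ⊕ σ) σ mᵀ (Fintype.card τ) hP (by
    rw [Fintype.card_sum, add_comm])
  have hmK : m * Kᵀ = 1 := by
    have h1 := congrArg Matrix.transpose hK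
    rwa [Matrix.transpose_mul, Matrix.transpose_transpose, Matrix.transpose_one] at h1
  obtain ⟨g, g', h1, h2, h3⟩ := claimSplit claimComplete (τ ⊕ σ) σ (Fintype.card τ) m Kᵀ hmK (by
    rw [Fintype.card_sum])
  set e' : τ ⊕ σ ≃ Fin (Fintype.card τ) ⊕ σ :=
    Equiv.sumCongr (Fintype.equivFin τ) (Equiv.refl σ) with he'
  have e1 : g.submatrix id e' * g'.submatrix e' id = 1 := by
    rw [Matrix.submatrix_mul_equiv g g' id e' id, h1]
    simp
  have e2 : g'.submatrix e' id * g.submatrix id e' = 1 := by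
    have : g'.submatrix e' id * g.submatrix id e' = (g' * g).submatrix e' e' := rfl
    rw [this, h2]
    simp
  refine ⟨⟨g.submatrix id e', g'.submatrix e' id, e1, e2⟩, -(Kᵀ * M), ?_⟩
  have hR' : R = fromCols m M := (Matrix.fromCols_toCols R).symm
  have hmT : m * g.submatrix id e' = fromCols 0 1 := by
    have : m * g.submatrix id e' = (m * g).submatrix id e' := rfl
    rw [this, h3]
    ext i j
    rcases j with j | j <;> simp [he', Matrix.one_apply]
  rw [hR']
  refine (Matrix.fromCols_mul_fromBlocks m M (g.submatrix id e') (-(Kᵀ * M)) 0 1).trans ?_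
  simp only [Matrix.mul_zero, add_zero, Matrix.mul_neg, Matrix.mul_one]
  rw [hmT, ← Matrix.mul_assoc, hmK, Matrix.one_mul, neg_add_cancel]

end Pool.Agent.IntComm.Cst
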