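import Pool.Agent.Work.MP_584b0c_al.Cst.Stmts
import Pool.Agent.Work.MP_584b0c_al.Complete

set_option autoImplicit false

/-! MP_584b0c_al, third part, item N2: one step of the normal form (helper18). -/

namespace Pool.Agent.IntComm.Cst

open Matrix Polynomial

namespace N2

section field

variable {K κ ρ : Type} [Field K] [Fintype κ] [DecidableEq κ] [Fintype ρ] [DecidableEq ρ]

omit [DecidableEq κ] in
theorem finrank_Wf_le {n : Type} [Fintype n] (R : Matrix n (κ ⊕ n) K) (i : ℕ) :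
    Module.finrank K (Wf R i) ≤ i * Module.finrank K (LinearMap.range R.toCols₁.mulVecLin) := by
  induction i with
  | zero =>
    show Module.finrank K (⊥ : Submodule K (n → K)) ≤ _
    rw [finrank_bot]
    exact Nat.zero_le _
  | succ i ih =>
    have h1 : Module.finrank K (Wf R (i + 1)) ≤
        Module.finrank K (LinearMap.range R.toCols₁.mulVecLin) +
          Module.finrank K ((Wf R i).map R.toCols₂.mulVecLin) :=
      Submodule.finrank_add_le_finrank_add_finrank _ _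
    have h2 := Submodule.finrank_map_le R.toCols₂.mulVecLin (Wf R i)
    rw [Nat.succ_mul]
    omega

/-- The filtration of the reduced pencil. -/
theorem Wf_succ (R : Matrix (κ ⊕ ρ) (κ ⊕ (κ ⊕ ρ)) K) (B : Matrix (κ ⊕ ρ) ρ K)
    (P : Matrix κ (κ ⊕ ρ) K) (L : Matrix ρ (κ ⊕ ρ) K) (h : R.toCols₁ * P + B * L = 1)
    (R' : Matrix ρ (κ ⊕ ρ) K) (h1 : R'.toCols₁ = L * (R.toCols₂ * R.toCols₁))
    (h2 : R'.toCols₂ = L * (R.toCols₂ * B)) (i : ℕ) :
    Wf R (i + 1) = LinearMap.range R.toCols₁.mulVecLin ⊔ (Wf R' i).map B.mulVecLin := by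
  have hdec : ∀ x : κ ⊕ ρ → K, x = R.toCols₁.mulVec (P.mulVec x) + B.mulVec (L.mulVec x) := by
    intro x
    rw [mulVec_mulVec, mulVec_mulVec, ← Matrix.add_mulVec, h, one_mulVec]
  induction i with
  | zero => simp [Wf]
  | succ i ih =>
    have e1 : Wf R (i + 1 + 1) = LinearMap.range R.toCols₁.mulVecLin ⊔
        (Wf R (i + 1)).map R.toCols₂.mulVecLin := rfl
    have e2 : Wf R' (i + 1) = LinearMap.range R'.toCols₁.mulVecLin ⊔
        (Wf R' i).map R'.toCols₂.mulVecLin := rfl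
    rw [e1, e2, ih]
    apply le_antisymm
    · rw [sup_le_iff]
      refine ⟨le_sup_left, ?_⟩
      rintro y ⟨z, hz, rfl⟩
      obtain ⟨a, ⟨u, rfl⟩, b, ⟨v, hv, rfl⟩, rfl⟩ := Submodule.mem_sup.1 hz
      rw [mulVecLin_apply, hdec (R.toCols₂.mulVec _)]
      refine Submodule.add_mem_sup ⟨_, rfl⟩ ?_
      refine ⟨L.mulVec (R.toCols₂.mulVec (R.toCols₁.mulVecLin u + B.mulVecLin v)), ?_, rfl⟩
      rw [Matrix.mulVec_add, Matrix.mulVec_add]
      refine Submodule.add_mem_sup ⟨u, ?_⟩ ⟨v, hv, ?_⟩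
      · rw [h1, mulVecLin_apply, mulVecLin_apply, ← mulVec_mulVec, ← mulVec_mulVec]
      · rw [h2, mulVecLin_apply, mulVecLin_apply, ← mulVec_mulVec, ← mulVec_mulVec]
    · rw [sup_le_iff]
      refine ⟨le_sup_left, ?_⟩
      have key : ∀ x : κ ⊕ ρ → K, x ∈ LinearMap.range R.toCols₁.mulVecLin ⊔
          (Wf R' i).map B.mulVecLin → B.mulVec (L.mulVec (R.toCols₂.mulVec x)) ∈
          LinearMap.range R.toCols₁.mulVecLin ⊔ (LinearMap.range R.toCols₁.mulVecLin ⊔
            (Wf R' i).map B.mulVecLin).map R.toCols₂.mulVecLin := by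
        intro x hx
        have h3 := hdec (R.toCols₂.mulVec x)
        have h4 : B.mulVec (L.mulVec (R.toCols₂.mulVec x)) =
            -R.toCols₁.mulVec (P.mulVec (R.toCols₂.mulVec x)) + R.toCols₂.mulVec x := by
          nth_rewrite 3 [h3]
          rw [neg_add_cancel_left]
        rw [h4]
        refine Submodule.add_mem_sup (Submodule.neg_mem _ ⟨_, rfl⟩) ⟨x, hx, rfl⟩
      rintro y ⟨z, hz, rfl⟩
      obtain ⟨a, ⟨u, rfl⟩, b, ⟨v, hv, rfl⟩, rfl⟩ := Submodule.mem_sup.1 hz
      rw [map_add]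
      refine Submodule.add_mem _ ?_ ?_
      · rw [h1, mulVecLin_apply, mulVecLin_apply, ← mulVec_mulVec, ← mulVec_mulVec]
        exact key _ (Submodule.mem_sup_left ⟨u, rfl⟩)
      · rw [h2, mulVecLin_apply, mulVecLin_apply, ← mulVec_mulVec, ← mulVec_mulVec]
        exact key _ (Submodule.mem_sup_right ⟨v, hv, rfl⟩)

end field

end N2

theorem claimN2 : ClaimN2 := by
  intro κ ρ _ _ _ _ t R hR
  have hm : PInd R.toCols₁ := by
    intro p hp
    have : Fact p.Prime := ⟨hp⟩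
    obtain ⟨h1, -⟩ := hR p
    have h2 := N2.finrank_Wf_le (R.map (Int.castRingHom (ZMod p))) (t + 1)
    rw [h1] at h2
    have h3 := Nat.le_of_mul_le_mul_left h2 (Nat.succ_pos t)
    have h4 := LinearMap.finrank_range_add_finrank_ker
      (R.map (Int.castRingHom (ZMod p))).toCols₁.mulVecLin
    rw [Module.finrank_fintype_fun_eq_card] at h4
    have h5 : LinearMap.ker (R.map (Int.castRingHom (ZMod p))).toCols₁.mulVecLin = ⊥ := by
      apply Submodule.finrank_eq_zero.1
      omega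
    intro x hx
    have h6 : x ∈ LinearMap.ker (R.map (Int.castRingHom (ZMod p))).toCols₁.mulVecLin := hx
    rw [h5] at h6
    exact (Submodule.mem_bot _).1 h6
  obtain ⟨B₀, P, L₀, hPm, hLB₀, hPB₀, hLm₀, hsum₀⟩ := claimComplete (κ ⊕ ρ) κ R.toCols₁
    (Fintype.card ρ) hm (by rw [Fintype.card_sum])
  set e : ρ ≃ Fin (Fintype.card ρ) := Fintype.equivFin ρ with he
  obtain ⟨B, hB⟩ : ∃ B : Matrix (κ ⊕ ρ) ρ ℤ, B = B₀.submatrix id e := ⟨_, rfl⟩
  obtain ⟨L, hL⟩ : ∃ L : Matrix ρ (κ ⊕ ρ) ℤ, L = L₀.submatrix e id := ⟨_, rfl⟩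
  have hLB : L * B = 1 := by
    rw [hL, hB, ← Matrix.submatrix_mul _ _ _ _ _ Function.bijective_id, hLB₀,
      Matrix.submatrix_one_equiv]
  have hPB : P * B = 0 := by
    have : P = P.submatrix id id := rfl
    rw [hB, this, ← Matrix.submatrix_mul _ _ _ _ _ Function.bijective_id, hPB₀]
    rfl
  have hLm : L * R.toCols₁ = 0 := by
    have : R.toCols₁ = R.toCols₁.submatrix id id := rfl
    rw [hL, this, ← Matrix.submatrix_mul _ _ _ _ _ Function.bijective_id, hLm₀]
    rfl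
  have hsum : R.toCols₁ * P + B * L = 1 := by
    rw [hL, hB, ← Matrix.submatrix_mul _ _ _ _ _ e.bijective, ← hsum₀]
    rfl
  have hQ1 : fromCols R.toCols₁ B * fromRows P L = 1 := by
    rw [fromCols_mul_fromRows, hsum]
  have hQ2 : fromRows P L * fromCols R.toCols₁ B = 1 := by
    rw [fromRows_mul_fromCols, hPm, hPB, hLm, hLB, fromBlocks_one]
  have hRR : R = fromCols R.toCols₁ R.toCols₂ := (fromCols_toCols R).symm
  refine ⟨⟨fromCols R.toCols₁ B, fromRows P L, hQ1, hQ2⟩, -(P * (R.toCols₂ * fromCols R.toCols₁ B)),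
    L * (R.toCols₂ * fromCols R.toCols₁ B), ?_, ?_⟩
  · intro p _
    have hmap : ∀ (a b c : Type) [Fintype b] (X : Matrix a b ℤ) (Y : Matrix b c ℤ),
        (X * Y).map (Int.castRingHom (ZMod p)) =
          X.map (Int.castRingHom (ZMod p)) * Y.map (Int.castRingHom (ZMod p)) :=
      fun a b c _ X Y => Matrix.map_mul
    set R₁ := R.map (Int.castRingHom (ZMod p)) with hR₁
    set B₁ := B.map (Int.castRingHom (ZMod p)) with hB₁
    set P₁ := P.map (Int.castRingHom (ZMod p)) with hP₁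
    set L₁ := L.map (Int.castRingHom (ZMod p)) with hL₁
    have hone : ∀ (a : Type) [DecidableEq a], (1 : Matrix a a ℤ).map (Int.castRingHom (ZMod p)) = 1 :=
      fun a _ => Matrix.map_one _ (map_zero _) (map_one _)
    have hsum₁ : R₁.toCols₁ * P₁ + B₁ * L₁ = 1 := by
      have h1 := congrArg (fun X : Matrix (κ ⊕ ρ) (κ ⊕ ρ) ℤ => X.map (Int.castRingHom (ZMod p))) hsum
      rw [Matrix.map_add _ (map_add _), hmap, hmap, hone] at h1
      exact h1
    have hLB₁ : L₁ * B₁ = 1 := by rw [hL₁, hB₁, ← hmap, hLB, hone]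
    have hPB₁ : P₁ * B₁ = 0 := by
      rw [hP₁, hB₁, ← hmap, hPB]
      exact Matrix.map_zero _ (map_zero _)
    have hLm₁ : L₁ * R₁.toCols₁ = 0 := by
      have h1 : R₁.toCols₁ = R.toCols₁.map (Int.castRingHom (ZMod p)) := rfl
      rw [hL₁, h1, ← hmap, hLm]
      exact Matrix.map_zero _ (map_zero _)
    have hPm₁ : P₁ * R₁.toCols₁ = 1 := by
      have h1 : R₁.toCols₁ = R.toCols₁.map (Int.castRingHom (ZMod p)) := rfl
      rw [hP₁, h1, ← hmap, hPm, hone]
    set R' := (L * (R.toCols₂ * fromCols R.toCols₁ B)).map (Int.castRingHom (ZMod p)) with hR'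
    have hc1 : R'.toCols₁ = L₁ * (R₁.toCols₂ * R₁.toCols₁) := by
      have h1 : (L * (R.toCols₂ * fromCols R.toCols₁ B)).toCols₁ = L * (R.toCols₂ * R.toCols₁) := by
        rw [mul_fromCols, mul_fromCols, toCols₁_fromCols]
      have h2 : R'.toCols₁ = ((L * (R.toCols₂ * fromCols R.toCols₁ B)).toCols₁).map
        (Int.castRingHom (ZMod p)) := rfl
      rw [h2, h1, hmap, hmap]
      rfl
    have hc2 : R'.toCols₂ = L₁ * (R₁.toCols₂ * B₁) := by
      have h1 : (L * (R.toCols₂ * fromCols R.toCols₁ B)).toCols₂ = L * (R.toCols₂ * B) := by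
        rw [mul_fromCols, mul_fromCols, toCols₂_fromCols]
      have h2 : R'.toCols₂ = ((L * (R.toCols₂ * fromCols R.toCols₁ B)).toCols₂).map
        (Int.castRingHom (ZMod p)) := rfl
      rw [h2, h1, hmap, hmap]
      rfl
    have hkey := N2.Wf_succ R₁ B₁ P₁ L₁ hsum₁ R' hc1 hc2
    obtain ⟨hr1, hr2⟩ := hR p
    rw [← hR₁] at hr1 hr2
    have hBinj : Function.Injective B₁.mulVecLin := by
      intro x y hxy
      have h1 := congrArg L₁.mulVec hxy
      rw [mulVecLin_apply, mulVecLin_apply, mulVec_mulVec, mulVec_mulVec, hLB₁, one_mulVec,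
        one_mulVec] at h1
      exact h1
    have hminj : Function.Injective R₁.toCols₁.mulVecLin := by
      intro x y hxy
      have h1 := congrArg P₁.mulVec hxy
      rw [mulVecLin_apply, mulVecLin_apply, mulVec_mulVec, mulVec_mulVec, hPm₁, one_mulVec,
        one_mulVec] at h1
      exact h1
    constructor
    · have h1 := hkey t
      have h2 : LinearMap.range R₁.toCols₁.mulVecLin ⊓ (Wf R' t).map B₁.mulVecLin = ⊥ := by
        rw [Submodule.eq_bot_iff]
        rintro x ⟨⟨u, hu⟩, v, hv, hvx⟩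
        have h3 : v = 0 := by
          have h4 := congrArg L₁.mulVec (hvx.trans hu.symm)
          rw [mulVecLin_apply, mulVecLin_apply, mulVec_mulVec, mulVec_mulVec, hLB₁, one_mulVec,
            hLm₁, zero_mulVec] at h4
          exact h4
        rw [← hvx, h3, map_zero]
      have hfr : Module.finrank (ZMod p) ((Wf R' t).map B₁.mulVecLin) =
          Module.finrank (ZMod p) (Wf R' t) :=
        LinearEquiv.finrank_eq (Submodule.equivMapOfInjective _ hBinj _).symm
      have h3 := Submodule.finrank_sup_add_finrank_inf_eq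
        (LinearMap.range R₁.toCols₁.mulVecLin) ((Wf R' t).map B₁.mulVecLin)
      rw [h2, ← h1, hr1, finrank_bot, LinearMap.finrank_range_of_inj hminj,
        Module.finrank_fintype_fun_eq_card,
        hfr] at h3
      rw [Nat.succ_mul] at h3
      omega
    · have h1 := hkey (t + 1)
      rw [hr2] at h1
      rw [eq_top_iff]
      intro x _
      have h2 : B₁.mulVecLin x ∈ LinearMap.range R₁.toCols₁.mulVecLin ⊔
          (Wf R' (t + 1)).map B₁.mulVecLin := by
        rw [← h1]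
        trivial
      obtain ⟨a, ⟨u, rfl⟩, b, ⟨v, hv, rfl⟩, h3⟩ := Submodule.mem_sup.1 h2
      have h4 := congrArg L₁.mulVec h3
      rw [mulVecLin_apply, mulVecLin_apply, mulVecLin_apply, Matrix.mulVec_add, mulVec_mulVec,
        mulVec_mulVec, mulVec_mulVec, hLB₁, hLm₁, zero_mulVec, zero_add, one_mulVec,
        one_mulVec] at h4
      rw [← h4]
      exact hv
  · show R * fromBlocks (1 : Matrix κ κ ℤ) (-(P * (R.toCols₂ * fromCols R.toCols₁ B)))
      (0 : Matrix (κ ⊕ ρ) κ ℤ) (fromCols R.toCols₁ B) =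
        fromCols R.toCols₁ B * fromBlocks (1 : Matrix κ κ ℤ) (0 : Matrix κ (κ ⊕ ρ) ℤ)
        (0 : Matrix ρ κ ℤ) (L * (R.toCols₂ * fromCols R.toCols₁ B))
    conv_lhs => rw [hRR]
    rw [fromCols_mul_fromBlocks, fromCols_mul_fromBlocks, toCols₁_fromCols, toCols₂_fromCols]
    have e1 : R.toCols₂ * (0 : Matrix (κ ⊕ ρ) κ ℤ) = 0 := Matrix.mul_zero _
    have e2 : B * (0 : Matrix ρ κ ℤ) = 0 := Matrix.mul_zero _
    have e3 : R.toCols₁ * (0 : Matrix κ (κ ⊕ ρ) ℤ) = 0 := Matrix.mul_zero _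
    rw [e1, e2, e3, zero_add, Matrix.mul_neg, ← Matrix.mul_assoc R.toCols₁ P,
      ← Matrix.mul_assoc B L]
    congr 1
    rw [eq_sub_iff_add_eq'.2 hsum, Matrix.sub_mul, Matrix.one_mul]
    abel

end Pool.Agent.IntComm.Cst
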