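import Pool.Agent.Work.MP_584b0c_al.Cst.Stmts

set_option autoImplicit false

/-!
MP_584b0c_al, third part, item N3: the normal form of a good pencil.
-/

namespace Pool.Agent.IntComm.Cst

open Matrix Polynomial

namespace N3

/-- a block upper triangular matrix with invertible diagonal blocks as a unit -/
def tri {κ ρ : Type} [Fintype κ] [DecidableEq κ] [Fintype ρ] [DecidableEq ρ]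
    (T₁ : (Matrix κ κ ℤ)ˣ) (T₁₂ : Matrix κ ρ ℤ) (T₂ : (Matrix ρ ρ ℤ)ˣ) :
    (Matrix (κ ⊕ ρ) (κ ⊕ ρ) ℤ)ˣ where
  val := fromBlocks (T₁ : Matrix κ κ ℤ) T₁₂ 0 (T₂ : Matrix ρ ρ ℤ)
  inv := fromBlocks ((T₁⁻¹ : (Matrix κ κ ℤ)ˣ) : Matrix κ κ ℤ)
    (-(((T₁⁻¹ : (Matrix κ κ ℤ)ˣ) : Matrix κ κ ℤ) * T₁₂ * ((T₂⁻¹ : (Matrix ρ ρ ℤ)ˣ) :
      Matrix ρ ρ ℤ))) 0 ((T₂⁻¹ : (Matrix ρ ρ ℤ)ˣ) : Matrix ρ ρ ℤ)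
  val_inv := by
    rw [fromBlocks_multiply, ← fromBlocks_one]
    congr 1
    · rw [Matrix.mul_zero, add_zero, Units.mul_inv]
    · rw [Matrix.mul_neg, ← Matrix.mul_assoc, ← Matrix.mul_assoc, Units.mul_inv, Matrix.one_mul,
        neg_add_cancel]
    · rw [Matrix.zero_mul, Matrix.mul_zero, add_zero]
    · rw [Matrix.zero_mul, zero_add, Units.mul_inv]
  inv_val := by
    rw [fromBlocks_multiply, ← fromBlocks_one]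
    congr 1
    · rw [Matrix.mul_zero, add_zero, Units.inv_mul]
    · rw [Matrix.neg_mul, Matrix.mul_assoc _ _ (T₂ : Matrix ρ ρ ℤ), Units.inv_mul, Matrix.mul_one,
        add_neg_cancel]
    · rw [Matrix.zero_mul, Matrix.mul_zero, add_zero]
    · rw [Matrix.zero_mul, zero_add, Units.inv_mul]

theorem tri_val {κ ρ : Type} [Fintype κ] [DecidableEq κ] [Fintype ρ] [DecidableEq ρ]
    (T₁ : (Matrix κ κ ℤ)ˣ) (T₁₂ : Matrix κ ρ ℤ) (T₂ : (Matrix ρ ρ ℤ)ˣ) :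
    ((tri T₁ T₁₂ T₂ : (Matrix (κ ⊕ ρ) (κ ⊕ ρ) ℤ)ˣ) : Matrix (κ ⊕ ρ) (κ ⊕ ρ) ℤ) =
      fromBlocks (T₁ : Matrix κ κ ℤ) T₁₂ 0 (T₂ : Matrix ρ ρ ℤ) := rfl

theorem step {κ ρ : Type} [Fintype κ] [DecidableEq κ] [Fintype ρ] [DecidableEq ρ]
    (R : Matrix (κ ⊕ ρ) (κ ⊕ (κ ⊕ ρ)) ℤ) (Q : (Matrix (κ ⊕ ρ) (κ ⊕ ρ) ℤ)ˣ)
    (F : Matrix κ (κ ⊕ ρ) ℤ) (R' Rn : Matrix ρ (κ ⊕ ρ) ℤ)
    (h : R * fromBlocks (1 : Matrix κ κ ℤ) F (0 : Matrix (κ ⊕ ρ) κ ℤ)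
      (Q : Matrix (κ ⊕ ρ) (κ ⊕ ρ) ℤ) =
      (Q : Matrix (κ ⊕ ρ) (κ ⊕ ρ) ℤ) * fromBlocks (1 : Matrix κ κ ℤ) (0 : Matrix κ (κ ⊕ ρ) ℤ)
        (0 : Matrix ρ κ ℤ) R')
    (T₁ : (Matrix κ κ ℤ)ˣ) (T₁₂ : Matrix κ ρ ℤ) (T₂ : (Matrix ρ ρ ℤ)ˣ)
    (h' : R' * fromBlocks (T₁ : Matrix κ κ ℤ) T₁₂ 0 (T₂ : Matrix ρ ρ ℤ) =
      (T₂ : Matrix ρ ρ ℤ) * Rn) :
    ∃ (U₁ : (Matrix κ κ ℤ)ˣ) (U₁₂ : Matrix κ (κ ⊕ ρ) ℤ)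
      (U₂ : (Matrix (κ ⊕ ρ) (κ ⊕ ρ) ℤ)ˣ),
      R * fromBlocks (U₁ : Matrix κ κ ℤ) U₁₂ 0 (U₂ : Matrix (κ ⊕ ρ) (κ ⊕ ρ) ℤ) =
        (U₂ : Matrix (κ ⊕ ρ) (κ ⊕ ρ) ℤ) * fromBlocks 1 0 0 Rn := by
  refine ⟨T₁, T₁₂ * Rn + F * fromBlocks (T₁ : Matrix κ κ ℤ) T₁₂ 0 (T₂ : Matrix ρ ρ ℤ),
    Q * tri T₁ T₁₂ T₂, ?_⟩
  rw [Units.val_mul, tri_val]
  have e1 : fromBlocks (T₁ : Matrix κ κ ℤ)
      (T₁₂ * Rn + F * fromBlocks (T₁ : Matrix κ κ ℤ) T₁₂ 0 (T₂ : Matrix ρ ρ ℤ)) 0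
      ((Q : Matrix (κ ⊕ ρ) (κ ⊕ ρ) ℤ) *
        fromBlocks (T₁ : Matrix κ κ ℤ) T₁₂ 0 (T₂ : Matrix ρ ρ ℤ)) =
      fromBlocks (1 : Matrix κ κ ℤ) F (0 : Matrix (κ ⊕ ρ) κ ℤ) (Q : Matrix (κ ⊕ ρ) (κ ⊕ ρ) ℤ) *
      fromBlocks (T₁ : Matrix κ κ ℤ) (T₁₂ * Rn) (0 : Matrix (κ ⊕ ρ) κ ℤ)
        (fromBlocks (T₁ : Matrix κ κ ℤ) T₁₂ 0 (T₂ : Matrix ρ ρ ℤ)) := by
    rw [fromBlocks_multiply]
    congr 1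
    · rw [Matrix.one_mul, Matrix.mul_zero, add_zero]
    · rw [Matrix.one_mul]
    · rw [Matrix.zero_mul, Matrix.mul_zero, add_zero]
    · rw [Matrix.zero_mul, zero_add]
  have e2 : fromBlocks (1 : Matrix κ κ ℤ) (0 : Matrix κ (κ ⊕ ρ) ℤ) (0 : Matrix ρ κ ℤ) R' *
      fromBlocks (T₁ : Matrix κ κ ℤ) (T₁₂ * Rn) (0 : Matrix (κ ⊕ ρ) κ ℤ)
        (fromBlocks (T₁ : Matrix κ κ ℤ) T₁₂ 0 (T₂ : Matrix ρ ρ ℤ)) =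
      fromBlocks (T₁ : Matrix κ κ ℤ) T₁₂ 0 (T₂ : Matrix ρ ρ ℤ) *
        fromBlocks (1 : Matrix κ κ ℤ) (0 : Matrix κ (κ ⊕ ρ) ℤ) (0 : Matrix ρ κ ℤ) Rn := by
    rw [fromBlocks_multiply, fromBlocks_multiply, h']
    congr 1
    · rw [Matrix.one_mul, Matrix.mul_one, Matrix.mul_zero, Matrix.mul_zero]
    · rw [Matrix.one_mul, Matrix.zero_mul, Matrix.mul_zero, add_zero, zero_add]
    · rw [Matrix.zero_mul, Matrix.mul_zero, Matrix.mul_zero, Matrix.zero_mul]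
    · rw [Matrix.zero_mul, Matrix.mul_zero]
  rw [e1, ← Matrix.mul_assoc, h, Matrix.mul_assoc, e2]
  exact (Matrix.mul_assoc _ _ _).symm

end N3

/-- N3 -/
theorem claimN3 (hN1 : ClaimN1) (hN2 : ClaimN2) : ClaimN3 := by
  intro τ σ _ _ _ _ t
  induction t with
  | zero =>
    intro R hR
    obtain ⟨T₁, T₁₂, h⟩ := hN1 τ σ R hR
    exact ⟨T₁, T₁₂, 1, h.trans (Matrix.one_mul (R0 (τ := τ) (σ := σ) 0)).symm⟩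
  | succ t ih =>
    intro R hR
    obtain ⟨Q, F, R', hR', h⟩ := hN2 (τ ⊕ σ) (Idx τ σ t) t R hR
    obtain ⟨T₁, T₁₂, T₂, h'⟩ := ih R' hR'
    exact N3.step R Q F R' (R0 t) h T₁ T₁₂ T₂ h'

end Pool.Agent.IntComm.Cst
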