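import Pool.Agent.Work.MP_584b0c_al.Cst.Stmts

set_option autoImplicit false

/-!
MP_584b0c_al, third part: item P0, facts about `R0` and `Z0`.
-/

namespace Pool.Agent.IntComm.Cst

open Matrix Polynomial

namespace P0

/-- The statement for one `t`, for arbitrary index types. -/
def St {κ ρ : Type} [Fintype κ] [DecidableEq κ] [Fintype ρ] [DecidableEq ρ]
    (R : Matrix ρ (κ ⊕ ρ) ℤ) (Z : Matrix (κ ⊕ ρ) κ ℤ) : Prop :=
  R * Z = 0 ∧ ∃ (Y : Matrix κ (κ ⊕ ρ) ℤ) (L : Matrix (κ ⊕ ρ) ρ ℤ),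
    Y * Z = 1 ∧ R * L = 1 ∧ Y * L = 0 ∧ Z * Y + L * R = 1

theorem base (τ σ : Type) [Fintype τ] [DecidableEq τ] [Fintype σ] [DecidableEq σ] :
    St (κ := τ ⊕ σ) (ρ := σ) (fromCols (fromCols 0 1) 0)
      (fromRows (fromBlocks 1 0 0 0) (fromCols 0 1)) := by
  refine ⟨?_, fromCols (fromBlocks 1 0 0 0) (fromRows 0 1), fromRows (fromRows 0 1) 0, ?_, ?_, ?_, ?_⟩
  · rw [fromCols_mul_fromRows, fromCols_mul_fromBlocks]
    simp
  · rw [fromCols_mul_fromRows, fromBlocks_multiply]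
    ext (i | i) (j | j) <;> simp [Matrix.one_apply]
  · rw [fromCols_mul_fromRows, fromCols_mul_fromRows]
    simp
  · rw [fromCols_mul_fromRows, fromBlocks_mul_fromRows]
    simp
  · ext ((i | i) | i) ((j | j) | j) <;>
      simp [Matrix.mul_apply, Matrix.one_apply, Fintype.sum_sum_type]

theorem step {κ ρ : Type} [Fintype κ] [DecidableEq κ] [Fintype ρ] [DecidableEq ρ]
    {R : Matrix ρ (κ ⊕ ρ) ℤ} {Z : Matrix (κ ⊕ ρ) κ ℤ} (h : St R Z) :
    St (κ := κ) (ρ := κ ⊕ ρ) (fromBlocks 1 0 0 R) (fromRows 0 Z) := by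
  obtain ⟨h0, Y, L, h1, h2, h3, h4⟩ := h
  refine ⟨?_, fromCols 0 Y, fromBlocks 1 0 0 L, ?_, ?_, ?_, ?_⟩
  · rw [fromBlocks_mul_fromRows]
    simp [h0]
  · rw [fromCols_mul_fromRows]
    simp [h1]
  · rw [fromBlocks_multiply]
    simp [h2]
  · rw [fromCols_mul_fromBlocks]
    simp [h3]
  · rw [fromRows_mul_fromCols, fromBlocks_multiply, fromBlocks_add]
    simp [h4]

end P0

theorem claimP0 : ClaimP0 := by
  intro τ σ _ _ _ _ t
  have key : P0.St (κ := τ ⊕ σ) (ρ := Idx τ σ t) (R0 (τ := τ) (σ := σ) t)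
      (Z0 (τ := τ) (σ := σ) t) := by
    induction t with
    | zero => exact P0.base τ σ
    | succ t ih => exact P0.step ih
  exact key

end Pool.Agent.IntComm.Cst
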