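import Pool.Agent.Work.MP_584b0c_al.Cst.Stmts

set_option autoImplicit false

/-! Item P1: peeling off a block of a completion of the normal form. -/

namespace Pool.Agent.IntComm.Cst

open Matrix Polynomial

namespace P1

theorem R0_mul_Z0 {τ σ : Type} [Fintype τ] [DecidableEq τ] [Fintype σ] [DecidableEq σ] :
    ∀ t : ℕ, R0 (τ := τ) (σ := σ) t * Z0 (τ := τ) (σ := σ) t = 0
  | 0 => by
      show (fromCols (fromCols 0 1) 0 : Matrix σ ((τ ⊕ σ) ⊕ σ) ℤ) *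
        (fromRows (fromBlocks 1 0 0 0) (fromCols 0 1) : Matrix ((τ ⊕ σ) ⊕ σ) (τ ⊕ σ) ℤ) = 0
      rw [fromCols_mul_fromRows, Matrix.zero_mul, add_zero]
      ext i j
      rcases j with j | j <;>
        simp [Matrix.mul_apply, Fintype.sum_sum_type, Matrix.one_apply]
  | t + 1 => by
      show (fromBlocks 1 0 0 (R0 t) :
        Matrix ((τ ⊕ σ) ⊕ Idx τ σ t) ((τ ⊕ σ) ⊕ ((τ ⊕ σ) ⊕ Idx τ σ t)) ℤ) *
        (fromRows 0 (Z0 t) : Matrix ((τ ⊕ σ) ⊕ ((τ ⊕ σ) ⊕ Idx τ σ t)) (τ ⊕ σ) ℤ) = 0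
      have ih := R0_mul_Z0 (τ := τ) (σ := σ) t
      rw [← fromCols_fromRows_eq_fromBlocks, fromCols_mul_fromRows, Matrix.mul_zero, zero_add,
        fromRows_mul, ih, Matrix.zero_mul]
      ext i j
      rcases i with i | i <;> rfl

theorem gen {κ ρ : Type} [Fintype κ] [DecidableEq κ] [Fintype ρ] [DecidableEq ρ]
    (R : Matrix ρ (κ ⊕ ρ) ℤ) (G : Matrix κ κ ℤ) (Φ : Matrix κ (κ ⊕ ρ) ℤ)
    (Z : Matrix (κ ⊕ ρ) κ ℤ) (hRZ : R * Z = 0) :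
    ∃ Φ' : Matrix κ (κ ⊕ (κ ⊕ ρ)) ℤ,
      Sim (fromRows Φ' (fromBlocks 1 0 0 R : Matrix (κ ⊕ ρ) (κ ⊕ (κ ⊕ ρ)) ℤ))
        (fromBlocks G 0 (fromRows (1 : Matrix κ κ ℤ) (0 : Matrix ρ κ ℤ)) (fromRows Φ R) :
          Matrix (κ ⊕ (κ ⊕ ρ)) (κ ⊕ (κ ⊕ ρ)) ℤ) ∧
      Φ' * (fromRows 0 Z : Matrix (κ ⊕ (κ ⊕ ρ)) κ ℤ) = -(G * (Φ * Z)) := by
  obtain ⟨U, hU⟩ : ∃ U : Matrix (κ ⊕ ρ) κ ℤ, U = fromRows (1 : Matrix κ κ ℤ) (0 : Matrix ρ κ ℤ) :=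
    ⟨_, rfl⟩
  obtain ⟨V, hV⟩ : ∃ V : Matrix (κ ⊕ ρ) (κ ⊕ ρ) ℤ, V = fromRows (0 : Matrix κ (κ ⊕ ρ) ℤ) R :=
    ⟨_, rfl⟩
  obtain ⟨Φ₁, hΦ₁⟩ : ∃ Φ₁ : Matrix κ κ ℤ, Φ₁ = G + Φ * U := ⟨_, rfl⟩
  obtain ⟨Φ₂, hΦ₂⟩ : ∃ Φ₂ : Matrix κ (κ ⊕ ρ) ℤ, Φ₂ = -(G * Φ) + Φ * V := ⟨_, rfl⟩
  refine ⟨fromCols Φ₁ Φ₂, ?_, ?_⟩
  · have hT : (fromBlocks 1 (-Φ) 0 1 : Matrix (κ ⊕ (κ ⊕ ρ)) (κ ⊕ (κ ⊕ ρ)) ℤ) *
        fromBlocks 1 Φ 0 1 = 1 := by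
      rw [fromBlocks_multiply]
      simp [fromBlocks_one]
    have hT' : (fromBlocks 1 Φ 0 1 : Matrix (κ ⊕ (κ ⊕ ρ)) (κ ⊕ (κ ⊕ ρ)) ℤ) *
        fromBlocks 1 (-Φ) 0 1 = 1 := by
      rw [fromBlocks_multiply]
      simp [fromBlocks_one]
    refine ⟨⟨fromBlocks 1 (-Φ) 0 1, fromBlocks 1 Φ 0 1, hT, hT'⟩, ?_⟩
    show fromBlocks 1 (-Φ) 0 1 * fromRows (fromCols Φ₁ Φ₂) (fromBlocks 1 0 0 R) =
      fromBlocks G 0 (fromRows (1 : Matrix κ κ ℤ) (0 : Matrix ρ κ ℤ)) (fromRows Φ R) *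
        fromBlocks 1 (-Φ) 0 1
    have e1 : (fromBlocks 1 0 0 R : Matrix (κ ⊕ ρ) (κ ⊕ (κ ⊕ ρ)) ℤ) = fromCols U V := by
      rw [hU, hV, fromCols_fromRows_eq_fromBlocks]
    have e2 : U * (-Φ) + fromRows Φ R = V := by
      rw [hU, hV, fromRows_mul]
      ext i j
      rcases i with i | i <;> simp
    rw [e1, ← hU, fromRows_fromCols_eq_fromBlocks, fromBlocks_multiply, fromBlocks_multiply,
      fromBlocks_inj]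
    refine ⟨?_, ?_, ?_, ?_⟩
    · rw [hΦ₁, Matrix.one_mul, Matrix.neg_mul, Matrix.mul_one, Matrix.zero_mul]
      abel
    · rw [hΦ₂, Matrix.one_mul, Matrix.neg_mul, Matrix.zero_mul, Matrix.mul_neg]
      abel
    · rw [Matrix.zero_mul, Matrix.one_mul, Matrix.mul_one, Matrix.mul_zero, zero_add, add_zero]
    · rw [Matrix.zero_mul, Matrix.one_mul, Matrix.mul_one, zero_add, e2]
  · have e1 : V * Z = 0 := by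
      rw [hV, fromRows_mul, hRZ, Matrix.zero_mul]
      ext i j
      rcases i with i | i <;> rfl
    rw [fromCols_mul_fromRows, Matrix.mul_zero, zero_add, hΦ₂, Matrix.add_mul,
      Matrix.mul_assoc Φ V Z, e1, Matrix.mul_zero, add_zero, Matrix.neg_mul, Matrix.mul_assoc]

end P1

theorem claimP1 : ClaimP1 := by
  intro τ σ _ _ _ _ t G Φ
  exact P1.gen (R0 t) G Φ (Z0 t) (P1.R0_mul_Z0 t)

end Pool.Agent.IntComm.Cst
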