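import Pool.Agent.Work.MP_584b0c_al.Cst.Stmts

set_option autoImplicit false

/-!
MP_584b0c_al, part 3, item P2: unipotent completions.
-/

namespace Pool.Agent.IntComm.Cst

open Matrix Polynomial

namespace P2

theorem aeval_sub_one {n : Type} [Fintype n] [DecidableEq n] (W : Matrix n n ℤ) (e : ℕ) :
    aeval W ((X - 1 : ℤ[X]) ^ e) = (W - 1) ^ e := by
  simp

theorem pow_block {κ ν : Type} [Fintype κ] [DecidableEq κ] [Fintype ν] [DecidableEq ν]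
    (c : Matrix ν κ ℤ) (N : Matrix ν ν ℤ) (m : ℕ) :
    (fromBlocks (0 : Matrix κ κ ℤ) 0 c N) ^ (m + 1) = fromBlocks 0 0 (N ^ m * c) (N ^ (m + 1)) := by
  induction m with
  | zero => simp
  | succ m ih =>
    rw [pow_succ', ih, Matrix.fromBlocks_multiply]
    congr 1
    · simp
    · simp
    · rw [Matrix.mul_zero, zero_add, ← Matrix.mul_assoc, ← pow_succ']
    · rw [Matrix.mul_zero, zero_add, ← pow_succ']

theorem step {κ ν : Type} [Fintype κ] [DecidableEq κ] [Fintype ν] [DecidableEq ν]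
    (c : Matrix ν κ ℤ) (W : Matrix ν ν ℤ) (e : ℕ)
    (h : aeval W ((X - 1 : ℤ[X]) ^ e) = 0) :
    aeval (fromBlocks (1 : Matrix κ κ ℤ) 0 c W) ((X - 1 : ℤ[X]) ^ (e + 1)) = 0 := by
  rw [aeval_sub_one] at h ⊢
  have h1 : fromBlocks (1 : Matrix κ κ ℤ) 0 c W - 1 = fromBlocks 0 0 c (W - 1) := by
    ext i j
    rcases i with i | i <;> rcases j with j | j <;> simp [Matrix.one_apply]
  rw [h1, pow_block, h, pow_succ, h]
  simp

theorem base {τ σ : Type} [Fintype τ] [DecidableEq τ] [Fintype σ] [DecidableEq σ] :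
    (fromBlocks (fromBlocks (0 : Matrix τ τ ℤ) (0 : Matrix τ σ ℤ) (0 : Matrix σ τ ℤ)
      (1 : Matrix σ σ ℤ)) (fromRows (0 : Matrix τ σ ℤ) (-1 : Matrix σ σ ℤ))
      (fromCols (0 : Matrix σ τ ℤ) (1 : Matrix σ σ ℤ)) (-1 : Matrix σ σ ℤ)) ^ 2 = 0 := by
  rw [pow_two, Matrix.fromBlocks_multiply, Matrix.fromBlocks_multiply]
  ext i j
  rcases i with (i | i) | i <;> rcases j with (j | j) | j <;>
    simp [Matrix.mul_apply, Matrix.one_apply, Matrix.fromRows, Matrix.fromCols]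

end P2

open P2 in
theorem claimP2 (hP1 : ClaimP1) : ClaimP2 := by
  intro τ σ _ _ _ _ t
  induction t with
  | zero =>
    set Φ : Matrix (τ ⊕ σ) ((τ ⊕ σ) ⊕ σ) ℤ :=
      fromCols (fromBlocks 1 0 0 (1 + 1)) (fromRows 0 (-1)) with hΦ
    have hJ : (fromBlocks 1 0 0 (-1) : Matrix (τ ⊕ σ) (τ ⊕ σ) ℤ) * fromBlocks 1 0 0 (-1) = 1 := by
      rw [Matrix.fromBlocks_multiply]
      simp
    refine ⟨Φ, ⟨fromBlocks 1 0 0 (-1), fromBlocks 1 0 0 (-1), hJ, hJ⟩, 2, ?_, ?_⟩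
    · have h1 : Φ * (fromRows (fromBlocks 1 0 0 0) (fromCols 0 1) :
          Matrix ((τ ⊕ σ) ⊕ σ) (τ ⊕ σ) ℤ) = fromBlocks 1 0 0 (-1) := by
        rw [hΦ, Matrix.fromCols_mul_fromRows, Matrix.fromBlocks_multiply,
          Matrix.fromRows_mul_fromCols, Matrix.fromBlocks_add]
        simp
      exact h1
    · have h2 : (fromRows Φ (fromCols (fromCols 0 1) 0 : Matrix σ ((τ ⊕ σ) ⊕ σ) ℤ) :
          Matrix ((τ ⊕ σ) ⊕ σ) ((τ ⊕ σ) ⊕ σ) ℤ) - 1 =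
          fromBlocks (fromBlocks (0 : Matrix τ τ ℤ) (0 : Matrix τ σ ℤ) (0 : Matrix σ τ ℤ)
            (1 : Matrix σ σ ℤ)) (fromRows (0 : Matrix τ σ ℤ) (-1 : Matrix σ σ ℤ))
            (fromCols (0 : Matrix σ τ ℤ) (1 : Matrix σ σ ℤ)) (-1 : Matrix σ σ ℤ) := by
        ext i j
        rcases i with (i | i) | i <;> rcases j with (j | j) | j <;>
          simp [hΦ, Matrix.one_apply, Matrix.fromRows, Matrix.fromCols]
      have h3 : aeval (fromRows Φ (fromCols (fromCols 0 1) 0 : Matrix σ ((τ ⊕ σ) ⊕ σ) ℤ) :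
          Matrix ((τ ⊕ σ) ⊕ σ) ((τ ⊕ σ) ⊕ σ) ℤ) ((X - 1 : ℤ[X]) ^ 2) = 0 := by
        rw [aeval_sub_one, h2, base]
      exact h3
  | succ t ih =>
    obtain ⟨Φ, A₀, e, h1, h2⟩ := ih
    obtain ⟨Φ', hs, hZ⟩ := hP1 τ σ t 1 Φ
    refine ⟨Φ', -A₀, e + 1, ?_, ?_⟩
    · rw [hZ, h1, Matrix.one_mul]
      rfl
    · exact hs.symm.aeval_eq_zero (step _ _ e h2)

end Pool.Agent.IntComm.Cst
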