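import Pool.Agent.Work.MP_584b0c_al.Cst.Stmts
import Pool.Agent.Work.MP_584b0c_al.Diag
import Pool.Agent.Work.MP_584b0c_al.Sylv

set_option autoImplicit false

/-! Item P4: pairs of completions of the normal form. -/

namespace Pool.Agent.IntComm.Cst

open Matrix Polynomial

namespace P4

/-- block diagonal conjugation -/
theorem sim_blocks {m n : Type} [Fintype m] [DecidableEq m] [Fintype n] [DecidableEq n]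
    {A A' : Matrix m m ℤ} {D D' : Matrix n n ℤ} (h : Sim A A') (h' : Sim D D') :
    Sim (fromBlocks A 0 0 D) (fromBlocks A' 0 0 D') := by
  obtain ⟨P, hP⟩ := h
  obtain ⟨Q, hQ⟩ := h'
  refine ⟨⟨fromBlocks (P : Matrix m m ℤ) 0 0 (Q : Matrix n n ℤ),
    fromBlocks ((P⁻¹ : (Matrix m m ℤ)ˣ) : Matrix m m ℤ) 0 0
      ((Q⁻¹ : (Matrix n n ℤ)ˣ) : Matrix n n ℤ), ?_, ?_⟩, ?_⟩
  · rw [fromBlocks_multiply]
    simp [fromBlocks_one]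
  · rw [fromBlocks_multiply]
    simp [fromBlocks_one]
  · show fromBlocks (P : Matrix m m ℤ) 0 0 (Q : Matrix n n ℤ) * fromBlocks A 0 0 D =
      fromBlocks A' 0 0 D' * fromBlocks (P : Matrix m m ℤ) 0 0 (Q : Matrix n n ℤ)
    rw [fromBlocks_multiply, fromBlocks_multiply, fromBlocks_inj]
    refine ⟨?_, ?_, ?_, ?_⟩
    · rw [hP]
    · simp
    · simp
    · rw [hQ]

theorem coprime_prod (F : ℤ[X]) (e : ℕ) : ∀ Fs : List ℤ[X], (∀ F' ∈ Fs, IsCoprime F F') →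
    IsCoprime F (X - 1) → IsCoprime F (Fs.prod * (X - 1) ^ e)
  | [], _, h => by
      rw [List.prod_nil, one_mul]
      exact h.pow_right
  | F' :: Fs, h, h1 => by
      have ih := coprime_prod F e Fs (fun F'' hF => h F'' (List.mem_cons_of_mem _ hF)) h1
      rw [List.prod_cons, mul_assoc]
      exact (h F' List.mem_cons_self).mul_right ih

theorem main (hP1 : ClaimP1) {τ σ : Type} [Fintype τ] [DecidableEq τ] [Fintype σ] [DecidableEq σ]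
    (t : ℕ) (Φ₀ : Matrix (τ ⊕ σ) ((τ ⊕ σ) ⊕ Idx τ σ t) ℤ)
    (A₀ : (Matrix (τ ⊕ σ) (τ ⊕ σ) ℤ)ˣ) (e : ℕ)
    (hΦ₀ : Φ₀ * (Z0 t : Matrix ((τ ⊕ σ) ⊕ Idx τ σ t) (τ ⊕ σ) ℤ) = (A₀ : Matrix (τ ⊕ σ) (τ ⊕ σ) ℤ))
    (he : aeval (fromRows Φ₀ (R0 t) : Matrix ((τ ⊕ σ) ⊕ Idx τ σ t) ((τ ⊕ σ) ⊕ Idx τ σ t) ℤ)
      ((X - 1 : ℤ[X]) ^ e) = 0) : ∀ (Fs : List ℤ[X]),
    Fs.Pairwise IsCoprime → (∀ F ∈ Fs, IsCoprime F (X - 1)) → ∀ A B : Matrix (τ ⊕ σ) (τ ⊕ σ) ℤ,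
    PairProd Fs A B → ∃ Φ Ψ : Matrix (τ ⊕ σ) ((τ ⊕ σ) ⊕ Idx τ σ (t + Fs.length)) ℤ,
      Sim (fromRows Φ (R0 (t + Fs.length))) (fromRows Ψ (R0 (t + Fs.length))) ∧
      aeval (fromRows Φ (R0 (t + Fs.length)) :
        Matrix ((τ ⊕ σ) ⊕ Idx τ σ (t + Fs.length)) ((τ ⊕ σ) ⊕ Idx τ σ (t + Fs.length)) ℤ)
        (Fs.prod * (X - 1) ^ e) = 0 ∧
      Φ * (Z0 (t + Fs.length) : Matrix ((τ ⊕ σ) ⊕ Idx τ σ (t + Fs.length)) (τ ⊕ σ) ℤ) = (-1 : ℤ) ^ Fs.length • (A * (A₀ : Matrix (τ ⊕ σ) (τ ⊕ σ) ℤ)) ∧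
      Ψ * (Z0 (t + Fs.length) : Matrix ((τ ⊕ σ) ⊕ Idx τ σ (t + Fs.length)) (τ ⊕ σ) ℤ) = (-1 : ℤ) ^ Fs.length • (B * (A₀ : Matrix (τ ⊕ σ) (τ ⊕ σ) ℤ))
  | [], _, _, A, B, hAB => by
      obtain ⟨hA, hB⟩ := hAB
      refine ⟨Φ₀, Φ₀, Sim.refl _, ?_, ?_, ?_⟩
      · show aeval (fromRows Φ₀ (R0 t)) (List.prod [] * (X - 1 : ℤ[X]) ^ e) = 0
        rw [List.prod_nil, one_mul]
        exact he
      · show Φ₀ * (Z0 t : Matrix ((τ ⊕ σ) ⊕ Idx τ σ t) (τ ⊕ σ) ℤ) = _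
        rw [hA, hΦ₀]
        simp
      · show Φ₀ * (Z0 t : Matrix ((τ ⊕ σ) ⊕ Idx τ σ t) (τ ⊕ σ) ℤ) = _
        rw [hB, hΦ₀]
        simp
  | F :: Fs, hpw, hco, A, B, hAB => by
      obtain ⟨G, g, hG, A', B', hAB', hA, hB⟩ := hAB
      rw [List.pairwise_cons] at hpw
      obtain ⟨Φ₁, Ψ₁, hs, ha, h1, h2⟩ := main hP1 t Φ₀ A₀ e hΦ₀ he Fs hpw.2
        (fun F' hF' => hco F' (List.mem_cons_of_mem _ hF')) A' B' hAB'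
      obtain ⟨Φ, hΦ, hΦZ⟩ := hP1 τ σ (t + Fs.length) (G : Matrix (τ ⊕ σ) (τ ⊕ σ) ℤ) Φ₁
      obtain ⟨Ψ, hΨ, hΨZ⟩ := hP1 τ σ (t + Fs.length)
        ((g * G * g⁻¹ : (Matrix (τ ⊕ σ) (τ ⊕ σ) ℤ)ˣ) : Matrix (τ ⊕ σ) (τ ⊕ σ) ℤ) Ψ₁
      have hcop : IsCoprime F (Fs.prod * (X - 1) ^ e) :=
        coprime_prod F e Fs hpw.1 (hco F List.mem_cons_self)
      have hK : aeval ((g * G * g⁻¹ : (Matrix (τ ⊕ σ) (τ ⊕ σ) ℤ)ˣ) : Matrix (τ ⊕ σ) (τ ⊕ σ) ℤ) F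
          = 0 := by
        rw [Units.val_mul, Units.val_mul, aeval_conj, hG, Matrix.mul_zero, Matrix.zero_mul]
      have hGK : Sim (G : Matrix (τ ⊕ σ) (τ ⊕ σ) ℤ)
          ((g * G * g⁻¹ : (Matrix (τ ⊕ σ) (τ ⊕ σ) ℤ)ˣ) : Matrix (τ ⊕ σ) (τ ⊕ σ) ℤ) := by
        have := Sim.of_unit g (G : Matrix (τ ⊕ σ) (τ ⊕ σ) ℤ)
        rwa [← Units.val_mul, ← Units.val_mul] at this
      have hdiag : ClaimDiag := claimDiag claimSylv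
      obtain ⟨-, d1, d2⟩ := hdiag (τ ⊕ σ) ((τ ⊕ σ) ⊕ Idx τ σ (t + Fs.length))
        (G : Matrix (τ ⊕ σ) (τ ⊕ σ) ℤ) (fromRows Φ₁ (R0 (t + Fs.length))) F
        (Fs.prod * (X - 1) ^ e) hG ha hcop
      obtain ⟨-, d3, -⟩ := hdiag (τ ⊕ σ) ((τ ⊕ σ) ⊕ Idx τ σ (t + Fs.length))
        ((g * G * g⁻¹ : (Matrix (τ ⊕ σ) (τ ⊕ σ) ℤ)ˣ) : Matrix (τ ⊕ σ) (τ ⊕ σ) ℤ)
        (fromRows Ψ₁ (R0 (t + Fs.length))) F
        (Fs.prod * (X - 1) ^ e) hK (hs.aeval_eq_zero ha) hcop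
      have s1 := hΦ.trans (d1 _)
      have s2 := hΨ.trans (d3 _)
      refine ⟨Φ, Ψ, ?_, ?_, ?_, ?_⟩
      · exact (s1.trans (sim_blocks hGK hs)).trans s2.symm
      · have := s1.symm.aeval_eq_zero d2
        rw [← mul_assoc] at this
        rw [List.prod_cons]
        exact this
      · show Φ * (Z0 (t + Fs.length + 1) : Matrix ((τ ⊕ σ) ⊕ Idx τ σ (t + Fs.length + 1)) (τ ⊕ σ) ℤ) = _
        rw [hΦZ, h1, hA, List.length_cons, pow_succ, Matrix.mul_smul, Matrix.mul_assoc]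
        simp
      · show Ψ * (Z0 (t + Fs.length + 1) : Matrix ((τ ⊕ σ) ⊕ Idx τ σ (t + Fs.length + 1)) (τ ⊕ σ) ℤ) = _
        rw [hΨZ, h2, hB, List.length_cons, pow_succ, Matrix.mul_smul, Matrix.mul_assoc]
        simp

end P4

theorem claimP4 (hP1 : ClaimP1) (hP2 : ClaimP2) : ClaimP4 := by
  intro τ σ _ _ _ _ t
  obtain ⟨Φ₀, A₀, e, h1, h2⟩ := hP2 τ σ t
  exact ⟨A₀, e, P4.main hP1 t Φ₀ A₀ e h1 h2⟩

end Pool.Agent.IntComm.Cst
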