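import Pool.Agent.Work.MP_584b0c_al.Cst.Stmts

set_option autoImplicit false

/-!
MP_584b0c_al, third part, item R1: independence by determinants.
-/

namespace Pool.Agent.IntComm.Cst

open Matrix Polynomial

namespace R1

variable {K : Type} [Field K]

/-- the completed family -/
def fam {N : ℕ} (v : ℕ → Fin N → K) (w : ℕ) (I : Fin N → Fin N) (a : Fin N) : Fin N → K :=
  fun i => if a.val < w then v a i else if i = I a then 1 else 0

theorem exists_not_mem {N m : ℕ} (hm : m < N) (u : Fin m → Fin N → K) :
    ∃ j : Fin N, (fun i => if i = j then (1 : K) else 0) ∉ Submodule.span K (Set.range u) := by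
  by_contra hcon
  push Not at hcon
  have htop : Submodule.span K (Set.range u) = ⊤ := by
    rw [eq_top_iff, ← (Pi.basisFun K (Fin N)).span_eq, Submodule.span_le]
    rintro _ ⟨j, rfl⟩
    have h := hcon j
    have e : (Pi.basisFun K (Fin N)) j = fun i => if i = j then (1 : K) else 0 := by
      funext i
      rw [Pi.basisFun_apply, Pi.single_apply]
    rw [e]
    exact h
  have h1 : Module.finrank K (Submodule.span K (Set.range u)) ≤ m := by
    have := finrank_range_le_card (R := K) u
    rw [Fintype.card_fin] at this
    exact this
  rw [htop, finrank_top, Module.finrank_fin_fun] at h1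
  omega

theorem extend {N w : ℕ} (hw : w ≤ N) (v : ℕ → Fin N → K)
    (hv : LinearIndependent K (fun a : Fin w => v a)) :
    ∀ m : ℕ, w ≤ m → ∀ hm : m ≤ N, ∃ I : Fin N → Fin N,
      LinearIndependent K (fun a : Fin m => fam v w I (Fin.castLE hm a)) := by
  intro m hwm
  induction m, hwm using Nat.le_induction with
  | base =>
    intro _
    refine ⟨id, ?_⟩
    have e : (fun a : Fin w => fam v w id (Fin.castLE hw a)) = fun a : Fin w => v a := by
      funext a i
      unfold fam
      rw [if_pos (by simp)]
      rfl
    rw [e]
    exact hv
  | succ m hwm ih =>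
    intro hm
    obtain ⟨I, hI⟩ := ih (by omega)
    obtain ⟨j, hj⟩ := exists_not_mem (K := K) (N := N) (m := m) (by omega)
      (fun a : Fin m => fam v w I (Fin.castLE (by omega) a))
    refine ⟨Function.update I ⟨m, by omega⟩ j, ?_⟩
    rw [linearIndependent_finSucc']
    have e1 : Fin.init (fun a : Fin (m + 1) =>
        fam v w (Function.update I ⟨m, by omega⟩ j) (Fin.castLE hm a)) =
        fun a : Fin m => fam v w I (Fin.castLE (by omega) a) := by
      funext a i
      show fam v w (Function.update I ⟨m, by omega⟩ j) (Fin.castLE hm a.castSucc) i = _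
      unfold fam
      have h1 : Function.update I ⟨m, by omega⟩ j (Fin.castLE hm a.castSucc)
          = I (Fin.castLE hm a.castSucc) := by
        rw [Function.update_of_ne]
        intro h
        have := congrArg Fin.val h
        simp at this
        omega
      rw [h1]
      rfl
    have e2 : fam v w (Function.update I ⟨m, by omega⟩ j) (Fin.castLE hm (Fin.last m)) =
        fun i => if i = j then (1 : K) else 0 := by
      funext i
      unfold fam
      rw [if_neg (by simp; omega)]
      have h1 : Function.update I ⟨m, by omega⟩ j (Fin.castLE hm (Fin.last m)) = j := by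
        have : Fin.castLE hm (Fin.last m) = ⟨m, by omega⟩ := rfl
        rw [this, Function.update_self]
      rw [h1]
    rw [e1, e2]
    exact ⟨hI, hj⟩

end R1

open R1 in
theorem claimR1 : ClaimR1 := by
  intro K _ k N w hw R
  have hcol : ∀ I : Fin N → Fin N, (dmat R w I).col = fam (chain R) w I := by
    intro I
    funext a i
    rfl
  have hdet : ∀ I : Fin N → Fin N, (dmat R w I).det ≠ 0 ↔
      LinearIndependent K (fam (chain R) w I) := by
    intro I
    rw [← hcol, Matrix.linearIndependent_cols_iff_isUnit, Matrix.isUnit_iff_isUnit_det,
      isUnit_iff_ne_zero]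
  constructor
  · intro h
    obtain ⟨I, hI⟩ := extend hw (chain R) h N hw le_rfl
    refine ⟨I, (hdet I).2 ?_⟩
    exact hI
  · rintro ⟨I, hI⟩
    have h := (hdet I).1 hI
    have h2 := h.comp (Fin.castLE hw) (Fin.castLE_injective hw)
    have e : (fam (chain R) w I ∘ Fin.castLE hw) = fun a : Fin w => chain R a := by
      funext a i
      simp only [Function.comp]
      unfold fam
      rw [if_pos (by simp)]
      rfl
    rw [e] at h2
    exact h2

end Pool.Agent.IntComm.Cst
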