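import Pool.Agent.Work.MP_584b0c_al.Cst.Stmts

set_option autoImplicit false

/-!
R2: spanning by determinants.
-/

namespace Pool.Agent.IntComm.Cst

open Matrix Polynomial

theorem claimR2 : ClaimR2 := by
  intro K _ k N M R
  constructor
  · intro h
    obtain ⟨b, hb, hspan, hli⟩ :=
      exists_linearIndependent K (Set.range fun a : Fin M => chain R a)
    rw [h] at hspan
    have hfin : b.Finite := (Set.finite_range _).subset hb
    haveI : Fintype b := hfin.fintype
    have hspan' : (⊤ : Submodule K (Fin N → K)) ≤ Submodule.span K (Set.range ((↑) : b → Fin N → K)) := by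
      rw [Subtype.range_coe, hspan]
    let B : Module.Basis b K (Fin N → K) := Module.Basis.mk hli hspan'
    have hcard : Fintype.card b = N := by
      have h1 := Module.finrank_eq_card_basis B
      rw [Module.finrank_fin_fun] at h1
      exact h1.symm
    let e : Fin N ≃ b := (Fintype.equivFinOfCardEq hcard).symm
    have hch : ∀ a : Fin N, ∃ i : Fin M, chain R i = (e a : Fin N → K) := fun a => hb (e a).2
    choose I hI using hch
    refine ⟨I, ?_⟩
    have hli2 : LinearIndependent K (fun a : Fin N => (e a : Fin N → K)) := hli.comp e e.injective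
    have hli3 : LinearIndependent K (kmat R fun a => (I a : ℕ)).col := by
      have : (kmat R fun a => (I a : ℕ)).col = fun a : Fin N => (e a : Fin N → K) := by
        funext a i
        show chain R (I a) i = _
        rw [hI a]
      rw [this]
      exact hli2
    have h2 := Matrix.linearIndependent_cols_iff_isUnit.1 hli3
    exact ((Matrix.isUnit_iff_isUnit_det _).1 h2).ne_zero
  · rintro ⟨I, hI⟩
    have h2 : IsUnit (kmat R fun a => (I a : ℕ)) :=
      (Matrix.isUnit_iff_isUnit_det _).2 (isUnit_iff_ne_zero.2 hI)
    have hli3 : LinearIndependent K (kmat R fun a => (I a : ℕ)).col :=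
      Matrix.linearIndependent_cols_iff_isUnit.2 h2
    have h3 : Submodule.span K (Set.range (kmat R fun a => (I a : ℕ)).col) = ⊤ :=
      hli3.span_eq_top_of_card_eq_finrank' (by rw [Module.finrank_fin_fun, Fintype.card_fin])
    rw [eq_top_iff, ← h3]
    refine Submodule.span_mono ?_
    rintro x ⟨a, rfl⟩
    exact ⟨I a, rfl⟩

end Pool.Agent.IntComm.Cst
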