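import Pool.Agent.Work.MP_584b0c_al.Cst.Stmts

set_option autoImplicit false

namespace Pool.Agent.IntComm.Cst

open Matrix Polynomial

namespace R3

variable {k N : ℕ}

/-- The generic integer matrix. -/
noncomputable def genZ (k N : ℕ) :
    Matrix (Fin N) (Fin k ⊕ Fin N) (MvPolynomial (Fin N × (Fin k ⊕ Fin N)) ℤ) :=
  Matrix.of fun i j => MvPolynomial.X (i, j)

theorem dmat_map (hA0 : ClaimChain) {A B : Type} [CommRing A] [CommRing B] (f : A →+* B)
    (R : Matrix (Fin N) (Fin k ⊕ Fin N) A) (w : ℕ) (I : Fin N → Fin N) :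
    f (dmat R w I).det = (dmat (R.map f) w I).det := by
  rw [RingHom.map_det]
  congr 1
  ext1 i a
  simp only [RingHom.mapMatrix_apply, Matrix.map_apply, dmat, Matrix.of_apply]
  split_ifs
  · rw [hA0.2.2.1]
  · simp
  · simp

theorem kmat_map (hA0 : ClaimChain) {A B : Type} [CommRing A] [CommRing B] (f : A →+* B)
    (R : Matrix (Fin N) (Fin k ⊕ Fin N) A) (K : Fin N → ℕ) :
    f (kmat R K).det = (kmat (R.map f) K).det := by
  rw [RingHom.map_det]
  congr 1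
  ext1 i a
  simp only [RingHom.mapMatrix_apply, Matrix.map_apply, kmat, Matrix.of_apply]
  rw [hA0.2.2.1]

/-- The index set of the family. -/
abbrev Idx4 (N T : ℕ) : Type :=
  (Fin N → Fin N) × (Fin N → Fin T) × (Fin N → Fin N) × (Fin N → Fin T)

/-- The product of four determinants. -/
noncomputable def prod4 {B : Type} [CommRing B] (w T : ℕ) (R R' : Matrix (Fin N) (Fin k ⊕ Fin N) B)
    (x : Idx4 N T) : B :=
  (dmat R w x.1).det * (kmat R fun a => (x.2.1 a : ℕ)).det *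
    ((dmat R' w x.2.2.1).det * (kmat R' fun a => (x.2.2.2 a : ℕ)).det)

theorem prod4_map (hA0 : ClaimChain) {A B : Type} [CommRing A] [CommRing B] (f : A →+* B)
    (w T : ℕ) (R R' : Matrix (Fin N) (Fin k ⊕ Fin N) A) (x : Idx4 N T) :
    f (prod4 w T R R' x) = prod4 w T (R.map f) (R'.map f) x := by
  unfold prod4
  rw [map_mul, map_mul, map_mul, dmat_map hA0, dmat_map hA0, kmat_map hA0, kmat_map hA0]

/-- The image of an integer matrix. -/
def cm (B : Type) [CommRing B] (A : Matrix (Fin k ⊕ Fin N) (Fin k ⊕ Fin N) ℤ) :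
    Matrix (Fin k ⊕ Fin N) (Fin k ⊕ Fin N) B := A.map (Int.castRingHom B)

theorem cm_map {B B' : Type} [CommRing B] [CommRing B'] (f : B →+* B')
    (A : Matrix (Fin k ⊕ Fin N) (Fin k ⊕ Fin N) ℤ) : (cm B A).map f = cm B' A := by
  ext1 i j
  simp [cm]

theorem cm_mul (B : Type) [CommRing B] (A A' : Matrix (Fin k ⊕ Fin N) (Fin k ⊕ Fin N) ℤ) :
    cm B (A * A') = cm B A * cm B A' := by
  unfold cm
  rw [Matrix.map_mul]

theorem cm_one (B : Type) [CommRing B] :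
    cm B (1 : Matrix (Fin k ⊕ Fin N) (Fin k ⊕ Fin N) ℤ) = 1 := by
  unfold cm
  rw [Matrix.map_one _ (map_zero _) (map_one _)]

/-- The product with an integer matrix. -/
def mc {B : Type} [CommRing B] (R : Matrix (Fin N) (Fin k ⊕ Fin N) B)
    (A : Matrix (Fin k ⊕ Fin N) (Fin k ⊕ Fin N) ℤ) : Matrix (Fin N) (Fin k ⊕ Fin N) B :=
  R * (cm B A : Matrix (Fin k ⊕ Fin N) (Fin k ⊕ Fin N) B)

theorem mc_map {B B' : Type} [CommRing B] [CommRing B'] (f : B →+* B')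
    (R : Matrix (Fin N) (Fin k ⊕ Fin N) B) (A : Matrix (Fin k ⊕ Fin N) (Fin k ⊕ Fin N) ℤ) :
    (mc R A).map f = mc (R.map f) A := by
  unfold mc
  rw [Matrix.map_mul, cm_map]

theorem mc_mc {B : Type} [CommRing B] (R : Matrix (Fin N) (Fin k ⊕ Fin N) B)
    (A A' : Matrix (Fin k ⊕ Fin N) (Fin k ⊕ Fin N) ℤ) : mc (mc R A) A' = mc R (A * A') := by
  unfold mc
  rw [cm_mul, Matrix.mul_assoc]

theorem mc_one {B : Type} [CommRing B] (R : Matrix (Fin N) (Fin k ⊕ Fin N) B) :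
    mc R (1 : Matrix (Fin k ⊕ Fin N) (Fin k ⊕ Fin N) ℤ) = R := by
  unfold mc
  rw [cm_one, Matrix.mul_one]

/-- The endomorphism of the polynomial ring given by a matrix. -/
noncomputable def endo (A : Matrix (Fin k ⊕ Fin N) (Fin k ⊕ Fin N) ℤ) :
    MvPolynomial (Fin N × (Fin k ⊕ Fin N)) ℚ →+* MvPolynomial (Fin N × (Fin k ⊕ Fin N)) ℚ :=
  MvPolynomial.eval₂Hom MvPolynomial.C fun x => mc (gen ℚ k N) A x.1 x.2

theorem endo_C (A : Matrix (Fin k ⊕ Fin N) (Fin k ⊕ Fin N) ℤ) (r : ℚ) :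
    endo A (MvPolynomial.C r) = MvPolynomial.C r := by
  unfold endo
  simp

theorem endo_gen (A : Matrix (Fin k ⊕ Fin N) (Fin k ⊕ Fin N) ℤ) :
    (gen ℚ k N).map (endo A) = mc (gen ℚ k N) A := by
  ext1 i j
  rw [Matrix.map_apply, show gen ℚ k N i j = MvPolynomial.X (i, j) from rfl]
  unfold endo
  simp

theorem endo_comp (A A' : Matrix (Fin k ⊕ Fin N) (Fin k ⊕ Fin N) ℤ) (h : A * A' = 1) :
    (endo A).comp (endo A') = RingHom.id _ := by
  have e : ((gen ℚ k N).map (endo A')).map (endo A) = gen ℚ k N := by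
    rw [endo_gen, mc_map, endo_gen, mc_mc, h, mc_one]
  refine MvPolynomial.ringHom_ext (fun r => ?_) fun x => ?_
  · rw [RingHom.comp_apply, endo_C, endo_C]
    rfl
  · exact congrArg (fun M => M x.1 x.2) e

/-- The automorphism of the polynomial ring given by a unit. -/
theorem aut_exists (A A' : Matrix (Fin k ⊕ Fin N) (Fin k ⊕ Fin N) ℤ) (h1 : A * A' = 1)
    (h2 : A' * A = 1) :
    ∃ α : MvPolynomial (Fin N × (Fin k ⊕ Fin N)) ℚ ≃+* MvPolynomial (Fin N × (Fin k ⊕ Fin N)) ℚ,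
      (gen ℚ k N).map (α : MvPolynomial (Fin N × (Fin k ⊕ Fin N)) ℚ →+*
        MvPolynomial (Fin N × (Fin k ⊕ Fin N)) ℚ) = mc (gen ℚ k N) A :=
  ⟨RingEquiv.ofRingHom (endo A) (endo A') (endo_comp A A' h1) (endo_comp A' A h2), endo_gen A⟩

end R3

theorem claimR3 (hA0 : ClaimChain) (hC3 : ClaimC3) (hG1 : ClaimG1) (hG2 : ClaimG2) (hL4 : ClaimL4)
    (hR1 : ClaimR1) (hR2 : ClaimR2) : ClaimR3 := by
  intro m N t hm ht hN A
  obtain ⟨Az, Az', hAA, hAA', hAz⟩ : ∃ Az Az' : Matrix (Fin (2 * m) ⊕ Fin N) (Fin (2 * m) ⊕ Fin N) ℤ,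
      Az * Az' = 1 ∧ Az' * Az = 1 ∧
        Az = (A : Matrix (Fin (2 * m) ⊕ Fin N) (Fin (2 * m) ⊕ Fin N) ℤ) :=
    ⟨(A : Matrix (Fin (2 * m) ⊕ Fin N) (Fin (2 * m) ⊕ Fin N) ℤ),
      ((A⁻¹ : (Matrix (Fin (2 * m) ⊕ Fin N) (Fin (2 * m) ⊕ Fin N) ℤ)ˣ) :
        Matrix (Fin (2 * m) ⊕ Fin N) (Fin (2 * m) ⊕ Fin N) ℤ), A.mul_inv, A.inv_mul, rfl⟩
  rw [← hAz]
  clear hAz A
  set w := t * (2 * m) with hw
  set T := (t + 1) * (2 * m) with hT
  have hwN : w + 1 ≤ N := by omega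
  have hNT : N < T := by
    rw [hT, add_mul, one_mul]
    omega
  have hkN : (2 * m) ≤ N := by
    have : 1 * (2 * m) ≤ t * (2 * m) := Nat.mul_le_mul_right (2 * m) ht
    omega
  set G := R3.genZ (2 * m) N with hG
  have hfG : ∀ {B : Type} [CommRing B] (f : MvPolynomial (Fin N × (Fin (2 * m) ⊕ Fin N)) ℤ →+* B)
      (x : R3.Idx4 N T), f (R3.prod4 w T G (R3.mc G Az) x) =
        R3.prod4 w T (G.map f) (R3.mc (G.map f) Az) x := by
    intro B _ f x
    rw [R3.prod4_map hA0, R3.mc_map]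
  -- evaluation at a point modulo p
  have hev : ∀ (p : ℕ) (x : Fin N × (Fin (2 * m) ⊕ Fin N) → ℤ) (y : R3.Idx4 N T),
      (Int.castRingHom (ZMod p)) (MvPolynomial.eval x
        (R3.prod4 w T G (R3.mc G Az) y)) =
      R3.prod4 w T ((Matrix.of fun i j => x (i, j) : Matrix (Fin N) (Fin (2 * m) ⊕ Fin N) ℤ).map
        (Int.castRingHom (ZMod p)))
        (((Matrix.of fun i j => x (i, j) : Matrix (Fin N) (Fin (2 * m) ⊕ Fin N) ℤ) * Az).map
        (Int.castRingHom (ZMod p))) y := by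
    intro p x y
    have e := hfG ((Int.castRingHom (ZMod p)).comp (MvPolynomial.eval x)) y
    rw [RingHom.comp_apply] at e
    rw [e]
    have e1 : G.map ((Int.castRingHom (ZMod p)).comp (MvPolynomial.eval x)) =
        (Matrix.of fun i j => x (i, j) : Matrix (Fin N) (Fin (2 * m) ⊕ Fin N) ℤ).map
        (Int.castRingHom (ZMod p)) := by
      ext1 i j
      simp [hG, R3.genZ]
    rw [e1, Matrix.map_mul]
    rfl
  have hdvd : ∀ (p : ℕ) (z : ℤ), (p : ℤ) ∣ z ↔ (Int.castRingHom (ZMod p)) z = 0 := by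
    intro p z
    rw [eq_intCast, ZMod.intCast_zmod_eq_zero_iff_dvd]
  obtain ⟨x, hx⟩ := hL4 (Fin N × (Fin (2 * m) ⊕ Fin N)) (R3.Idx4 N T)
    (fun y => R3.prod4 w T G (R3.mc G Az) y) (by
      intro p hp
      haveI : Fact p.Prime := ⟨hp⟩
      obtain ⟨R, hR, hRA⟩ := hC3 p m N t hm ht hN (R3.cm (ZMod p) Az) (by
        have e := congrArg (fun M => (R3.cm (ZMod p) M).det) hAA
        simp only [R3.cm_mul, Matrix.det_mul, R3.cm_one, Matrix.det_one] at e
        exact IsUnit.of_mul_eq_one _ e)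
      set x : Fin N × (Fin (2 * m) ⊕ Fin N) → ℤ := fun v => ((R v.1 v.2).val : ℤ) with hx
      have hRx : (Matrix.of fun i j => x (i, j) : Matrix (Fin N) (Fin (2 * m) ⊕ Fin N) ℤ).map
          (Int.castRingHom (ZMod p)) = R := by
        ext1 i j
        simp [hx]
      obtain ⟨I, hI⟩ := (hR1 (ZMod p) (2 * m) N w (by omega) R).1 hR.1
      obtain ⟨K, hK⟩ := (hR2 (ZMod p) (2 * m) N T R).1 hR.2
      obtain ⟨I', hI'⟩ := (hR1 (ZMod p) (2 * m) N w (by omega) _).1 hRA.1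
      obtain ⟨K', hK'⟩ := (hR2 (ZMod p) (2 * m) N T _).1 hRA.2
      refine ⟨x, (I, K, I', K'), ?_⟩
      rw [hdvd, hev, Matrix.map_mul, hRx]
      exact mul_ne_zero (mul_ne_zero hI hK) (mul_ne_zero hI' hK'))
    (by
      intro h hh
      have hgen : G.map (MvPolynomial.map (Int.castRingHom ℚ)) = gen ℚ (2 * m) N := by
        ext1 i j
        simp [hG, R3.genZ, gen]
      have hspan : ∀ h : MvPolynomial (Fin N × (Fin (2 * m) ⊕ Fin N)) ℚ, Prime h →
          ∃ (I : Fin N → Fin N) (K : Fin N → Fin T), ¬ h ∣ (dmat (gen ℚ (2 * m) N) w I).det ∧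
            ¬ h ∣ (kmat (gen ℚ (2 * m) N) fun a => (K a : ℕ)).det := by
        intro h hh
        obtain ⟨I, hI⟩ := hG1 ℚ (2 * m) N w (by omega) hwN h hh
        obtain ⟨b, hb, hb'⟩ := hG2 ℚ (2 * m) N (by omega) hkN h hh
        refine ⟨I, fun a => ⟨if a.val + 1 = N then b else a.val, ?_⟩, hI, hb'⟩
        have := a.2
        split_ifs <;> omega
      obtain ⟨I, K, hI, hK⟩ := hspan h hh
      obtain ⟨α, hα⟩ := R3.aut_exists Az Az' hAA hAA'
      have hh' : Prime (α.symm h) := (MulEquiv.prime_iff α.symm.toMulEquiv).2 hh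
      obtain ⟨I', K', hI', hK'⟩ := hspan (α.symm h) hh'
      refine ⟨(I, K, I', K'), ?_⟩
      have e := hfG (MvPolynomial.map (Int.castRingHom ℚ)) (I, K, I', K')
      rw [hgen, ← hα] at e
      have e2 : ∀ d : MvPolynomial (Fin N × (Fin (2 * m) ⊕ Fin N)) ℚ,
          h ∣ (α : MvPolynomial (Fin N × (Fin (2 * m) ⊕ Fin N)) ℚ →+*
            MvPolynomial (Fin N × (Fin (2 * m) ⊕ Fin N)) ℚ) d → α.symm h ∣ d := by
        intro d hd
        have := map_dvd α.symm hd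
        simpa using this
      intro hd
      rw [e] at hd
      unfold R3.prod4 at hd
      rcases hh.dvd_or_dvd hd with h1 | h1
      · rcases hh.dvd_or_dvd h1 with h2 | h2
        · exact hI h2
        · exact hK h2
      · rcases hh.dvd_or_dvd h1 with h2 | h2
        · rw [← R3.dmat_map hA0] at h2
          exact hI' (e2 _ h2)
        · rw [← R3.kmat_map hA0] at h2
          exact hK' (e2 _ h2))
  refine ⟨Matrix.of fun i j => x (i, j), fun p hp => ?_⟩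
  obtain ⟨⟨I, K, I', K'⟩, hy⟩ := hx p hp.out
  rw [hdvd, hev] at hy
  unfold R3.prod4 at hy
  refine ⟨⟨(hR1 (ZMod p) (2 * m) N w (by omega) _).2 ⟨I, fun h0 => hy (by rw [h0]; ring)⟩,
    (hR2 (ZMod p) (2 * m) N T _).2 ⟨K, fun h0 => hy (by rw [h0]; ring)⟩⟩,
    ⟨(hR1 (ZMod p) (2 * m) N w (by omega) _).2 ⟨I', fun h0 => hy (by rw [h0]; ring)⟩,
    (hR2 (ZMod p) (2 * m) N T _).2 ⟨K', fun h0 => hy (by rw [h0]; ring)⟩⟩⟩

end Pool.Agent.IntComm.Cst
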