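import Pool.Agent.Work.MP_584b0c_al.Cst.Stmts
import Pool.Agent.Work.MP_584b0c_al.All

set_option autoImplicit false

namespace Pool.Agent.IntComm.Cst

open Matrix Polynomial

namespace V1

lemma pind_empty {n : Type} {ρ : Type} [Fintype ρ] [IsEmpty ρ] (S : Matrix n ρ ℤ) : PInd S := by
  intro p _ x _
  funext a
  exact isEmptyElim a

lemma pind_one {n : ℕ} : PInd (1 : Matrix (Fin n) (Fin n) ℤ) := by
  intro p _ x hx
  have h1 : ((1 : Matrix (Fin n) (Fin n) ℤ).map (Int.cast : ℤ → ZMod p)) = 1 := by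
    ext i j
    by_cases h : i = j
    · subst h; simp
    · simp [h]
  rw [h1, Matrix.one_mulVec] at hx
  exact hx

end V1

theorem claimV1 : ClaimV1 := by
  intro n k κ₀ C hC hn
  obtain ⟨X, hX⟩ := ext_all (Fin n) (Fin 0) (Fin n) C 0 1 2 κ₀ k 0 hC
    (by simp only [Fintype.card_fin]; omega) (V1.pind_empty _) V1.pind_one
  refine ⟨X, ?_⟩
  intro p hp x hx
  have h := hX p hp (fun a => Sum.elim (fun b : Fin 0 => b.elim0) (fun b => x (a.1, b)) a.2) ?_
  · funext a
    exact congrFun h (a.1, Sum.inr a.2)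
  · funext i
    have hi := congrFun hx i
    simp only [Matrix.mulVec, dotProduct, Matrix.map_apply, Pi.zero_apply] at hi ⊢
    rw [← hi, Fintype.sum_prod_type, Fintype.sum_prod_type]
    refine Finset.sum_congr rfl fun a _ => ?_
    rw [Fintype.sum_sum_type]
    simp only [Finset.univ_eq_empty, Finset.sum_empty, zero_add, Sum.elim_inr]
    refine Finset.sum_congr rfl fun b _ => ?_
    congr 2
    simp only [Kry, Matrix.of_apply]
    rw [Matrix.mul_apply, Matrix.mul_apply]
    refine Finset.sum_congr rfl fun c _ => ?_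
    simp

end Pool.Agent.IntComm.Cst
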