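import Pool.Agent.Work.MP_584b0c_al.Cst.Stmts
import Pool.Agent.Work.MP_584b0c_al.All

set_option autoImplicit false

/-!
MP_584b0c_al, third part, item V2: the Schur complement of a pivot block and its free first rows.
-/

namespace Pool.Agent.IntComm.Cst

open Matrix Polynomial

namespace V2

/-- the algebra -/
theorem core {n κ ν : Type} [Fintype n] [DecidableEq n] [Fintype κ] [DecidableEq κ] [Fintype ν]
    [DecidableEq ν] (C : Matrix n n ℤ) (h : Matrix n (κ ⊕ (κ ⊕ ν)) ℤ)
    (h' : Matrix (κ ⊕ (κ ⊕ ν)) n ℤ) (hh1 : h' * h = 1) (hh2 : h * h' = 1)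
    (B : Matrix κ (κ ⊕ ν) ℤ) (D : Matrix (κ ⊕ ν) (κ ⊕ ν) ℤ) (E : Matrix (κ ⊕ ν) κ ℤ)
    (hE : E = fromRows (1 : Matrix κ κ ℤ) (0 : Matrix ν κ ℤ))
    (hC : h' * C * h = fromBlocks 1 B E D) :
    (D - E * B).det = C.det ∧
      ∀ (G F' : ℤ[X]) (X : (Matrix κ κ ℤ)ˣ) (η : Matrix κ ν ℤ),
        aeval (X : Matrix κ κ ℤ) G = 0 → IsCoprime G F' →
        LUF F' (fromBlocks 1 η 0 1 * (D - E * B)) → LUF (G * F') C := by
  constructor
  · rw [← Matrix.det_fromBlocks_one₁₁, ← hC]
    exact Matrix.det_conj_of_mul_eq_one hh1 hh2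
  · intro G F' X η hX hco hLUF
    obtain ⟨η', hη'⟩ : ∃ η' : Matrix κ (κ ⊕ ν) ℤ, η' = fromCols (0 : Matrix κ κ ℤ) η := ⟨_, rfl⟩
    have hηE : η' * E = 0 := by
      rw [hη', hE, Matrix.fromCols_mul_fromRows, Matrix.zero_mul, Matrix.mul_zero, add_zero]
    have hEη : 1 + E * η' = fromBlocks 1 η 0 1 := by
      rw [hη', hE, Matrix.fromRows_mul_fromCols, ← Matrix.fromBlocks_one, Matrix.fromBlocks_add]
      simp
    -- the two unipotent matrices
    obtain ⟨P, hP⟩ : ∃ P : Matrix (κ ⊕ (κ ⊕ ν)) (κ ⊕ (κ ⊕ ν)) ℤ, P = fromBlocks 1 η' 0 1 :=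
      ⟨_, rfl⟩
    obtain ⟨P', hP'⟩ : ∃ P' : Matrix (κ ⊕ (κ ⊕ ν)) (κ ⊕ (κ ⊕ ν)) ℤ,
        P' = fromBlocks 1 (-η') 0 1 := ⟨_, rfl⟩
    have hu1 : P' * P = 1 := by
      rw [hP, hP', Matrix.fromBlocks_multiply, ← Matrix.fromBlocks_one]
      simp
    have hu2 : P * P' = 1 := by
      rw [hP, hP', Matrix.fromBlocks_multiply, ← Matrix.fromBlocks_one]
      simp
    apply LUF.of_rect (h * P) (P' * h')
    · rw [Matrix.mul_assoc, ← Matrix.mul_assoc h' h, hh1, Matrix.one_mul, hu1]
    · rw [Matrix.mul_assoc, ← Matrix.mul_assoc _ _ h', hu2, Matrix.one_mul, hh2]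
    · have e0 : P' * h' * C * (h * P) = P' * (h' * C * h) * P := by
        simp only [Matrix.mul_assoc]
      have e1 : P' * h' * C * (h * P) = fromBlocks 1 (η' + (B - η' * D)) E (E * η' + D) := by
        rw [e0, hC, hP, hP', Matrix.fromBlocks_multiply, Matrix.fromBlocks_multiply]
        congr 1
        · simp [hηE]
        · simp only [Matrix.one_mul, Matrix.mul_one, Matrix.neg_mul, hηE, neg_zero, add_zero]
          abel
        · simp
        · simp
      rw [e1]
      have e2 : (X * 1 * X⁻¹ * 1⁻¹ : (Matrix κ κ ℤ)ˣ) = 1 := by group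
      have e3 := stepLU_all κ (κ ⊕ ν) G F' X 1 (η' + (B - η' * D)) E (E * η' + D) hco hX (by
        rw [e2, inv_one, Units.val_one, Matrix.mul_one]
        have e4 : E * η' + D - E * (η' + (B - η' * D)) = fromBlocks 1 η 0 1 * (D - E * B) := by
          rw [← hEη, Matrix.add_mul, Matrix.one_mul, Matrix.mul_add, Matrix.mul_sub, Matrix.mul_sub,
            Matrix.mul_assoc E η' D, Matrix.mul_assoc E η' (E * B), ← Matrix.mul_assoc η' E B, hηE,
            Matrix.zero_mul, Matrix.mul_zero]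
          abel
        rw [e4]
        exact hLUF)
      rw [e2, Units.val_one] at e3
      exact e3

end V2

/-- V2 -/
theorem claimV2 : ClaimV2 := by
  intro n k δ C V hn hPI
  obtain ⟨B, K, L, a1, a2, a3, a4, a5⟩ := claimComplete (Fin n) (Fin 2 × Fin k) (Kry C V 2) δ hPI
    (by simp [hn]; ring)
  -- the two blocks of rows of `K`
  obtain ⟨K0, hK0⟩ : ∃ K0 : Matrix (Fin k) (Fin n) ℤ, K0 = Matrix.of fun i j => K (0, i) j :=
    ⟨_, rfl⟩
  obtain ⟨K1, hK1⟩ : ∃ K1 : Matrix (Fin k) (Fin n) ℤ, K1 = Matrix.of fun i j => K (1, i) j :=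
    ⟨_, rfl⟩
  have hS0 : ∀ i j, Kry C V 2 i (0, j) = V i j := by
    intro i j
    simp [Kry]
  have hS1 : ∀ i j, Kry C V 2 i (1, j) = (C * V) i j := by
    intro i j
    simp [Kry]
  have k00 : K0 * V = 1 := by
    ext i j
    have := congrFun (congrFun a1 (0, i)) (0, j)
    rw [Matrix.mul_apply] at this
    rw [Matrix.mul_apply]
    simp only [hS0] at this
    rw [hK0]
    refine this.trans ?_
    simp [Matrix.one_apply]
  have k01 : K0 * (C * V) = 0 := by
    ext i j
    have := congrFun (congrFun a1 (0, i)) (1, j)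
    rw [Matrix.mul_apply] at this
    rw [Matrix.mul_apply]
    simp only [hS1] at this
    rw [hK0]
    refine this.trans ?_
    simp [Matrix.one_apply]
  have k10 : K1 * V = 0 := by
    ext i j
    have := congrFun (congrFun a1 (1, i)) (0, j)
    rw [Matrix.mul_apply] at this
    rw [Matrix.mul_apply]
    simp only [hS0] at this
    rw [hK1]
    refine this.trans ?_
    simp [Matrix.one_apply]
  have k11 : K1 * (C * V) = 1 := by
    ext i j
    have := congrFun (congrFun a1 (1, i)) (1, j)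
    rw [Matrix.mul_apply] at this
    rw [Matrix.mul_apply]
    simp only [hS1] at this
    rw [hK1]
    refine this.trans ?_
    simp [Matrix.one_apply]
  have kB0 : K0 * B = 0 := by
    ext i j
    have := congrFun (congrFun a3 (0, i)) j
    rw [hK0]
    exact this
  have kB1 : K1 * B = 0 := by
    ext i j
    have := congrFun (congrFun a3 (1, i)) j
    rw [hK1]
    exact this
  have l0 : L * V = 0 := by
    ext i j
    have := congrFun (congrFun a4 i) (0, j)
    rw [Matrix.mul_apply] at this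
    rw [Matrix.mul_apply]
    simp only [hS0] at this
    exact this
  have l1 : L * (C * V) = 0 := by
    ext i j
    have := congrFun (congrFun a4 i) (1, j)
    rw [Matrix.mul_apply] at this
    rw [Matrix.mul_apply]
    simp only [hS1] at this
    exact this
  have hsum : V * K0 + C * V * K1 + B * L = 1 := by
    rw [← a5]
    congr 1
    ext i j
    rw [Matrix.add_apply, Matrix.mul_apply, Matrix.mul_apply, Matrix.mul_apply,
      Fintype.sum_prod_type, Fin.sum_univ_two]
    simp only [hS0, hS1]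
    rw [hK0, hK1]
    rfl
  set h : Matrix (Fin n) (Fin k ⊕ (Fin k ⊕ Fin δ)) ℤ := fromCols V (fromCols (C * V - V) B) with hh
  set h' : Matrix (Fin k ⊕ (Fin k ⊕ Fin δ)) (Fin n) ℤ := fromRows (K0 + K1) (fromRows K1 L)
    with hh'
  have hh1 : h' * h = 1 := by
    rw [hh, hh', Matrix.fromRows_mul_fromCols, Matrix.fromRows_mul, Matrix.mul_fromCols,
      Matrix.fromRows_mul_fromCols, Matrix.add_mul, Matrix.add_mul, Matrix.add_mul,
      Matrix.mul_sub, Matrix.mul_sub, Matrix.mul_sub, k00, k01, k10, k11, kB0, kB1, l0, l1, a2]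
    simp only [add_zero, zero_sub, sub_zero, neg_add_cancel, zero_add, sub_self]
    rw [Matrix.fromBlocks_one, Matrix.fromCols_zero, Matrix.fromRows_zero, Matrix.fromBlocks_one]
  have hh2 : h * h' = 1 := by
    rw [hh, hh', Matrix.fromCols_mul_fromRows, Matrix.fromCols_mul_fromRows, Matrix.mul_add,
      Matrix.sub_mul, ← hsum]
    abel
  obtain ⟨s1, s2⟩ := V2.core C h h' hh1 hh2 ((K0 + K1) * C * fromCols (C * V - V) B)
    (fromRows K1 L * C * fromCols (C * V - V) B) (fromRows K1 L * C * V)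
    (by rw [Matrix.fromRows_mul, Matrix.fromRows_mul, Matrix.mul_assoc, Matrix.mul_assoc, k11, l1])
    (by
      rw [hh, hh', Matrix.fromRows_mul, Matrix.fromRows_mul_fromCols, Matrix.mul_assoc _ C V,
        Matrix.add_mul _ _ (C * V), k01, k11, zero_add])
  exact ⟨_, s1, s2⟩

end Pool.Agent.IntComm.Cst
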