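import Pool.Agent.Work.MP_584b0c_al.Cst.Stmts
import Pool.Agent.Work.MP_584b0c_al.All
import Pool.Agent.Work.MP_584b0c_al.PeelAlg
import Pool.Agent.Work.MP_584b0c_al.MultBound

set_option autoImplicit false

/-!
MP_584b0c_al, third part: item V3, a pivot block of arbitrary size, keeping the bounds for the
eigenspaces.
-/

namespace Pool.Agent.IntComm.Cst

open Matrix Polynomial

namespace V3

theorem aeval_sub {n K : Type} [Fintype n] [DecidableEq n] [Field K] (M : Matrix n n K) (μ : K) :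
    aeval M (X - Polynomial.C μ) = M - Matrix.scalar n μ := by
  rw [map_sub, aeval_X, aeval_C]
  rfl

theorem aeval_lin {n K : Type} [Fintype n] [DecidableEq n] [Field K] (M : Matrix n n K)
    (c1 c0 : K) (h : c1 ≠ 0) :
    aeval M (Polynomial.C c1 * X + Polynomial.C c0) = c1 • (M - Matrix.scalar n (-(c0 / c1))) := by
  have h1 : (Polynomial.C c1 * X + Polynomial.C c0 : K[X]) =
      Polynomial.C c1 * (X - Polynomial.C (-(c0 / c1))) := by
    rw [mul_sub, ← Polynomial.C_mul]
    have : c1 * -(c0 / c1) = -c0 := by field_simp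
    rw [this, Polynomial.C_neg, sub_neg_eq_add]
  rw [h1, map_mul, aeval_sub, aeval_C, Algebra.algebraMap_eq_smul_one, smul_mul_assoc, one_mul]

theorem ker_smul {n K : Type} [Fintype n] [DecidableEq n] [Field K] (M : Matrix n n K) (c : K)
    (h : c ≠ 0) : LinearMap.ker (Matrix.toLin' (c • M)) = LinearMap.ker (Matrix.toLin' M) := by
  rw [map_smul]
  exact LinearMap.ker_smul _ _ h

theorem KB_mult {n : Type} [Fintype n] [DecidableEq n] {C : Matrix n n ℤ} {κ₀ : ℕ}
    (h : KB C 2 κ₀) (p : ℕ) [Fact p.Prime] (μ : ZMod p) : mult (ZMod p) C μ ≤ κ₀ := by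
  have h1 := h p (X - Polynomial.C μ) (X_sub_C_ne_zero μ) (by rw [natDegree_X_sub_C]; norm_num)
  rw [aeval_sub] at h1
  exact h1

theorem mult_KB {n : Type} [Fintype n] [DecidableEq n] {C : Matrix n n ℤ} {κ₀ : ℕ}
    (h : ∀ (p : ℕ) [Fact p.Prime] (μ : ZMod p), mult (ZMod p) C μ ≤ κ₀) : KB C 2 κ₀ := by
  intro p _ a ha hd
  have h1 : a = Polynomial.C (a.coeff 1) * X + Polynomial.C (a.coeff 0) :=
    eq_X_add_C_of_natDegree_le_one (by omega)
  by_cases hc : a.coeff 1 = 0
  · have h2 : a.coeff 0 ≠ 0 := by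
      intro h0
      apply ha
      rw [h1, hc, h0]
      simp
    have h3 : aeval (C.map (Int.castRingHom (ZMod p))) a = a.coeff 0 • 1 := by
      conv_lhs => rw [h1, hc]
      rw [Polynomial.C_0, zero_mul, zero_add, aeval_C, Algebra.algebraMap_eq_smul_one]
    rw [h3, ker_smul _ _ h2]
    have h4 : LinearMap.ker (Matrix.toLin' (1 : Matrix n n (ZMod p))) = ⊥ := by
      rw [Matrix.toLin'_one]
      exact LinearMap.ker_id
    rw [h4, finrank_bot]
    exact Nat.zero_le _
  · rw [h1, aeval_lin _ _ _ hc, ker_smul _ _ hc]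
    exact h p _

end V3

theorem claimV3 (hV1 : ClaimV1) : ClaimV3 := by
  intro n' k κ₀ C hKB hk
  obtain ⟨V, hV⟩ := hV1 (k + n') k κ₀ C hKB hk
  have hcard : Fintype.card (Fin (k + n')) =
      Fintype.card (Fin 2 × Fin k) + (k + n' - 2 * k) := by
    rw [Fintype.card_fin, Fintype.card_prod, Fintype.card_fin, Fintype.card_fin]
    omega
  obtain ⟨B, K, L, a1, -, -, -, -⟩ := claimComplete (Fin (k + n')) (Fin 2 × Fin k) (Kry C V 2)
    (k + n' - 2 * k) hV hcard
  have e0 : ∀ (i : Fin 2) (a b : Fin k), ∑ j, K (i, a) j * V j b = if (i, a) = (0, b) then 1 else 0 := by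
    intro i a b
    have := congrFun (congrFun a1 (i, a)) ((0 : Fin 2), b)
    rw [Matrix.mul_apply, Matrix.one_apply] at this
    rw [← this]
    apply Finset.sum_congr rfl
    intro j _
    congr 1
    simp [Kry]
  have e1 : ∀ (i : Fin 2) (a b : Fin k), ∑ j, K (i, a) j * (C * V) j b =
      if (i, a) = (1, b) then 1 else 0 := by
    intro i a b
    have := congrFun (congrFun a1 (i, a)) ((1 : Fin 2), b)
    rw [Matrix.mul_apply, Matrix.one_apply] at this
    rw [← this]
    apply Finset.sum_congr rfl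
    intro j _
    congr 1
    simp [Kry]
  obtain ⟨ψ, hψ⟩ : ∃ ψ : Matrix (Fin k) (Fin (k + n')) ℤ,
      ψ = Matrix.of fun a j => K (0, a) j + K (1, a) j := ⟨_, rfl⟩
  have h1 : ψ * V = 1 := by
    ext a b
    rw [Matrix.mul_apply, Matrix.one_apply]
    have : ∑ j, ψ a j * V j b = ∑ j, K (0, a) j * V j b + ∑ j, K (1, a) j * V j b := by
      rw [← Finset.sum_add_distrib]
      apply Finset.sum_congr rfl
      intro j _
      rw [hψ, Matrix.of_apply]
      ring
    rw [this, e0, e0]
    simp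
  have h2 : ψ * (C * V) = 1 := by
    ext a b
    rw [Matrix.mul_apply, Matrix.one_apply]
    have : ∑ j, ψ a j * (C * V) j b =
        ∑ j, K (0, a) j * (C * V) j b + ∑ j, K (1, a) j * (C * V) j b := by
      rw [← Finset.sum_add_distrib]
      apply Finset.sum_congr rfl
      intro j _
      rw [hψ, Matrix.of_apply]
      ring
    rw [this, e1, e1]
    simp
  obtain ⟨S, hSdet, hSmult, hSLUF⟩ := claimPeelAlg claimComplete stepLU_all k n' C V ψ h1 h2
  refine ⟨S, hSdet, V3.mult_KB ?_, hSLUF⟩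
  intro p _ μ
  rw [hSmult]
  have hb := (claimMultBound (ZMod p) (Fin (k + n')) (Fin k)
    (C.map (Int.castRingHom (ZMod p))) (V.map (Int.castRingHom (ZMod p)))
    (ψ.map (Int.castRingHom (ZMod p))) μ).1
  rw [Fintype.card_fin] at hb
  have hc : mult (ZMod p) C μ ≤ κ₀ := V3.KB_mult hKB p μ
  unfold mult at hc
  exact hb.trans (Nat.add_le_add_right hc k)

end Pool.Agent.IntComm.Cst
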