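import Pool.Agent.Work.MP_584b0c_al.Cst.Stmts
import Pool.Agent.Work.MP_584b0c_al.Compan

set_option autoImplicit false

namespace Pool.Agent.IntComm.Cst

open Matrix Polynomial

theorem claimV4 : ClaimV4 := by
  intro k f hk hf hd h0
  obtain ⟨h1, h2⟩ := claimCompan k f hk hf hd
  have h3 : IsUnit (compan f : Matrix (Fin k) (Fin k) ℤ).det := by
    rw [h2]
    exact ((isUnit_one.neg).pow k).mul h0
  have h4 : IsUnit (compan f : Matrix (Fin k) (Fin k) ℤ) :=
    (Matrix.isUnit_iff_isUnit_det _).mpr h3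
  obtain ⟨X, hX⟩ := h4
  exact ⟨X, by rw [hX]; exact h1⟩

end Pool.Agent.IntComm.Cst
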