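import Pool.Agent.Work.MP_584b0c_al.Cst.Stmts

set_option autoImplicit false

/-!
MP_584b0c_al, third part: item V5.
-/

namespace Pool.Agent.IntComm.Cst

open Matrix Polynomial

theorem claimV5 : ClaimV5 := by
  intro F hF e he
  have h1 : (F * X ^ e).Monic := hF.mul (monic_X_pow e)
  have h2 : (F * X ^ e).natDegree = F.natDegree + e := by
    rw [hF.natDegree_mul (monic_X_pow e), natDegree_X_pow]
  have h3 : (1 : ℤ[X]).natDegree < (F * X ^ e).natDegree := by
    rw [h2, natDegree_one]
    omega
  refine ⟨F * X ^ e + 1, ?_, ?_, ?_, ?_⟩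
  · exact h1.add_of_left (degree_lt_degree h3)
  · rw [natDegree_add_eq_left_of_natDegree_lt h3, h2]
  · rw [coeff_add, coeff_one_zero, mul_coeff_zero, coeff_X_pow, if_neg (by omega), mul_zero,
      zero_add]
    exact isUnit_one
  · exact ⟨1, -X ^ e, by ring⟩

end Pool.Agent.IntComm.Cst
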