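import Pool.Agent.Work.MP_584b0c_al.Cst.C1
import Pool.Agent.Work.MP_584b0c_al.Cst.C2
import Pool.Agent.Work.MP_584b0c_al.Cst.C3
import Pool.Agent.Work.MP_584b0c_al.Cst.Chain
import Pool.Agent.Work.MP_584b0c_al.Cst.DC
import Pool.Agent.Work.MP_584b0c_al.Cst.Final
import Pool.Agent.Work.MP_584b0c_al.Cst.G1
import Pool.Agent.Work.MP_584b0c_al.Cst.G2
import Pool.Agent.Work.MP_584b0c_al.Cst.K1
import Pool.Agent.Work.MP_584b0c_al.Cst.K2
import Pool.Agent.Work.MP_584b0c_al.Cst.K3
import Pool.Agent.Work.MP_584b0c_al.Cst.L1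
import Pool.Agent.Work.MP_584b0c_al.Cst.L2
import Pool.Agent.Work.MP_584b0c_al.Cst.L3
import Pool.Agent.Work.MP_584b0c_al.Cst.L4
import Pool.Agent.Work.MP_584b0c_al.Cst.Mv
import Pool.Agent.Work.MP_584b0c_al.Cst.N0
import Pool.Agent.Work.MP_584b0c_al.Cst.N1
import Pool.Agent.Work.MP_584b0c_al.Cst.N2
import Pool.Agent.Work.MP_584b0c_al.Cst.N3
import Pool.Agent.Work.MP_584b0c_al.Cst.P0
import Pool.Agent.Work.MP_584b0c_al.Cst.P1
import Pool.Agent.Work.MP_584b0c_al.Cst.P2
import Pool.Agent.Work.MP_584b0c_al.Cst.P3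
import Pool.Agent.Work.MP_584b0c_al.Cst.P4
import Pool.Agent.Work.MP_584b0c_al.Cst.R1
import Pool.Agent.Work.MP_584b0c_al.Cst.R2
import Pool.Agent.Work.MP_584b0c_al.Cst.R3
import Pool.Agent.Work.MP_584b0c_al.Cst.V1
import Pool.Agent.Work.MP_584b0c_al.Cst.V2
import Pool.Agent.Work.MP_584b0c_al.Cst.V3
import Pool.Agent.Work.MP_584b0c_al.Cst.V4
import Pool.Agent.Work.MP_584b0c_al.Cst.V5

set_option autoImplicit false

namespace Pool.Agent.IntComm.Cst

theorem c1_all : ClaimC1 := claimC1 claimChain claimDC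
theorem c2_all : ClaimC2 := claimC2 claimChain claimDC
theorem c3_all : ClaimC3 := claimC3 c1_all c2_all
theorem g1_all : ClaimG1 := claimG1 claimChain claimMove
theorem g2_all : ClaimG2 := claimG2 claimChain claimMove g1_all
theorem l3_all : ClaimL3 := claimL3 claimL1 claimL2
theorem l4_all : ClaimL4 := claimL4 l3_all
theorem r3_all : ClaimR3 := claimR3 claimChain c3_all g1_all g2_all l4_all claimR1 claimR2
theorem n0_all : ClaimN0 := claimN0 claimChain
theorem n3_all : ClaimN3 := claimN3 claimN1 claimN2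
theorem p2_all : ClaimP2 := claimP2 claimP1
theorem p4_all : ClaimP4 := claimP4 claimP1 p2_all
theorem k2_all : ClaimK2 := claimK2 claimP0 p2_all claimP3 p4_all claimK1
theorem k3_all : ClaimK3 := claimK3 r3_all n0_all n3_all k2_all
theorem v3_all : ClaimV3 := claimV3 claimV1

theorem target3 : Target3 := target3_of k3_all claimV1 claimV2 v3_all claimV4 claimV5

end Pool.Agent.IntComm.Cst
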