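import Pool.Agent.Work.MP_584b0c_al.Cst.Stmts

set_option autoImplicit false

namespace Pool.Agent.IntComm.Cst

open Matrix Polynomial

namespace C1

/-- Dual vectors of independent families. -/
theorem exists_dual {F : Type} [Field F] {N : ℕ} {ι : Type} (u : ι → (Fin N → F)) (i₀ : ι)
    (hu : LinearIndependent F u) :
    ∃ ψ : Fin N → F, ψ ⬝ᵥ u i₀ = 1 ∧ ∀ i, i ≠ i₀ → ψ ⬝ᵥ u i = 0 := by
  have h1 := (linearIndependent_iff_notMem_span.1 hu) i₀
  obtain ⟨f, hf, hker⟩ := Submodule.exists_le_ker_of_notMem h1
  have hrep : ∀ v : Fin N → F, f v = (fun i => f (Pi.single i 1)) ⬝ᵥ v := by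
    intro v
    have h2 : v = ∑ i, v i • (Pi.single i (1 : F) : Fin N → F) := by
      conv_lhs => rw [pi_eq_sum_univ' v]
    conv_lhs => rw [h2]
    rw [map_sum]
    simp only [dotProduct, map_smul, smul_eq_mul]
    exact Finset.sum_congr rfl fun i _ => mul_comm _ _
  refine ⟨fun i => (f (u i₀))⁻¹ * f (Pi.single i 1), ?_, ?_⟩
  · have : (fun i => (f (u i₀))⁻¹ * f (Pi.single i 1)) ⬝ᵥ u i₀ =
        (f (u i₀))⁻¹ * ((fun i => f (Pi.single i 1)) ⬝ᵥ u i₀) := by
      simp only [dotProduct, Finset.mul_sum, mul_assoc]
    rw [this, ← hrep, inv_mul_cancel₀ hf]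
  · intro i hi
    have : (fun i => (f (u i₀))⁻¹ * f (Pi.single i 1)) ⬝ᵥ u i =
        (f (u i₀))⁻¹ * ((fun i => f (Pi.single i 1)) ⬝ᵥ u i) := by
      simp only [dotProduct, Finset.mul_sum, mul_assoc]
    rw [this, ← hrep]
    have h3 : f (u i) = 0 := by
      apply hker
      apply Submodule.subset_span
      exact ⟨i, ⟨Set.mem_univ _, hi⟩, rfl⟩
    rw [h3, mul_zero]

/-- The functional attached to a family. -/
noncomputable def psi {F : Type} [Field F] {N l : ℕ} (u : Fin (l + 1) → (Fin N → F)) :
    Fin N → F :=
  open Classical in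
  if h : LinearIndependent F u then (exists_dual u (Fin.last l) h).choose else 0

theorem psi_spec {F : Type} [Field F] {N l : ℕ} (u : Fin (l + 1) → (Fin N → F))
    (h : LinearIndependent F u) :
    psi u ⬝ᵥ u (Fin.last l) = 1 ∧ ∀ i, i ≠ Fin.last l → psi u ⬝ᵥ u i = 0 := by
  classical
  unfold psi
  rw [dif_pos h]
  exact (exists_dual u (Fin.last l) h).choose_spec

/-- The transformation. -/
noncomputable def TT {F : Type} [Field F] {k N : ℕ} (w : ℕ) (y : Fin N → F)
    (R : Matrix (Fin N) (Fin k ⊕ Fin N) F) : Matrix (Fin N) (Fin k ⊕ Fin N) F :=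
  if w < k then moveCol R y w else
    move R y (psi (fun a : Fin (w - k + 1) => chain R a))

theorem move_neg {F : Type} [Field F] {k N : ℕ} (R : Matrix (Fin N) (Fin k ⊕ Fin N) F)
    (y ψ : Fin N → F) : move (move R y ψ) (-y) ψ = R := by
  ext i j
  rcases j with j | j
  · simp [move, vecMulVec]
  · simp [move, vecMulVec]

theorem moveCol_neg {F : Type} [Field F] {k N : ℕ} (R : Matrix (Fin N) (Fin k ⊕ Fin N) F)
    (y : Fin N → F) (w : ℕ) : moveCol (moveCol R y w) (-y) w = R := by
  ext i j
  rcases j with j | j
  · simp only [moveCol, Matrix.add_apply, Matrix.fromCols_apply_inl, Matrix.of_apply]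
    split_ifs <;> simp
  · simp [moveCol]

/-- The transformation fixes the chain below `w` and adds `y` to `v_w`. -/
theorem TT_spec (hA0 : ClaimChain) {F : Type} [Field F] {k N : ℕ} (hk : 0 < k) (w : ℕ)
    (y : Fin N → F) (R : Matrix (Fin N) (Fin k ⊕ Fin N) F)
    (hR : LinearIndependent F (fun a : Fin w => chain R a)) :
    (∀ a, a < w → chain (TT w y R) a = chain R a) ∧ chain (TT w y R) w = chain R w + y := by
  obtain ⟨-, -, -, hA4, hA5⟩ := hA0
  unfold TT
  split_ifs with hw
  · exact hA5 F k N R y w hw
  · obtain ⟨w', rfl⟩ : ∃ w', w = w' + k := ⟨w - k, by omega⟩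
    have e : w' + k - k = w' := by omega
    rw [e]
    have hli : LinearIndependent F (fun a : Fin (w' + 1) => chain R a) := by
      have := hR.comp (Fin.castLE (by omega : w' + 1 ≤ w' + k)) (Fin.castLE_injective _)
      exact this
    have hs := psi_spec _ hli
    have h1 : ∀ a, a < w' → psi (fun a : Fin (w' + 1) => chain R a) ⬝ᵥ chain R a = 0 := by
      intro a ha
      have := hs.2 ⟨a, by omega⟩ (by
        intro h
        have := congrArg Fin.val h
        simp at this
        omega)
      exact this
    have h2 := hA4 F k N R y (psi (fun a : Fin (w' + 1) => chain R a)) w' hk h1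
    refine ⟨h2.1, ?_⟩
    rw [h2.2]
    have h3 : psi (fun a : Fin (w' + 1) => chain R a) ⬝ᵥ chain R w' = 1 := hs.1
    rw [h3, one_smul]

theorem TT_neg (hA0 : ClaimChain) {F : Type} [Field F] {k N : ℕ} (hk : 0 < k) (w : ℕ)
    (y : Fin N → F) (R : Matrix (Fin N) (Fin k ⊕ Fin N) F)
    (hR : LinearIndependent F (fun a : Fin w => chain R a)) :
    TT w (-y) (TT w y R) = R := by
  have hs := (TT_spec hA0 hk w y R hR).1
  by_cases hw : w < k
  · have e : ∀ (z : Fin N → F) (R' : Matrix (Fin N) (Fin k ⊕ Fin N) F),
        TT w z R' = moveCol R' z w := by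
      intro z R'
      unfold TT
      rw [if_pos hw]
    rw [e, e, moveCol_neg]
  · have e : ∀ (z : Fin N → F) (R' : Matrix (Fin N) (Fin k ⊕ Fin N) F),
        TT w z R' = move R' z (psi (fun a : Fin (w - k + 1) => chain R' a)) := by
      intro z R'
      unfold TT
      rw [if_neg hw]
    have h1 : (fun a : Fin (w - k + 1) => chain (TT w y R) a) =
        (fun a : Fin (w - k + 1) => chain R a) := by
      funext a
      apply hs
      have := a.2
      omega
    rw [e (-y) (TT w y R), h1, e, move_neg]

theorem card_span {F : Type} [Field F] [Fintype F] {N w : ℕ} (u : Fin w → (Fin N → F))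
    (hu : LinearIndependent F u) :
    Nat.card (Submodule.span F (Set.range u)) = Fintype.card F ^ w := by
  classical
  have h1 : Module.finrank F (Submodule.span F (Set.range u)) = w := by
    rw [finrank_span_eq_card hu, Fintype.card_fin]
  have : Fintype (Submodule.span F (Set.range u)) := Fintype.ofFinite _
  rw [Nat.card_eq_fintype_card, Module.card_eq_pow_finrank (K := F), h1]

end C1

open Classical in
theorem claimC1 (hA0 : ClaimChain) (hB1 : ClaimDC) : ClaimC1 := by
  intro F _ _ k N w hk hw
  have hDC := hB1 (Matrix (Fin N) (Fin k ⊕ Fin N) F) (Fin N → F)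
    (Finset.univ.filter fun R => LinearIndependent F (fun a : Fin w => chain R a))
    (Finset.univ.filter fun R => LinearIndependent F (fun a : Fin w => chain R a) ∧
      chain R w ∈ Submodule.span F (Set.range fun a : Fin w => chain R a))
    (by
      intro R hR
      rw [Finset.mem_filter] at hR ⊢
      exact ⟨hR.1, hR.2.1⟩)
    (C1.TT w)
    (by
      intro y R hR
      rw [Finset.mem_filter] at hR ⊢
      refine ⟨Finset.mem_univ _, ?_⟩
      have h1 : (fun a : Fin w => chain (C1.TT w y R) a) = (fun a : Fin w => chain R a) := by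
        funext a
        exact (C1.TT_spec hA0 hk w y R hR.2).1 a a.2
      rw [h1]
      exact hR.2)
    (by
      intro y R hR R' hR' h
      rw [Finset.mem_coe, Finset.mem_filter] at hR hR'
      have e1 := C1.TT_neg hA0 hk w y R hR.2
      have e2 := C1.TT_neg hA0 hk w y R' hR'.2
      rw [← e1, ← e2, h])
    (Fintype.card F ^ w)
    (by
      intro R hR
      rw [Finset.mem_filter] at hR
      rw [← C1.card_span _ hR.2, Nat.card_eq_fintype_card]
      rw [← Finset.card_univ]
      apply Finset.card_le_card_of_injOn
        (fun y => if h : chain R w + y ∈ Submodule.span F (Set.range fun a : Fin w => chain R a)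
          then (⟨chain R w + y, h⟩ :
            Submodule.span F (Set.range fun a : Fin w => chain R a)) else 0)
      · intro y _
        exact Finset.mem_coe.2 (Finset.mem_univ _)
      · have key : ∀ y, y ∈ (Finset.univ.filter fun y => C1.TT w y R ∈
            (Finset.univ.filter fun R => LinearIndependent F (fun a : Fin w => chain R a) ∧
              chain R w ∈ Submodule.span F (Set.range fun a : Fin w => chain R a))) →
            chain R w + y ∈ Submodule.span F (Set.range fun a : Fin w => chain R a) := by
          intro y hy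
          rw [Finset.mem_filter, Finset.mem_filter] at hy
          have h1 : (fun a : Fin w => chain (C1.TT w y R) a) = (fun a : Fin w => chain R a) := by
            funext a
            exact (C1.TT_spec hA0 hk w y R hR.2).1 a a.2
          have h2 := hy.2.2.2
          rw [h1, (C1.TT_spec hA0 hk w y R hR.2).2] at h2
          exact h2
        intro y hy y' hy' h
        rw [Finset.mem_coe] at hy hy'
        simp only [dif_pos (key y hy), dif_pos (key y' hy')] at h
        exact add_left_cancel (congrArg Subtype.val h))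
  have e1 : Fintype.card (Fin N → F) = Fintype.card F ^ N := by
    rw [Fintype.card_fun, Fintype.card_fin]
  rw [e1] at hDC
  have e2 : Nat.card {R : Matrix (Fin N) (Fin k ⊕ Fin N) F //
      LinearIndependent F (fun a : Fin w => chain R a) ∧
      chain R w ∈ Submodule.span F (Set.range fun a : Fin w => chain R a)} =
      (Finset.univ.filter fun R : Matrix (Fin N) (Fin k ⊕ Fin N) F =>
        LinearIndependent F (fun a : Fin w => chain R a) ∧
        chain R w ∈ Submodule.span F (Set.range fun a : Fin w => chain R a)).card := by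
    rw [Nat.card_eq_fintype_card, Fintype.card_subtype]
  rw [e2]
  refine hDC.trans (Nat.mul_le_mul_left _ ?_)
  rw [Nat.card_eq_fintype_card, ← Finset.card_univ]
  exact Finset.card_le_card (Finset.filter_subset _ _)

end Pool.Agent.IntComm.Cst
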