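import Pool.Agent.Work.MP_584b0c_al.Cst.Stmts

set_option autoImplicit false

namespace Pool.Agent.IntComm.Cst

open Matrix Polynomial

namespace L1

lemma eval_intCast_map (p : ℕ) (f : ℤ[X]) (y : ℤ) :
    (f.map (Int.castRingHom (ZMod p))).eval (y : ZMod p) = ((f.eval y : ℤ) : ZMod p) := by
  have := Polynomial.eval_map_apply (p := f) (Int.castRingHom (ZMod p)) y
  simpa using this

lemma dvd_iff (p : ℕ) (f : ℤ[X]) (y : ℤ) :
    (p : ℤ) ∣ f.eval y ↔ (f.map (Int.castRingHom (ZMod p))).eval (y : ZMod p) = 0 := by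
  rw [eval_intCast_map, ZMod.intCast_zmod_eq_zero_iff_dvd]

lemma exists_local (p : ℕ) (hp : p.Prime) (f : ℤ[X]) (D : ℕ) (hf : f.natDegree ≤ D)
    (h0 : f.map (Int.castRingHom (ZMod p)) ≠ 0) (hD : D < p) :
    ∃ y : ℤ, ¬ (p : ℤ) ∣ f.eval y := by
  haveI : Fact p.Prime := ⟨hp⟩
  have hlt : ((f.map (Int.castRingHom (ZMod p))).natDegree : Cardinal) < Cardinal.mk (ZMod p) := by
    rw [Cardinal.mk_fintype, ZMod.card]
    have h1 : (f.map (Int.castRingHom (ZMod p))).natDegree ≤ f.natDegree :=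
      Polynomial.natDegree_map_le
    exact_mod_cast lt_of_le_of_lt (h1.trans hf) hD
  obtain ⟨r, hr⟩ := Polynomial.exists_eval_ne_zero_of_natDegree_lt_card _ h0 hlt
  refine ⟨(r.val : ℤ), ?_⟩
  rw [dvd_iff]
  have : (((r.val : ℕ) : ℤ) : ZMod p) = r := by simp
  rw [this]
  exact hr

lemma congr_dvd (p : ℕ) (f : ℤ[X]) (y z : ℤ) (h : (p : ℤ) ∣ y - z) :
    (p : ℤ) ∣ f.eval y ↔ (p : ℤ) ∣ f.eval z := by
  have h1 : (y : ZMod p) = (z : ZMod p) := by
    rw [← sub_eq_zero, ← Int.cast_sub, ZMod.intCast_zmod_eq_zero_iff_dvd]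
    exact h
  rw [dvd_iff, dvd_iff, h1]

lemma crt (S : Finset ℕ) (hS : ∀ p ∈ S, p.Prime) (y : ℕ → ℤ) :
    ∃ y₀ : ℤ, ∀ p ∈ S, (p : ℤ) ∣ y₀ - y p := by
  obtain ⟨k, hk⟩ := Nat.chineseRemainderOfFinset (fun p : ℕ => (y p % (p : ℤ)).toNat)
    (fun p : ℕ => p) S (fun p hp => (hS p hp).ne_zero)
    (fun p hp q hq hpq => (Nat.coprime_primes (hS p hp) (hS q hq)).2 hpq)
  refine ⟨(k : ℤ), fun p hp => ?_⟩
  have h1 := hk p hp
  have hp0 : (p : ℤ) ≠ 0 := by exact_mod_cast (hS p hp).ne_zero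
  have h2 : ((y p % (p : ℤ)).toNat : ℤ) = y p % (p : ℤ) :=
    Int.toNat_of_nonneg (Int.emod_nonneg _ hp0)
  have h3 : (k : ℤ) ≡ (((y p % (p : ℤ)).toNat : ℕ) : ℤ) [ZMOD (p : ℤ)] := by
    exact (Int.natCast_modEq_iff).2 h1
  rw [h2] at h3
  have h4 : y p % (p : ℤ) ≡ y p [ZMOD (p : ℤ)] := Int.mod_modEq _ _
  have h5 := h3.trans h4
  exact Int.ModEq.dvd h5.symm

end L1

theorem claimL1 : ClaimL1 := by
  intro ι _ f g D hg hdeg hmap hsmall hbez
  obtain ⟨a, d, hd, hsum⟩ := hbez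
  classical
  have hloc : ∀ p : ℕ, ∃ y : ℤ, p.Prime → ∃ i, ¬ (p : ℤ) ∣ (f i).eval y := by
    intro p
    by_cases hp : p.Prime
    · by_cases hD : p ≤ D
      · obtain ⟨y, i, h⟩ := hsmall p hp hD
        exact ⟨y, fun _ => ⟨i, h⟩⟩
      · obtain ⟨i, hi⟩ := hmap p hp
        obtain ⟨y, hy⟩ := L1.exists_local p hp (f i) D (hdeg i) hi (by omega)
        exact ⟨y, fun _ => ⟨i, hy⟩⟩
    · exact ⟨0, fun h => absurd h hp⟩
  choose y hy using hloc
  obtain ⟨y₀, hy₀⟩ := L1.crt d.natAbs.primeFactors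
    (fun p hp => Nat.prime_of_mem_primeFactors hp) y
  set P : ℤ := ∏ p ∈ d.natAbs.primeFactors, (p : ℤ) with hP
  have hP0 : P ≠ 0 := by
    rw [hP, Finset.prod_ne_zero_iff]
    intro p hp
    exact_mod_cast (Nat.prime_of_mem_primeFactors hp).ne_zero
  have hex : ∃ z : ℤ, g.eval (y₀ + P * z) ≠ 0 := by
    by_contra hcon
    push Not at hcon
    refine hg (Polynomial.eq_zero_of_infinite_isRoot g ?_)
    refine Set.Infinite.mono (s := Set.range fun z : ℤ => y₀ + P * z) ?_ ?_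
    · rintro _ ⟨z, rfl⟩
      exact hcon z
    · refine Set.infinite_range_of_injective ?_
      intro z w h
      have h' : P * z = P * w := by
        have : y₀ + P * z = y₀ + P * w := h
        linarith
      exact mul_left_cancel₀ hP0 h'
  obtain ⟨z, hz⟩ := hex
  refine ⟨y₀ + P * z, hz, fun p hp => ?_⟩
  by_cases hpd : (p : ℤ) ∣ d
  · have hmem : p ∈ d.natAbs.primeFactors := by
      rw [Nat.mem_primeFactors]
      refine ⟨hp, ?_, by simpa using hd⟩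
      exact Int.natCast_dvd.1 hpd
    obtain ⟨i, hi⟩ := hy p hp
    refine ⟨i, fun hcon => hi ?_⟩
    refine (L1.congr_dvd p (f i) (y₀ + P * z) (y p) ?_).1 hcon
    have h1 := hy₀ p hmem
    have h2 : (p : ℤ) ∣ P := by
      rw [hP]
      exact Finset.dvd_prod_of_mem (fun q : ℕ => (q : ℤ)) hmem
    have h3 : y₀ + P * z - y p = (y₀ - y p) + P * z := by ring
    rw [h3]
    exact dvd_add h1 (Dvd.dvd.mul_right h2 z)
  · by_contra hcon
    push Not at hcon
    apply hpd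
    have h1 := congrArg (Polynomial.eval (y₀ + P * z)) hsum
    rw [Polynomial.eval_finset_sum, Polynomial.eval_C] at h1
    rw [← h1]
    refine Finset.dvd_sum fun i _ => ?_
    rw [Polynomial.eval_mul]
    exact Dvd.dvd.mul_left (hcon i) _

end Pool.Agent.IntComm.Cst
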