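import Pool.Agent.Work.MP_584b0c_al.Cst.Stmts
import Pool.Agent.Work.MP_584b0c_al.Up

set_option autoImplicit false

/-!
MP_584b0c_al, part 3, item P3: from commutators to pairs of products.
-/

namespace Pool.Agent.IntComm.Cst

open Matrix Polynomial

namespace P3

variable {κ : Type} [Fintype κ] [DecidableEq κ]

theorem conj (u : (Matrix κ κ ℤ)ˣ) : ∀ (Fs : List ℤ[X]) (A B : Matrix κ κ ℤ), PairProd Fs A B →
    PairProd Fs A ((u : Matrix κ κ ℤ) * B * ((u⁻¹ : (Matrix κ κ ℤ)ˣ) : Matrix κ κ ℤ)) := by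
  intro Fs
  induction Fs with
  | nil =>
    rintro A B ⟨hA, hB⟩
    refine ⟨hA, ?_⟩
    rw [hB, mul_one, ← Units.val_mul, mul_inv_cancel, Units.val_one]
  | cons F Fs ih =>
    rintro A B ⟨G, g, hG, A', B', hp, hA, hB⟩
    refine ⟨G, u * g, hG, A', _, ih A' B' hp, hA, ?_⟩
    rw [hB]
    have h1 : ((u * g * G * (u * g)⁻¹ : (Matrix κ κ ℤ)ˣ) : Matrix κ κ ℤ) =
        (u : Matrix κ κ ℤ) * ((g * G * g⁻¹ : (Matrix κ κ ℤ)ˣ) : Matrix κ κ ℤ)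
          * ((u⁻¹ : (Matrix κ κ ℤ)ˣ) : Matrix κ κ ℤ) := by
      rw [← Units.val_mul, ← Units.val_mul]
      congr 1
      group
    rw [h1]
    have h2 : ((u⁻¹ : (Matrix κ κ ℤ)ˣ) : Matrix κ κ ℤ) * (u : Matrix κ κ ℤ) = 1 := u.inv_mul
    simp only [← Matrix.mul_assoc]
    rw [Matrix.mul_assoc _ ((u⁻¹ : (Matrix κ κ ℤ)ˣ) : Matrix κ κ ℤ) (u : Matrix κ κ ℤ), h2,
      Matrix.mul_one]

theorem pairs : ∀ (Fs : List ℤ[X]) (D : Matrix κ κ ℤ), ProdComm Fs D →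
    ∃ A B : Matrix κ κ ℤ, PairProd Fs A B ∧ A = D * B := by
  intro Fs
  induction Fs with
  | nil =>
    intro D hD
    refine ⟨1, 1, ⟨rfl, rfl⟩, ?_⟩
    have : D = 1 := hD
    rw [this, mul_one]
  | cons F Fs ih =>
    rintro D ⟨X, g, hX, D', hD', hD⟩
    set K : (Matrix κ κ ℤ)ˣ := g * X * g⁻¹ with hK
    obtain ⟨A2, B2, hp, hA2⟩ := ih _ (prodComm_conj K⁻¹ Fs D' hD')
    refine ⟨(X : Matrix κ κ ℤ) * A2, (K : Matrix κ κ ℤ) * B2, ⟨X, g, hX, A2, B2, hp, rfl, rfl⟩, ?_⟩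
    rw [hA2, hD]
    have h1 : (X * g * X⁻¹ * g⁻¹ : (Matrix κ κ ℤ)ˣ) = X * K⁻¹ := by
      rw [hK]
      group
    rw [h1, Units.val_mul, inv_inv]
    simp only [Matrix.mul_assoc]

end P3

theorem claimP3 : ClaimP3 := by
  intro κ _ _ Fs D hD u
  obtain ⟨A, B, h, hA⟩ := P3.pairs Fs D hD
  exact ⟨A, B, P3.conj u Fs A B h, hA⟩

end Pool.Agent.IntComm.Cst
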