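import Pool.Agent.Work.MP_584b0c_al.Api2

set_option autoImplicit false

/-!
MP_584b0c_al, third part, owner helper16.
There is a constant `r₀` such that every C in SL_n(Z) (any n) with rank (C - μ) at least `r₀` modulo
every prime and for every scalar is a commutator of two elements of GL_n(Z).

Conventions: `k` is the block size, `N` the number of rows of `R`, `R = (m | M)` with `m` of size
`N x k` and `M` of size `N x N`; the chain of `R` is `v_a = m e_a` (`a < k`), `v_(a+k) = M v_a`.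
-/

namespace Pool.Agent.IntComm.Cst

open Matrix Polynomial

/-! ### chains and moves -/

/-- The chain `v_a = m e_a` (`a < k`), `v_(a+k) = M v_a` of `R = (m | M)`. -/
def chain {A : Type} [CommRing A] {k N : ℕ} (R : Matrix (Fin N) (Fin k ⊕ Fin N) A) (a : ℕ) :
    Fin N → A :=
  (R.toCols₂ ^ (a / k)).mulVec fun i => if h : a % k < k then R i (Sum.inl ⟨a % k, h⟩) else 0

/-- The move `M ↦ M + y ψ`. -/
def move {A : Type} [CommRing A] {k N : ℕ} (R : Matrix (Fin N) (Fin k ⊕ Fin N) A)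
    (y ψ : Fin N → A) : Matrix (Fin N) (Fin k ⊕ Fin N) A :=
  R + fromCols 0 (vecMulVec y ψ)

/-- The move adding `y` to column `w` of `m`. -/
def moveCol {A : Type} [CommRing A] {k N : ℕ} (R : Matrix (Fin N) (Fin k ⊕ Fin N) A)
    (y : Fin N → A) (w : ℕ) : Matrix (Fin N) (Fin k ⊕ Fin N) A :=
  R + fromCols (Matrix.of fun i (a : Fin k) => if a.val = w then y i else 0) 0

/-- `R` is good: `v_0, ..., v_(tk-1)` are independent and `v_0, ..., v_((t+1)k-1)` span. -/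
def GoodF {K : Type} [Field K] {k N : ℕ} (t : ℕ) (R : Matrix (Fin N) (Fin k ⊕ Fin N) K) : Prop :=
  LinearIndependent K (fun a : Fin (t * k) => chain R a) ∧
    Submodule.span K (Set.range fun a : Fin ((t + 1) * k) => chain R a) = ⊤

/-- The matrix with columns `v_0, ..., v_(w-1), e_(I w), ..., e_(I (N-1))`. -/
def dmat {A : Type} [CommRing A] {k N : ℕ} (R : Matrix (Fin N) (Fin k ⊕ Fin N) A) (w : ℕ)
    (I : Fin N → Fin N) : Matrix (Fin N) (Fin N) A :=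
  Matrix.of fun i a => if a.val < w then chain R a i else if i = I a then 1 else 0

/-- The matrix with columns `v_(K 0), ..., v_(K (N-1))`. -/
def kmat {A : Type} [CommRing A] {k N : ℕ} (R : Matrix (Fin N) (Fin k ⊕ Fin N) A)
    (K : Fin N → ℕ) : Matrix (Fin N) (Fin N) A :=
  Matrix.of fun i a => chain R (K a) i

/-- The generic matrix. -/
noncomputable def gen (F : Type) [Field F] (k N : ℕ) :
    Matrix (Fin N) (Fin k ⊕ Fin N) (MvPolynomial (Fin N × (Fin k ⊕ Fin N)) F) :=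
  Matrix.of fun i j => MvPolynomial.X (i, j)

/-- A0. Basic facts about chains. -/
def ClaimChain : Prop :=
  (∀ (A : Type) [CommRing A] (k N : ℕ) (R : Matrix (Fin N) (Fin k ⊕ Fin N) A) (a : Fin k),
    chain R a = fun i => R i (Sum.inl a)) ∧
  (∀ (A : Type) [CommRing A] (k N : ℕ) (R : Matrix (Fin N) (Fin k ⊕ Fin N) A) (a : ℕ), 0 < k →
    chain R (a + k) = R.toCols₂.mulVec (chain R a)) ∧
  (∀ (A B : Type) [CommRing A] [CommRing B] (f : A →+* B) (k N : ℕ)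
    (R : Matrix (Fin N) (Fin k ⊕ Fin N) A) (a : ℕ) (i : Fin N),
    chain (R.map f) a i = f (chain R a i)) ∧
  (∀ (A : Type) [CommRing A] (k N : ℕ) (R : Matrix (Fin N) (Fin k ⊕ Fin N) A) (y ψ : Fin N → A)
    (w : ℕ), 0 < k → (∀ a, a < w → ψ ⬝ᵥ chain R a = 0) →
    (∀ a, a < w + k → chain (move R y ψ) a = chain R a) ∧
      chain (move R y ψ) (w + k) = chain R (w + k) + (ψ ⬝ᵥ chain R w) • y) ∧
  (∀ (A : Type) [CommRing A] (k N : ℕ) (R : Matrix (Fin N) (Fin k ⊕ Fin N) A) (y : Fin N → A)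
    (w : ℕ), w < k → (∀ a, a < w → chain (moveCol R y w) a = chain R a) ∧
      chain (moveCol R y w) w = chain R w + y)

/-! ### counting over a finite field -/

/-- B1. Double counting. -/
def ClaimDC : Prop := ∀ (X Y : Type) [Fintype X] [DecidableEq X] [Fintype Y] (X₀ B : Finset X),
  B ⊆ X₀ → ∀ T : Y → X → X, (∀ y, ∀ x ∈ X₀, T y x ∈ X₀) → (∀ y, Set.InjOn (T y) (X₀ : Set X)) →
  ∀ c : ℕ, (∀ x ∈ X₀, (Finset.univ.filter fun y => T y x ∈ B).card ≤ c) →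
  B.card * Fintype.card Y ≤ c * X₀.card

/-- B2. First dependency at `v_w`. -/
def ClaimC1 : Prop := ∀ (F : Type) [Field F] [Fintype F] (k N w : ℕ), 0 < k → w < N →
  Nat.card {R : Matrix (Fin N) (Fin k ⊕ Fin N) F //
    LinearIndependent F (fun a : Fin w => chain R a) ∧
      chain R w ∈ Submodule.span F (Set.range fun a : Fin w => chain R a)} * Fintype.card F ^ N ≤
  Fintype.card F ^ w * Nat.card (Matrix (Fin N) (Fin k ⊕ Fin N) F)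

/-- B3. The last blocks do not span. -/
def ClaimC2 : Prop := ∀ (F : Type) [Field F] [Fintype F] (k N t s : ℕ), 0 < k → 1 ≤ t →
  N = t * k + s →
  Nat.card {R : Matrix (Fin N) (Fin k ⊕ Fin N) F //
    LinearIndependent F (fun a : Fin (t * k) => chain R a) ∧
      Submodule.span F (Set.range fun a : Fin ((t + 1) * k) => chain R a) ≠ ⊤} *
      Fintype.card F ^ k ≤
  Fintype.card F ^ s * Nat.card (Matrix (Fin N) (Fin k ⊕ Fin N) F)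

/-- B4. Local existence of common good neighbours. -/
def ClaimC3 : Prop := ∀ (p : ℕ) [Fact p.Prime] (m N t : ℕ), 3 ≤ m → 1 ≤ t → N = t * (2 * m) + m →
  ∀ A : Matrix (Fin (2 * m) ⊕ Fin N) (Fin (2 * m) ⊕ Fin N) (ZMod p), IsUnit A.det →
  ∃ R : Matrix (Fin N) (Fin (2 * m) ⊕ Fin N) (ZMod p), GoodF t R ∧ GoodF t (R * A)

/-! ### no common factor -/

/-- G0. The move lemma. -/
def ClaimMove : Prop := ∀ (A : Type) [CommRing A] [IsDomain A] (φ : A →+* A[X]),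
  (∀ a, (φ a).eval 0 = a) → ∀ h P P' c : A, Prime h → P' ≠ 0 → φ P' = C P' →
  φ P = C P + C c * X → h ∣ P → h ∣ P' → h ∣ c

/-- G1. Minors of `v_0, ..., v_(w-1)` have no common factor for `w < N`. -/
def ClaimG1 : Prop := ∀ (F : Type) [Field F] (k N w : ℕ), 0 < k → w + 1 ≤ N →
  ∀ h : MvPolynomial (Fin N × (Fin k ⊕ Fin N)) F, Prime h →
  ∃ I : Fin N → Fin N, ¬ h ∣ (dmat (gen F k N) w I).det

/-- G2. The two maximal determinants with last column `v_(N-1)` or `v_N` have no common factor. -/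
def ClaimG2 : Prop := ∀ (F : Type) [Field F] (k N : ℕ), 2 ≤ k → k ≤ N →
  ∀ h : MvPolynomial (Fin N × (Fin k ⊕ Fin N)) F, Prime h →
  ∃ b : ℕ, (b + 1 = N ∨ b = N) ∧
    ¬ h ∣ (kmat (gen F k N) fun a => if a.val + 1 = N then b else a.val).det

/-! ### from local to global -/

/-- L1. One variable. -/
def ClaimL1 : Prop := ∀ (ι : Type) [Fintype ι] (f : ι → ℤ[X]) (g : ℤ[X]) (D : ℕ), g ≠ 0 →
  (∀ i, (f i).natDegree ≤ D) → (∀ p : ℕ, p.Prime → ∃ i, (f i).map (Int.castRingHom (ZMod p)) ≠ 0) →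
  (∀ p : ℕ, p.Prime → p ≤ D → ∃ (y : ℤ) (i : ι), ¬ (p : ℤ) ∣ (f i).eval y) →
  (∃ (a : ι → ℤ[X]) (d : ℤ), d ≠ 0 ∧ ∑ i, a i * f i = C d) →
  ∃ y : ℤ, g.eval y ≠ 0 ∧ ∀ p : ℕ, p.Prime → ∃ i, ¬ (p : ℤ) ∣ (f i).eval y

/-- L2. Bezout over the fraction field. -/
def ClaimL2 : Prop := ∀ (n : ℕ) (ι : Type) [Fintype ι] (F : ι → (MvPolynomial (Fin n) ℤ)[X]),
  (∀ h : (MvPolynomial (Fin n) ℚ)[X], Prime h →
    ∃ i, ¬ h ∣ (F i).map (MvPolynomial.map (Int.castRingHom ℚ))) →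
  ∃ (a : ι → (MvPolynomial (Fin n) ℤ)[X]) (d : MvPolynomial (Fin n) ℤ), d ≠ 0 ∧
    ∑ i, a i * F i = C d

/-- L3. The local-global principle, `n` variables. -/
def ClaimL3 : Prop := ∀ (n : ℕ) (ι : Type) [Fintype ι] (F : ι → MvPolynomial (Fin n) ℤ)
  (g : MvPolynomial (Fin n) ℤ), g ≠ 0 →
  (∀ p : ℕ, p.Prime → ∃ (x : Fin n → ℤ) (i : ι), ¬ (p : ℤ) ∣ MvPolynomial.eval x (F i)) →
  (∀ h : MvPolynomial (Fin n) ℚ, Prime h →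
    ∃ i, ¬ h ∣ MvPolynomial.map (Int.castRingHom ℚ) (F i)) →
  ∃ x : Fin n → ℤ, MvPolynomial.eval x g ≠ 0 ∧
    ∀ p : ℕ, p.Prime → ∃ i, ¬ (p : ℤ) ∣ MvPolynomial.eval x (F i)

/-- L4. The local-global principle, any finite set of variables. -/
def ClaimL4 : Prop := ∀ (V : Type) [Fintype V] (ι : Type) [Fintype ι] (F : ι → MvPolynomial V ℤ),
  (∀ p : ℕ, p.Prime → ∃ (x : V → ℤ) (i : ι), ¬ (p : ℤ) ∣ MvPolynomial.eval x (F i)) →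
  (∀ h : MvPolynomial V ℚ, Prime h →
    ∃ i, ¬ h ∣ MvPolynomial.map (Int.castRingHom ℚ) (F i)) →
  ∃ x : V → ℤ, ∀ p : ℕ, p.Prime → ∃ i, ¬ (p : ℤ) ∣ MvPolynomial.eval x (F i)

/-! ### good neighbours -/

/-- R1. Independence by determinants. -/
def ClaimR1 : Prop := ∀ (K : Type) [Field K] (k N w : ℕ), w ≤ N →
  ∀ R : Matrix (Fin N) (Fin k ⊕ Fin N) K,
  LinearIndependent K (fun a : Fin w => chain R a) ↔ ∃ I : Fin N → Fin N, (dmat R w I).det ≠ 0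

/-- R2. Spanning by determinants. -/
def ClaimR2 : Prop := ∀ (K : Type) [Field K] (k N M : ℕ) (R : Matrix (Fin N) (Fin k ⊕ Fin N) K),
  Submodule.span K (Set.range fun a : Fin M => chain R a) = ⊤ ↔
    ∃ I : Fin N → Fin M, (kmat R fun a => (I a : ℕ)).det ≠ 0

/-- R3. Common good neighbours over the integers. -/
def ClaimR3 : Prop := ∀ (m N t : ℕ), 3 ≤ m → 1 ≤ t → N = t * (2 * m) + m →
  ∀ A : (Matrix (Fin (2 * m) ⊕ Fin N) (Fin (2 * m) ⊕ Fin N) ℤ)ˣ,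
  ∃ R : Matrix (Fin N) (Fin (2 * m) ⊕ Fin N) ℤ, ∀ (p : ℕ) [Fact p.Prime],
    GoodF t (R.map (Int.castRingHom (ZMod p))) ∧
    GoodF t ((R * (A : Matrix (Fin (2 * m) ⊕ Fin N) (Fin (2 * m) ⊕ Fin N) ℤ)).map
      (Int.castRingHom (ZMod p)))

/-! ### the normal form of a good pencil -/

/-- The filtration `W_0 = 0`, `W_(i+1) = im m + M W_i`. -/
def Wf {K κ ρ : Type} [Field K] [Fintype κ] [Fintype ρ] (R : Matrix ρ (κ ⊕ ρ) K) :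
    ℕ → Submodule K (ρ → K)
  | 0 => ⊥
  | i + 1 => LinearMap.range R.toCols₁.mulVecLin ⊔ (Wf R i).map R.toCols₂.mulVecLin

/-- `R` is good modulo every prime. -/
def GoodW {κ ρ : Type} [Fintype κ] [Fintype ρ] (t : ℕ) (R : Matrix ρ (κ ⊕ ρ) ℤ) : Prop :=
  ∀ (p : ℕ) [Fact p.Prime],
    Module.finrank (ZMod p) (Wf (R.map (Int.castRingHom (ZMod p))) t) = t * Fintype.card κ ∧
    Wf (R.map (Int.castRingHom (ZMod p))) (t + 1) = ⊤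

/-- N0. From chains to the filtration, with reindexing. -/
def ClaimN0 : Prop := ∀ (κ ρ : Type) [Fintype κ] [Fintype ρ] (k N t : ℕ) (e₁ : κ ≃ Fin k)
  (e₂ : ρ ≃ Fin N) (R : Matrix (Fin N) (Fin k ⊕ Fin N) ℤ), 0 < k →
  (∀ (p : ℕ) [Fact p.Prime], GoodF t (R.map (Int.castRingHom (ZMod p)))) →
  GoodW t (R.submatrix e₂ (Sum.map e₁ e₂))

section

variable {τ σ : Type} [DecidableEq τ] [DecidableEq σ]

/-- The normal form. -/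
def R0 : (t : ℕ) → Matrix (Idx τ σ t) ((τ ⊕ σ) ⊕ Idx τ σ t) ℤ
  | 0 => (fromCols (fromCols 0 1) 0 : Matrix σ ((τ ⊕ σ) ⊕ σ) ℤ)
  | t + 1 => (fromBlocks 1 0 0 (R0 t) :
      Matrix ((τ ⊕ σ) ⊕ Idx τ σ t) ((τ ⊕ σ) ⊕ ((τ ⊕ σ) ⊕ Idx τ σ t)) ℤ)

/-- The basis of the kernel of the normal form. -/
def Z0 : (t : ℕ) → Matrix ((τ ⊕ σ) ⊕ Idx τ σ t) (τ ⊕ σ) ℤ
  | 0 => (fromRows (fromBlocks 1 0 0 0) (fromCols 0 1) : Matrix ((τ ⊕ σ) ⊕ σ) (τ ⊕ σ) ℤ)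
  | t + 1 => (fromRows 0 (Z0 t) : Matrix ((τ ⊕ σ) ⊕ ((τ ⊕ σ) ⊕ Idx τ σ t)) (τ ⊕ σ) ℤ)

/-- `R` has the normal form. -/
def NFR [Fintype τ] [Fintype σ] (t : ℕ) (R : Matrix (Idx τ σ t) ((τ ⊕ σ) ⊕ Idx τ σ t) ℤ) : Prop :=
  ∃ (T₁ : (Matrix (τ ⊕ σ) (τ ⊕ σ) ℤ)ˣ) (T₁₂ : Matrix (τ ⊕ σ) (Idx τ σ t) ℤ)
    (T₂ : (Matrix (Idx τ σ t) (Idx τ σ t) ℤ)ˣ),
    R * fromBlocks (T₁ : Matrix (τ ⊕ σ) (τ ⊕ σ) ℤ) T₁₂ 0 (T₂ : Matrix (Idx τ σ t) (Idx τ σ t) ℤ) =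
      (T₂ : Matrix (Idx τ σ t) (Idx τ σ t) ℤ) *
        (R0 t : Matrix (Idx τ σ t) ((τ ⊕ σ) ⊕ Idx τ σ t) ℤ)

end

/-- N1. Start of the normal form. -/
def ClaimN1 : Prop := ∀ (τ σ : Type) [Fintype τ] [DecidableEq τ] [Fintype σ] [DecidableEq σ]
  (R : Matrix σ ((τ ⊕ σ) ⊕ σ) ℤ), GoodW 0 R →
  ∃ (T₁ : (Matrix (τ ⊕ σ) (τ ⊕ σ) ℤ)ˣ) (T₁₂ : Matrix (τ ⊕ σ) σ ℤ),
    R * (fromBlocks (T₁ : Matrix (τ ⊕ σ) (τ ⊕ σ) ℤ) T₁₂ 0 1 :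
      Matrix ((τ ⊕ σ) ⊕ σ) ((τ ⊕ σ) ⊕ σ) ℤ) =
      (fromCols (fromCols 0 1) 0 : Matrix σ ((τ ⊕ σ) ⊕ σ) ℤ)

/-- N2. One step of the normal form. -/
def ClaimN2 : Prop := ∀ (κ ρ : Type) [Fintype κ] [DecidableEq κ] [Fintype ρ] [DecidableEq ρ]
  (t : ℕ) (R : Matrix (κ ⊕ ρ) (κ ⊕ (κ ⊕ ρ)) ℤ), GoodW (t + 1) R →
  ∃ (Q : (Matrix (κ ⊕ ρ) (κ ⊕ ρ) ℤ)ˣ) (F : Matrix κ (κ ⊕ ρ) ℤ) (R' : Matrix ρ (κ ⊕ ρ) ℤ),
    GoodW t R' ∧ R * fromBlocks (1 : Matrix κ κ ℤ) F (0 : Matrix (κ ⊕ ρ) κ ℤ)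
      (Q : Matrix (κ ⊕ ρ) (κ ⊕ ρ) ℤ) =
      (Q : Matrix (κ ⊕ ρ) (κ ⊕ ρ) ℤ) * fromBlocks (1 : Matrix κ κ ℤ) (0 : Matrix κ (κ ⊕ ρ) ℤ)
        (0 : Matrix ρ κ ℤ) R'

/-- N3. The normal form. -/
def ClaimN3 : Prop := ∀ (τ σ : Type) [Fintype τ] [DecidableEq τ] [Fintype σ] [DecidableEq σ]
  (t : ℕ) (R : Matrix (Idx τ σ t) ((τ ⊕ σ) ⊕ Idx τ σ t) ℤ), GoodW t R → NFR t R

/-! ### completions of the normal form -/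

/-- P0. Facts about `R0` and `Z0`. -/
def ClaimP0 : Prop := ∀ (τ σ : Type) [Fintype τ] [DecidableEq τ] [Fintype σ] [DecidableEq σ]
  (t : ℕ), R0 (τ := τ) (σ := σ) t * Z0 (τ := τ) (σ := σ) t = 0 ∧
  ∃ (Y : Matrix (τ ⊕ σ) ((τ ⊕ σ) ⊕ Idx τ σ t) ℤ) (L : Matrix ((τ ⊕ σ) ⊕ Idx τ σ t) (Idx τ σ t) ℤ),
    Y * Z0 (τ := τ) (σ := σ) t = 1 ∧ R0 (τ := τ) (σ := σ) t * L = 1 ∧ Y * L = 0 ∧
    Z0 (τ := τ) (σ := σ) t * Y + L * R0 (τ := τ) (σ := σ) t = 1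

/-- P1. Peeling off a block. -/
def ClaimP1 : Prop := ∀ (τ σ : Type) [Fintype τ] [DecidableEq τ] [Fintype σ] [DecidableEq σ]
  (t : ℕ) (G : Matrix (τ ⊕ σ) (τ ⊕ σ) ℤ) (Φ : Matrix (τ ⊕ σ) ((τ ⊕ σ) ⊕ Idx τ σ t) ℤ),
  ∃ Φ' : Matrix (τ ⊕ σ) ((τ ⊕ σ) ⊕ Idx τ σ (t + 1)) ℤ,
    Sim (fromRows Φ' (R0 (t + 1)))
      (fromBlocks G 0 (fromRows (1 : Matrix (τ ⊕ σ) (τ ⊕ σ) ℤ)
        (0 : Matrix (Idx τ σ t) (τ ⊕ σ) ℤ)) (fromRows Φ (R0 t)) :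
        Matrix ((τ ⊕ σ) ⊕ Idx τ σ (t + 1)) ((τ ⊕ σ) ⊕ Idx τ σ (t + 1)) ℤ) ∧
    Φ' * (Z0 (t + 1) : Matrix ((τ ⊕ σ) ⊕ Idx τ σ (t + 1)) (τ ⊕ σ) ℤ) =
      -(G * (Φ * (Z0 t : Matrix ((τ ⊕ σ) ⊕ Idx τ σ t) (τ ⊕ σ) ℤ)))

/-- P2. Unipotent completions. -/
def ClaimP2 : Prop := ∀ (τ σ : Type) [Fintype τ] [DecidableEq τ] [Fintype σ] [DecidableEq σ]
  (t : ℕ), ∃ (Φ : Matrix (τ ⊕ σ) ((τ ⊕ σ) ⊕ Idx τ σ t) ℤ) (A₀ : (Matrix (τ ⊕ σ) (τ ⊕ σ) ℤ)ˣ)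
    (e : ℕ), Φ * (Z0 t : Matrix ((τ ⊕ σ) ⊕ Idx τ σ t) (τ ⊕ σ) ℤ) =
      (A₀ : Matrix (τ ⊕ σ) (τ ⊕ σ) ℤ) ∧
    aeval (fromRows Φ (R0 t) : Matrix ((τ ⊕ σ) ⊕ Idx τ σ t) ((τ ⊕ σ) ⊕ Idx τ σ t) ℤ)
      ((X - 1 : ℤ[X]) ^ e) = 0

/-- `A = G_1 ... G_q`, `B = K_1 ... K_q` with `F_i(G_i) = 0` and `K_i` conjugate to `G_i`. -/
def PairProd {κ : Type} [Fintype κ] [DecidableEq κ] :
    List ℤ[X] → Matrix κ κ ℤ → Matrix κ κ ℤ → Prop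
  | [], A, B => A = 1 ∧ B = 1
  | F :: Fs, A, B => ∃ G g : (Matrix κ κ ℤ)ˣ, aeval (G : Matrix κ κ ℤ) F = 0 ∧
      ∃ A' B' : Matrix κ κ ℤ, PairProd Fs A' B' ∧ A = (G : Matrix κ κ ℤ) * A' ∧
        B = ((g * G * g⁻¹ : (Matrix κ κ ℤ)ˣ) : Matrix κ κ ℤ) * B'

/-- P3. From commutators to pairs of products. -/
def ClaimP3 : Prop := ∀ (κ : Type) [Fintype κ] [DecidableEq κ] (Fs : List ℤ[X])
  (D : Matrix κ κ ℤ), ProdComm Fs D → ∀ u : (Matrix κ κ ℤ)ˣ, ∃ A B : Matrix κ κ ℤ,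
  PairProd Fs A ((u : Matrix κ κ ℤ) * B * ((u⁻¹ : (Matrix κ κ ℤ)ˣ) : Matrix κ κ ℤ)) ∧ A = D * B

/-- P4. Pairs of completions. -/
def ClaimP4 : Prop := ∀ (τ σ : Type) [Fintype τ] [DecidableEq τ] [Fintype σ] [DecidableEq σ]
  (t : ℕ), ∃ (A₀ : (Matrix (τ ⊕ σ) (τ ⊕ σ) ℤ)ˣ) (e : ℕ), ∀ (Fs : List ℤ[X]),
  Fs.Pairwise IsCoprime → (∀ F ∈ Fs, IsCoprime F (X - 1)) → ∀ A B : Matrix (τ ⊕ σ) (τ ⊕ σ) ℤ,
  PairProd Fs A B → ∃ Φ Ψ : Matrix (τ ⊕ σ) ((τ ⊕ σ) ⊕ Idx τ σ (t + Fs.length)) ℤ,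
    Sim (fromRows Φ (R0 (t + Fs.length))) (fromRows Ψ (R0 (t + Fs.length))) ∧
    aeval (fromRows Φ (R0 (t + Fs.length)) :
      Matrix ((τ ⊕ σ) ⊕ Idx τ σ (t + Fs.length)) ((τ ⊕ σ) ⊕ Idx τ σ (t + Fs.length)) ℤ)
      (Fs.prod * (X - 1) ^ e) = 0 ∧
    Φ * (Z0 (t + Fs.length) : Matrix ((τ ⊕ σ) ⊕ Idx τ σ (t + Fs.length)) (τ ⊕ σ) ℤ) =
      (-1 : ℤ) ^ Fs.length • (A * (A₀ : Matrix (τ ⊕ σ) (τ ⊕ σ) ℤ)) ∧
    Ψ * (Z0 (t + Fs.length) : Matrix ((τ ⊕ σ) ⊕ Idx τ σ (t + Fs.length)) (τ ⊕ σ) ℤ) =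
      (-1 : ℤ) ^ Fs.length • (B * (A₀ : Matrix (τ ⊕ σ) (τ ⊕ σ) ℤ))

/-! ### the key proposition -/

/-- K1. Two matrices with the same last rows that agree on the kernel of these rows. -/
def ClaimK1 : Prop := ∀ (κ ρ : Type) [Fintype κ] [DecidableEq κ] [Fintype ρ] [DecidableEq ρ]
  (X : Matrix (κ ⊕ ρ) (κ ⊕ ρ) ℤ) (W : (Matrix (κ ⊕ ρ) (κ ⊕ ρ) ℤ)ˣ) (Z : Matrix (κ ⊕ ρ) κ ℤ),
  X.toRows₂ = (W : Matrix (κ ⊕ ρ) (κ ⊕ ρ) ℤ).toRows₂ → X * Z = (W : Matrix (κ ⊕ ρ) (κ ⊕ ρ) ℤ) * Z →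
  (∀ x : κ ⊕ ρ → ℤ, (W : Matrix (κ ⊕ ρ) (κ ⊕ ρ) ℤ).toRows₂.mulVec x = 0 →
    ∃ y : κ → ℤ, x = Z.mulVec y) →
  ∃ η : Matrix κ ρ ℤ, X = fromBlocks 1 η 0 1 * (W : Matrix (κ ⊕ ρ) (κ ⊕ ρ) ℤ)

/-- K2. The key proposition for a pair of pencils in normal form. -/
def ClaimK2 : Prop := ∀ (τ σ : Type) [Fintype τ] [DecidableEq τ] [Fintype σ] [DecidableEq σ]
  (t : ℕ) (Fs : List ℤ[X]), Fs.Pairwise IsCoprime → (∀ F ∈ Fs, IsCoprime F (X - 1)) →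
  (∀ D : Matrix (τ ⊕ σ) (τ ⊕ σ) ℤ, D.det = 1 → ProdComm Fs D) →
  ∀ (S : (Matrix ((τ ⊕ σ) ⊕ Idx τ σ (t + Fs.length)) ((τ ⊕ σ) ⊕ Idx τ σ (t + Fs.length)) ℤ)ˣ)
    (R : Matrix (Idx τ σ (t + Fs.length)) ((τ ⊕ σ) ⊕ Idx τ σ (t + Fs.length)) ℤ),
  (S : Matrix ((τ ⊕ σ) ⊕ Idx τ σ (t + Fs.length)) ((τ ⊕ σ) ⊕ Idx τ σ (t + Fs.length)) ℤ).det = 1 →
  NFR (t + Fs.length) R →
  NFR (t + Fs.length) (R * ((S⁻¹ :
    (Matrix ((τ ⊕ σ) ⊕ Idx τ σ (t + Fs.length)) ((τ ⊕ σ) ⊕ Idx τ σ (t + Fs.length)) ℤ)ˣ) :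
      Matrix ((τ ⊕ σ) ⊕ Idx τ σ (t + Fs.length)) ((τ ⊕ σ) ⊕ Idx τ σ (t + Fs.length)) ℤ)) →
  ∃ (e : ℕ) (η : Matrix (τ ⊕ σ) (Idx τ σ (t + Fs.length)) ℤ),
    LUF (Fs.prod * (X - 1) ^ e) (fromBlocks 1 η 0 1 *
      (S : Matrix ((τ ⊕ σ) ⊕ Idx τ σ (t + Fs.length)) ((τ ⊕ σ) ⊕ Idx τ σ (t + Fs.length)) ℤ))

/-- K3. The key proposition. -/
def ClaimK3 : Prop := ∀ (m N t : ℕ) (Fs : List ℤ[X]), 3 ≤ m → 92 ≤ Fs.length →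
  N = (t + Fs.length) * (2 * m) + m → (∀ F ∈ Fs, Fam m F) → Fs.Pairwise IsCoprime →
  (∀ F ∈ Fs, IsCoprime F (X - 1)) →
  ∀ S : Matrix (Fin (2 * m) ⊕ Fin N) (Fin (2 * m) ⊕ Fin N) ℤ, S.det = 1 →
  ∃ (e : ℕ) (η : Matrix (Fin (2 * m)) (Fin N) ℤ),
    LUF (Fs.prod * (X - 1) ^ e) (fromBlocks 1 η 0 1 * S)

/-! ### pivot blocks -/

/-- V1. Existence of `V` with `(V | C V)` unimodular. -/
def ClaimV1 : Prop := ∀ (n k κ₀ : ℕ) (C : Matrix (Fin n) (Fin n) ℤ), KB C 2 κ₀ →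
  2 * k + 2 + κ₀ ≤ n → ∃ V : Matrix (Fin n) (Fin k) ℤ, PInd (Kry C V 2)

/-- V2. The Schur complement of a pivot block and its free first rows. -/
def ClaimV2 : Prop := ∀ (n k δ : ℕ) (C : Matrix (Fin n) (Fin n) ℤ) (V : Matrix (Fin n) (Fin k) ℤ),
  n = k + (k + δ) → PInd (Kry C V 2) → ∃ S : Matrix (Fin k ⊕ Fin δ) (Fin k ⊕ Fin δ) ℤ,
  S.det = C.det ∧ ∀ (G F' : ℤ[X]) (X : (Matrix (Fin k) (Fin k) ℤ)ˣ) (η : Matrix (Fin k) (Fin δ) ℤ),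
    aeval (X : Matrix (Fin k) (Fin k) ℤ) G = 0 → IsCoprime G F' →
    LUF F' (fromBlocks 1 η 0 1 * S) → LUF (G * F') C

/-- V3. A pivot block of arbitrary size, keeping the bounds for the eigenspaces. -/
def ClaimV3 : Prop := ∀ (n' k κ₀ : ℕ) (C : Matrix (Fin (k + n')) (Fin (k + n')) ℤ), KB C 2 κ₀ →
  2 * k + 2 + κ₀ ≤ k + n' → ∃ S : Matrix (Fin n') (Fin n') ℤ, S.det = C.det ∧ KB S 2 (κ₀ + k) ∧
  ∀ (G F' : ℤ[X]) (X : (Matrix (Fin k) (Fin k) ℤ)ˣ),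
    aeval (X : Matrix (Fin k) (Fin k) ℤ) G = 0 → IsCoprime G F' → LUF F' S → LUF (G * F') C

/-- V4. Units annihilated by a given monic polynomial with constant coefficient a unit. -/
def ClaimV4 : Prop := ∀ (k : ℕ) (f : ℤ[X]), 0 < k → f.Monic → f.natDegree = k →
  IsUnit (f.coeff 0) → ∃ X : (Matrix (Fin k) (Fin k) ℤ)ˣ, aeval (X : Matrix (Fin k) (Fin k) ℤ) f = 0

/-- V5. The polynomial of the adjusting block. -/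
def ClaimV5 : Prop := ∀ F : ℤ[X], F.Monic → ∀ e : ℕ, 1 ≤ e → ∃ G : ℤ[X], G.Monic ∧
  G.natDegree = F.natDegree + e ∧ IsUnit (G.coeff 0) ∧ IsCoprime G F

/-- The theorem. -/
def Target3 : Prop := ∃ r₀ : ℕ, ∀ (n : ℕ) (C : Matrix (Fin n) (Fin n) ℤ), C.det = 1 →
  (∀ (p : ℕ) [Fact p.Prime] (μ : ZMod p),
    r₀ ≤ (C.map (Int.castRingHom (ZMod p)) - Matrix.scalar (Fin n) μ).rank) →
  IsComm C

end Pool.Agent.IntComm.Cst
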